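import Pool.Agent.KS6_39.TT.TorusTaut

open MeasureTheory Set Filter Topology
open scoped ENNReal NNReal RealInnerProductSpace ContDiff

set_option linter.unusedSectionVars false

noncomputable section

namespace Pool.Agent.KS6_39.TT

variable {V W : Type} [NormedAddCommGroup V] [InnerProductSpace ℝ V] [FiniteDimensional ℝ V]
  [NormedAddCommGroup W] [InnerProductSpace ℝ W] [FiniteDimensional ℝ W]

lemma exists_pole (hV : 3 ≤ Module.finrank ℝ V) (e : Frame V) {p : V} (hp : ‖p‖ = 1) :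
    ∃ q : V, ‖q‖ = 1 ∧ ∃ δ > 0, δ ≤ 1 - ⟪p, q⟫ ∧ ∀ θ, δ ≤ 1 - ⟪e.pt θ, q⟫ := by
  obtain ⟨q, hq, h1, h2⟩ := exists_missed hV (e.pt (2 * Real.pi)) p
    (e.cp (2 * Real.pi) (constL2 (2 * Real.pi))) (0 : L2 V)
  have hpath : ∀ t, path (e.pt (2 * Real.pi)) (e.cp (2 * Real.pi) (constL2 (2 * Real.pi))) t =
      e.pt (2 * Real.pi * (t : ℝ)) := by
    intro t
    rw [Frame.path_cp, path_constL2, smul_eq_mul]
    congr 1; ring
  obtain ⟨δ1, hδ1, hd1⟩ := exists_delta hq (fun t => by rw [hpath]; exact e.norm_pt _) h1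
  have h3 : ∀ t, path p (0 : L2 V) t = p := fun t => path_zero p t
  obtain ⟨δ2, hδ2, hd2⟩ := exists_delta (p := p) (g := 0) hq (fun t => by rw [h3]; exact hp) h2
  refine ⟨q, hq, min δ1 δ2, lt_min hδ1 hδ2, ?_, fun θ => ?_⟩
  · have := hd2 0
    rw [h3] at this
    exact (min_le_right _ _).trans this
  · have hfr := Int.fract_nonneg (θ / (2 * Real.pi))
    have hfr1 := Int.fract_lt_one (θ / (2 * Real.pi))
    have h4 := hd1 ⟨Int.fract (θ / (2 * Real.pi)), hfr, hfr1.le⟩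
    rw [hpath] at h4
    have h5 : e.pt (2 * Real.pi * Int.fract (θ / (2 * Real.pi))) = e.pt θ := by
      rw [Frame.pt_eq_iff]
      refine ⟨-⌊θ / (2 * Real.pi)⌋, ?_⟩
      rw [Int.fract]
      push_cast
      field_simp
      ring
    dsimp only at h4
    rw [h5] at h4
    exact (min_le_left _ _).trans h4

/-- The standard path from `m` to `p` on the sphere. -/
def std (δ : ℝ) (q p m : V) : L2 V :=
  (comp (unst q) (contDiff_unst q) (ste δ q p, constL2 (ste δ q p - ste δ q m))).2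

lemma continuous_std {δ : ℝ} (hδ : 0 < δ) (q p : V) : Continuous (std δ q p) := by
  unfold std
  exact continuous_snd.comp ((continuous_comp _ _).comp
    (continuous_const.prodMk (continuous_constL2.comp (continuous_const.sub
      (contDiff_ste hδ q).continuous))))

lemma path_std {δ : ℝ} (hδ : 0 < δ) {q p : V} (hq : ‖q‖ = 1) (hp : ‖p‖ = 1)
    (hpq : δ ≤ 1 - ⟪p, q⟫) (m : V) (t : unitInterval) :
    path p (std δ q p m) t =
      unst q (ste δ q p - (1 - (t : ℝ)) • (ste δ q p - ste δ q m)) := by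
  have h := path_comp (unst q) (contDiff_unst q) (ste δ q p)
    (constL2 (ste δ q p - ste δ q m)) t
  have h1 : (comp (unst q) (contDiff_unst q) (ste δ q p,
      constL2 (ste δ q p - ste δ q m))).1 = p := unst_ste hδ hq hp hpq
  rw [h1, path_constL2] at h
  exact h

lemma norm_path_std {δ : ℝ} (hδ : 0 < δ) {q p : V} (hq : ‖q‖ = 1) (hp : ‖p‖ = 1)
    (hpq : δ ≤ 1 - ⟪p, q⟫) (m : V) (t : unitInterval) : ‖path p (std δ q p m) t‖ = 1 := by
  rw [path_std hδ hq hp hpq]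
  apply norm_unst hq
  rw [inner_sub_left, inner_smul_left, inner_sub_left, inner_ste hq, inner_ste hq]
  simp

lemma path_std_zero {δ : ℝ} (hδ : 0 < δ) {q p m : V} (hq : ‖q‖ = 1) (hp : ‖p‖ = 1)
    (hpq : δ ≤ 1 - ⟪p, q⟫) (hm : ‖m‖ = 1) (hmq : δ ≤ 1 - ⟪m, q⟫) :
    path p (std δ q p m) 0 = m := by
  rw [path_std hδ hq hp hpq]
  simp [unst_ste hδ hq hm hmq]

lemma mem_pathSpace {N M : Set (WithLp 2 (V × W))} {p : V} {q : W} {g : L2 V} {h : L2 W} :
    join2 g h ∈ pathSpace N M (pairL (p, q)) ↔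
      (∀ t, pairL (path p g t, path q h t) ∈ N) ∧ pairL (path p g 0, path q h 0) ∈ M := by
  constructor
  · rintro ⟨h1, h2⟩
    rw [path_join2] at h2
    simp only [path_join2] at h1
    exact ⟨h1, h2⟩
  · rintro ⟨h1, h2⟩
    refine ⟨fun t => ?_, ?_⟩
    · rw [path_join2]; exact h1 t
    · rw [path_join2]; exact h2

lemma isPathConnected_pathSpace (hV : 3 ≤ Module.finrank ℝ V) (hW : 3 ≤ Module.finrank ℝ W)
    (e : Frame V) (f : Frame W) (a b : ℤ) {p : WithLp 2 (V × W)} (hp : p ∈ sphereProd V W) :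
    IsPathConnected (pathSpace (sphereProd V W) (torusGeodesic e f a b) p) := by
  obtain ⟨q1, hq1, δ1, hδ1, hp1, hc1⟩ := exists_pole hV e hp.1
  obtain ⟨q2, hq2, δ2, hδ2, hp2, hc2⟩ := exists_pole hW f hp.2
  set p1 := p.fst with hp1def
  set p2 := p.snd with hp2def
  have hpe : p = pairL (p1, p2) := (pairL_eq p).symm
  rw [hpe]
  set X := pathSpace (sphereProd V W) (torusGeodesic e f a b) (pairL (p1, p2)) with hX
  have hstd : ∀ θ, join2 (std δ1 q1 p1 (e.pt (a * θ))) (std δ2 q2 p2 (f.pt (b * θ))) ∈ X := by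
    intro θ
    rw [hX, mem_pathSpace]
    refine ⟨fun t => ⟨norm_path_std hδ1 hq1 hp.1 hp1 _ t, norm_path_std hδ2 hq2 hp.2 hp2 _ t⟩, ?_⟩
    rw [path_std_zero hδ1 hq1 hp.1 hp1 (e.norm_pt _) (hc1 _),
      path_std_zero hδ2 hq2 hp.2 hp2 (f.norm_pt _) (hc2 _)]
    exact mm_mem e f a b θ
  have step1 : ∀ g ∈ X, ∃ θ, JoinedIn X g
      (join2 (std δ1 q1 p1 (e.pt (a * θ))) (std δ2 q2 p2 (f.pt (b * θ)))) := by
    intro g hg
    rw [← join2_comp g] at hg ⊢
    obtain ⟨h1, h2⟩ := mem_pathSpace.mp hg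
    obtain ⟨θ, hθ⟩ := h2
    dsimp only at hθ
    rw [toLp_eq, pairL_inj, Prod.mk.injEq] at hθ
    set g1 := comp1 g
    set g2 := comp2 g
    refine ⟨θ, ?_⟩
    obtain ⟨γ1, k1⟩ := joined_rel hV (fun t => (h1 t).1)
      (norm_path_std hδ1 hq1 hp.1 hp1 (e.pt (a * θ)))
      (by rw [path_std_zero hδ1 hq1 hp.1 hp1 (e.norm_pt _) (hc1 _), hθ.1])
    obtain ⟨γ2, k2⟩ := joined_rel hW (fun t => (h1 t).2)
      (norm_path_std hδ2 hq2 hp.2 hp2 (f.pt (b * θ)))
      (by rw [path_std_zero hδ2 hq2 hp.2 hp2 (f.norm_pt _) (hc2 _), hθ.2])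
    refine ⟨(γ1.prod γ2).map continuous_join2, fun t => ?_⟩
    have e1 : (γ1.prod γ2).map continuous_join2 t = join2 (γ1 t) (γ2 t) := rfl
    rw [e1, hX, mem_pathSpace]
    refine ⟨fun u => ⟨(k1 t).1 u, (k2 t).1 u⟩, ?_⟩
    have e2 : path p1 (γ1 t) 0 = path p1 g1 0 := (k1 t).2
    have e3 : path p2 (γ2 t) 0 = path p2 g2 0 := (k2 t).2
    rw [e2, e3, ← hθ.1, ← hθ.2]
    exact mm_mem e f a b θ
  have step2 : ∀ θ, JoinedIn X
      (join2 (std δ1 q1 p1 (e.pt (a * θ))) (std δ2 q2 p2 (f.pt (b * θ))))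
      (join2 (std δ1 q1 p1 (e.pt (a * 0))) (std δ2 q2 p2 (f.pt (b * 0)))) := by
    intro θ
    refine JoinedIn.ofLine (f := fun s : ℝ =>
      join2 (std δ1 q1 p1 (e.pt (a * ((1 - s) * θ)))) (std δ2 q2 p2 (f.pt (b * ((1 - s) * θ)))))
      ?_ (by simp) (by simp) ?_
    · apply Continuous.continuousOn
      have c1 : Continuous fun s : ℝ => e.pt (a * ((1 - s) * θ)) :=
        e.continuous_pt.comp (by fun_prop)
      have c2 : Continuous fun s : ℝ => f.pt (b * ((1 - s) * θ)) :=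
        f.continuous_pt.comp (by fun_prop)
      exact continuous_join2.comp (((continuous_std hδ1 q1 p1).comp c1).prodMk
        ((continuous_std hδ2 q2 p2).comp c2))
    · rintro _ ⟨s, -, rfl⟩
      exact hstd _
  refine ⟨join2 (std δ1 q1 p1 (e.pt (a * 0))) (std δ2 q2 p2 (f.pt (b * 0))), hstd _,
    fun {g} hg => ?_⟩
  obtain ⟨θ, h1⟩ := step1 g hg
  exact (h1.trans (step2 θ)).symm

end Pool.Agent.KS6_39.TT
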