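import Pool.Agent.KS6_39.TT.Loc

open MeasureTheory Set Filter Topology
open scoped ENNReal NNReal RealInnerProductSpace ContDiff

set_option linter.unusedSectionVars false

noncomputable section

namespace Pool.Agent.KS6_39.TT

variable {V W : Type} [NormedAddCommGroup V] [InnerProductSpace ℝ V] [FiniteDimensional ℝ V]
  [NormedAddCommGroup W] [InnerProductSpace ℝ W] [FiniteDimensional ℝ W]

lemma angle_eq_arccos {x y : V} (hx : ‖x‖ = 1) (hy : ‖y‖ = 1) :
    InnerProductGeometry.angle x y = Real.arccos ⟪x, y⟫ := by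
  unfold InnerProductGeometry.angle
  rw [hx, hy, mul_one, div_one]

lemma continuous_red (e : Frame V) (f : Frame W) (a b : ℤ) {p : WithLp 2 (V × W)}
    (hp : p ∈ sphereProd V W) : Continuous (red e f a b p) := by
  have h : red e f a b p = fun s => Real.arccos ⟪e.pt (a * s), p.fst⟫ ^ 2 +
      Real.arccos ⟪f.pt (b * s), p.snd⟫ ^ 2 := by
    funext s
    unfold red
    rw [angle_eq_arccos (e.norm_pt _) hp.1, angle_eq_arccos (f.norm_pt _) hp.2]
  rw [h]
  have c1 : Continuous fun s : ℝ => e.pt (a * s) := e.continuous_pt.comp (by fun_prop)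
  have c2 : Continuous fun s : ℝ => f.pt (b * s) := f.continuous_pt.comp (by fun_prop)
  exact ((Real.continuous_arccos.comp (c1.inner continuous_const)).pow 2).add
    ((Real.continuous_arccos.comp (c2.inner continuous_const)).pow 2)

/-- A bound for the variation of the reduced energy. -/
def dev (p q : WithLp 2 (V × W)) : ℝ :=
  2 * Real.pi * (InnerProductGeometry.angle p.fst q.fst +
    InnerProductGeometry.angle p.snd q.snd)

lemma sq_angle_sub_le (x y z : V) :
    |InnerProductGeometry.angle x y ^ 2 - InnerProductGeometry.angle x z ^ 2| ≤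
      2 * Real.pi * InnerProductGeometry.angle y z := by
  have h1 := InnerProductGeometry.angle_le_angle_add_angle x z y
  have h2 := InnerProductGeometry.angle_le_angle_add_angle x y z
  rw [InnerProductGeometry.angle_comm z y] at h1
  have hA0 := InnerProductGeometry.angle_nonneg x y
  have hB0 := InnerProductGeometry.angle_nonneg x z
  have hC0 := InnerProductGeometry.angle_nonneg y z
  have hA := InnerProductGeometry.angle_le_pi x y
  have hB := InnerProductGeometry.angle_le_pi x z
  set A := InnerProductGeometry.angle x y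
  set B := InnerProductGeometry.angle x z
  set C := InnerProductGeometry.angle y z
  have h3 : |A - B| ≤ C := by rw [abs_le]; constructor <;> linarith
  have h4 : A ^ 2 - B ^ 2 = (A - B) * (A + B) := by ring
  rw [h4, abs_mul, abs_of_nonneg (show 0 ≤ A + B by linarith)]
  calc |A - B| * (A + B) ≤ C * (2 * Real.pi) := by
        apply mul_le_mul h3 (by linarith) (by linarith) hC0
    _ = _ := by ring

lemma abs_red_sub_le (e : Frame V) (f : Frame W) (a b : ℤ) (p q : WithLp 2 (V × W)) (s : ℝ) :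
    |red e f a b p s - red e f a b q s| ≤ dev p q := by
  unfold red dev
  have h1 := sq_angle_sub_le (e.pt (a * s)) p.fst q.fst
  have h2 := sq_angle_sub_le (f.pt (b * s)) p.snd q.snd
  rw [abs_le] at h1 h2 ⊢
  constructor <;> linarith [h1.1, h1.2, h2.1, h2.2]

lemma eventually_dev {p : WithLp 2 (V × W)} (hp : p ∈ sphereProd V W) {ε : ℝ} (hε : 0 < ε) :
    ∀ᶠ q in 𝓝 p, q ∈ sphereProd V W → dev q p < ε := by
  have c : Continuous fun q : WithLp 2 (V × W) =>
      2 * Real.pi * (Real.arccos ⟪q.fst, p.fst⟫ + Real.arccos ⟪q.snd, p.snd⟫) :=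
    continuous_const.mul ((Real.continuous_arccos.comp
      (continuous_fstVW.inner continuous_const)).add (Real.continuous_arccos.comp
      (continuous_sndVW.inner continuous_const)))
  have h0 : 2 * Real.pi * (Real.arccos ⟪p.fst, p.fst⟫ + Real.arccos ⟪p.snd, p.snd⟫) < ε := by
    rw [real_inner_self_eq_norm_sq, real_inner_self_eq_norm_sq, hp.1, hp.2]
    simpa using hε
  filter_upwards [c.continuousAt.eventually (gt_mem_nhds h0)] with q hq hqS
  unfold dev
  rw [angle_eq_arccos hqS.1 hp.1, angle_eq_arccos hqS.2 hp.2]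
  exact hq

/-- The reduced energy of a point of the torus is a quadratic polynomial near its local minima. -/
lemma red_torus (e : Frame V) (f : Frame W) {a b : ℤ} (ha : a ≠ 0) (hb : b ≠ 0)
    (hab : IsCoprime a b) (α β : ℝ) (k : ℤ)
    (h1 : |(a : ℝ)| * |lam a b α β k| < Real.pi * spd a b)
    (h2 : |(b : ℝ)| * |lam a b α β k| < Real.pi * spd a b) :
    ∃ s₀ δ, 0 < δ ∧ ∀ τ : ℝ, |τ| ≤ δ →
      red e f a b (pairL (e.pt α, f.pt β)) (s₀ + τ) =
        spd a b * τ ^ 2 + lam a b α β k ^ 2 / spd a b := by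
  obtain ⟨u, v, huv⟩ := hab
  have huv' : (u : ℝ) * a + v * b = 1 := by exact_mod_cast huv
  have hs := spd_pos (b := b) ha
  have ha' : 0 < |(a : ℝ)| := by
    have : (a : ℝ) ≠ 0 := by exact_mod_cast ha
    positivity
  have hb' : 0 < |(b : ℝ)| := by
    have : (b : ℝ) ≠ 0 := by exact_mod_cast hb
    positivity
  set c := spd a b with hc
  have hcdef : c = (a : ℝ) ^ 2 + (b : ℝ) ^ 2 := rfl
  set l := lam a b α β k with hl
  have hldef : l = k * (2 * Real.pi) - (b * α - a * β) := rfl
  set α' := α - k * v * (2 * Real.pi) with hα'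
  set β' := β + k * u * (2 * Real.pi) with hβ'
  have hl' : l = a * β' - b * α' := by
    rw [hldef, hα', hβ']
    linear_combination (-(k : ℝ) * (2 * Real.pi)) * huv'
  refine ⟨(a * α' + b * β') / c, min ((Real.pi * c - |(a : ℝ)| * |l|) / (c * |(b : ℝ)|))
    ((Real.pi * c - |(b : ℝ)| * |l|) / (c * |(a : ℝ)|)), ?_, fun τ hτ => ?_⟩
  · apply lt_min
    · apply div_pos (by linarith) (by positivity)
    · apply div_pos (by linarith) (by positivity)
  · have e1 : (a : ℝ) * ((a * α' + b * β') / c + τ) - α' = b * l / c + a * τ := by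
      field_simp
      rw [hl', hcdef]; ring
    have e2 : (b : ℝ) * ((a * α' + b * β') / c + τ) - β' = -(a * l / c) + b * τ := by
      field_simp
      rw [hl', hcdef]; ring
    have t1 : |(b : ℝ)| * |τ| ≤ (Real.pi * c - |(a : ℝ)| * |l|) / c := by
      have := hτ.trans (min_le_left _ _)
      rw [le_div_iff₀ (by positivity)] at this
      rw [le_div_iff₀ hs]
      linarith
    have t2 : |(a : ℝ)| * |τ| ≤ (Real.pi * c - |(b : ℝ)| * |l|) / c := by
      have := hτ.trans (min_le_right _ _)
      rw [le_div_iff₀ (by positivity)] at this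
      rw [le_div_iff₀ hs]
      linarith
    have g1 : |b * l / c + a * τ| ≤ Real.pi := by
      refine (abs_add_le _ _).trans ?_
      rw [abs_div, abs_mul, abs_mul, abs_of_pos hs]
      have : |(b : ℝ)| * |l| / c + (Real.pi * c - |(b : ℝ)| * |l|) / c = Real.pi := by
        field_simp; ring
      linarith
    have g2 : |-(a * l / c) + b * τ| ≤ Real.pi := by
      refine (abs_add_le _ _).trans ?_
      rw [abs_neg, abs_div, abs_mul, abs_mul, abs_of_pos hs]
      have : |(a : ℝ)| * |l| / c + (Real.pi * c - |(a : ℝ)| * |l|) / c = Real.pi := by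
        field_simp; ring
      linarith
    have q1 : (a : ℝ) * ((a * α' + b * β') / c + τ) - α + (k * v : ℤ) * (2 * Real.pi) =
        b * l / c + a * τ := by
      rw [← e1, hα']; push_cast; ring
    have q2 : (b : ℝ) * ((a * α' + b * β') / c + τ) - β + (-(k * u) : ℤ) * (2 * Real.pi) =
        -(a * l / c) + b * τ := by
      rw [← e2, hβ']; push_cast; ring
    unfold red
    rw [pairL_fst, pairL_snd]
    dsimp only
    rw [e.angle_pt_shift (k * v) (by rw [q1]; exact g1),
      f.angle_pt_shift (-(k * u)) (by rw [q2]; exact g2), q1, q2, sq_abs, sq_abs]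
    field_simp
    rw [hcdef]; ring

/-- Persistence of local minima. -/
lemma crit_near (hV : 2 ≤ Module.finrank ℝ V) (hW : 2 ≤ Module.finrank ℝ W)
    (e : Frame V) (f : Frame W) {a b : ℤ} (ha : a ≠ 0) (hb : b ≠ 0)
    (hab : IsCoprime a b) (α β : ℝ) (k : ℤ)
    (h1 : |(a : ℝ)| * |lam a b α β k| < Real.pi * spd a b)
    (h2 : |(b : ℝ)| * |lam a b α β k| < Real.pi * spd a b) {ε : ℝ} (hε : 0 < ε) :
    ∀ᶠ p in 𝓝 (pairL (e.pt α, f.pt β) : WithLp 2 (V × W)), p ∈ sphereProd V W →
      ∃ g, (IsCriticalPoint (pathSpace (sphereProd V W) (torusGeodesic e f a b) p) g ∧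
        index (pathSpace (sphereProd V W) (torusGeodesic e f a b) p) g = 0) ∧
        |energy g - lam a b α β k ^ 2 / spd a b| < ε := by
  obtain ⟨s₀, δ, hδ, hred⟩ := red_torus e f ha hb hab α β k h1 h2
  have hs := spd_pos (b := b) ha
  have hp0 : (pairL (e.pt α, f.pt β) : WithLp 2 (V × W)) ∈ sphereProd V W :=
    ⟨e.norm_pt _, f.norm_pt _⟩
  set q : WithLp 2 (V × W) := pairL (e.pt α, f.pt β) with hq
  set L := lam a b α β k ^ 2 / spd a b with hL
  have hη : 0 < min ε (spd a b * δ ^ 2 / 2) := lt_min hε (by positivity)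
  filter_upwards [eventually_dev hp0 hη] with p hp hpS
  have hdev := hp hpS
  have hd1 : dev p q < ε := hdev.trans_le (min_le_left _ _)
  have hd2 : dev p q < spd a b * δ ^ 2 / 2 := hdev.trans_le (min_le_right _ _)
  have hcl := abs_red_sub_le e f a b p q
  obtain ⟨s, hs1, hs2⟩ := (isCompact_Icc (a := s₀ - δ) (b := s₀ + δ)).exists_isMinOn
    ⟨s₀, by constructor <;> linarith⟩ (continuous_red e f a b hpS).continuousOn
  have r0 : red e f a b q s₀ = L := by
    have := hred 0 (by simpa using hδ.le)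
    rw [add_zero] at this
    rw [this]; ring
  have r1 : ∀ t, |t - s₀| ≤ δ → red e f a b q t = spd a b * (t - s₀) ^ 2 + L := by
    intro t ht
    have := hred (t - s₀) ht
    rwa [add_sub_cancel] at this
  have hm0 : red e f a b p s ≤ red e f a b p s₀ :=
    hs2 (show s₀ ∈ Icc (s₀ - δ) (s₀ + δ) by constructor <;> linarith)
  have a0 := abs_le.mp (hcl s₀)
  have a1 := abs_le.mp (hcl s)
  have hsδ : |s - s₀| ≤ δ := by
    rw [abs_le]; constructor <;> linarith [hs1.1, hs1.2]
  have r2 := r1 s hsδ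
  have hlt : |s - s₀| < δ := by
    refine lt_of_le_of_ne hsδ fun heq => ?_
    have h3 : (s - s₀) ^ 2 = δ ^ 2 := by rw [← sq_abs, heq]
    rw [h3] at r2
    rw [r0] at a0
    rw [r2] at a1
    linarith [a0.1, a0.2, a1.1, a1.2]
  obtain ⟨g, hg, hge⟩ := crit_of_min hV hW e f ha hab hpS (s := s) (δ := δ - |s - s₀|)
    (by linarith) (by
      intro s' hs'
      apply hs2
      have h5 : |s' - s₀| < δ := by
        have := abs_add_le (s' - s) (s - s₀)
        rw [sub_add_sub_cancel] at this
        linarith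
      obtain ⟨h6, h7⟩ := abs_lt.mp h5
      constructor <;> linarith)
  refine ⟨g, hg, ?_⟩
  rw [hge]
  rw [r0] at a0
  have h8 : 0 ≤ spd a b * (s - s₀) ^ 2 := by positivity
  rw [r2] at a1
  rw [abs_lt]
  constructor <;> linarith [a0.1, a0.2, a1.1, a1.2]

/-- The lower bound for the number of critical points of index zero. -/
lemma count_near (hV : 2 ≤ Module.finrank ℝ V) (hW : 2 ≤ Module.finrank ℝ W)
    (e : Frame V) (f : Frame W) {a b : ℤ} (ha : a ≠ 0) (hb : b ≠ 0)
    (hab : IsCoprime a b) (K : Finset ℤ)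
    (hK : ∀ k ∈ K, |a| * |4 * k - 1| < 2 * (a ^ 2 + b ^ 2) ∧
      |b| * |4 * k - 1| < 2 * (a ^ 2 + b ^ 2)) :
    ∀ᶠ p in 𝓝 (pairL (e.pt (Real.pi / (2 * b)), f.pt 0) : WithLp 2 (V × W)),
      p ∈ sphereProd V W → (K.card : ℕ∞) ≤
      {g | IsCriticalPoint (pathSpace (sphereProd V W) (torusGeodesic e f a b) p) g ∧
        index (pathSpace (sphereProd V W) (torusGeodesic e f a b) p) g = 0}.encard := by
  have hs := spd_pos (b := b) ha
  have hπ := Real.pi_pos
  have hb' : (b : ℝ) ≠ 0 := by exact_mod_cast hb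
  have hlam : ∀ k : ℤ, lam a b (Real.pi / (2 * b)) 0 k = (4 * k - 1 : ℤ) * (Real.pi / 2) := by
    intro k
    unfold lam
    push_cast
    field_simp
    ring
  have hev : ∀ k ∈ K, ∀ᶠ p in 𝓝 (pairL (e.pt (Real.pi / (2 * b)), f.pt 0) : WithLp 2 (V × W)),
      p ∈ sphereProd V W →
      ∃ g, (IsCriticalPoint (pathSpace (sphereProd V W) (torusGeodesic e f a b) p) g ∧
        index (pathSpace (sphereProd V W) (torusGeodesic e f a b) p) g = 0) ∧
        |energy g - lam a b (Real.pi / (2 * b)) 0 k ^ 2 / spd a b| <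
          Real.pi ^ 2 / spd a b := by
    intro k hk
    have key : ∀ c : ℤ, |c| * |4 * k - 1| < 2 * (a ^ 2 + b ^ 2) →
        |(c : ℝ)| * |lam a b (Real.pi / (2 * b)) 0 k| < Real.pi * spd a b := by
      intro c hc
      have h1 : (|c| * |4 * k - 1| : ℝ) < 2 * (a ^ 2 + b ^ 2) := by exact_mod_cast hc
      rw [hlam, abs_mul, abs_of_pos (show 0 < Real.pi / 2 by positivity)]
      unfold spd
      have h2 := mul_lt_mul_of_pos_right h1 (show 0 < Real.pi / 2 by positivity)
      push_cast at h2 ⊢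
      linarith
    exact crit_near hV hW e f ha hb hab _ _ k (key a (hK k hk).1) (key b (hK k hk).2)
      (by positivity)
  have hall := (Filter.eventually_all_finset K).mpr hev
  filter_upwards [hall] with p hp hpS
  have hg : ∀ k : K, ∃ g, (IsCriticalPoint
      (pathSpace (sphereProd V W) (torusGeodesic e f a b) p) g ∧
        index (pathSpace (sphereProd V W) (torusGeodesic e f a b) p) g = 0) ∧
        |energy g - lam a b (Real.pi / (2 * b)) 0 k ^ 2 / spd a b| <
          Real.pi ^ 2 / spd a b := fun k => hp k k.2 hpS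
  choose g hg1 hg2 using hg
  have hinj : Function.Injective g := by
    intro k l hkl
    have h1 := hg2 k
    have h2 := hg2 l
    rw [hkl] at h1
    have h3 : |lam a b (Real.pi / (2 * b)) 0 k ^ 2 / spd a b -
        lam a b (Real.pi / (2 * b)) 0 l ^ 2 / spd a b| < 2 * (Real.pi ^ 2 / spd a b) := by
      rw [abs_lt] at h1 h2 ⊢
      constructor <;> linarith [h1.1, h1.2, h2.1, h2.2]
    rw [hlam, hlam, ← sub_div, abs_div, abs_of_pos hs, div_lt_iff₀ hs,
      show 2 * (Real.pi ^ 2 / spd a b) * spd a b = 2 * Real.pi ^ 2 by field_simp] at h3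
    have h4 : (((4 * (k : ℤ) - 1 : ℤ) : ℝ) * (Real.pi / 2)) ^ 2 -
        (((4 * (l : ℤ) - 1 : ℤ) : ℝ) * (Real.pi / 2)) ^ 2 =
        (((4 * (k : ℤ) - 1) ^ 2 - (4 * (l : ℤ) - 1) ^ 2 : ℤ) : ℝ) * (Real.pi ^ 2 / 4) := by
      push_cast; ring
    rw [h4, abs_mul, abs_of_pos (show 0 < Real.pi ^ 2 / 4 by positivity)] at h3
    have h5 : |(((4 * (k : ℤ) - 1) ^ 2 - (4 * (l : ℤ) - 1) ^ 2 : ℤ) : ℝ)| < 8 := by
      by_contra hcon
      push Not at hcon
      nlinarith [sq_nonneg Real.pi, show 0 < Real.pi ^ 2 by positivity]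
    have h6 : |(4 * (k : ℤ) - 1) ^ 2 - (4 * (l : ℤ) - 1) ^ 2| < 8 := by exact_mod_cast h5
    have h7 : (4 * (k : ℤ) - 1) ^ 2 - (4 * (l : ℤ) - 1) ^ 2 =
        8 * (((k : ℤ) - l) * (2 * (k + l) - 1)) := by ring
    rw [h7, abs_mul] at h6
    have h8 : |((k : ℤ) - l) * (2 * (k + l) - 1)| < 1 := by
      have : |(8 : ℤ)| = 8 := rfl
      rw [this] at h6
      omega
    have h9 := Int.abs_lt_one_iff.mp h8
    rcases mul_eq_zero.mp h9 with h | h
    · exact Subtype.ext (by omega)
    · omega
  have hsub : range g ⊆ {g | IsCriticalPoint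
      (pathSpace (sphereProd V W) (torusGeodesic e f a b) p) g ∧
        index (pathSpace (sphereProd V W) (torusGeodesic e f a b) p) g = 0} := by
    rintro _ ⟨k, rfl⟩
    exact hg1 k
  refine le_trans ?_ (encard_le_encard hsub)
  rw [← image_univ, hinj.encard_image, encard_univ]
  simp

end Pool.Agent.KS6_39.TT
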