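import Pool.Agent.KS6_39.TT.Base

open CategoryTheory CategoryTheory.Limits AlgebraicTopology Topology

noncomputable section

namespace Pool.Agent.KS6_39.TT

lemma betti_zero (F : Type) [Field F] (X : Type) [TopologicalSpace X] [PathConnectedSpace X] :
    betti F X 0 = 1 := by
  have h : IsIso ((TopCat.of X).singularHomology₀ε (ModuleCat.of F F)) :=
    have : PathConnectedSpace (TopCat.of X) := ‹PathConnectedSpace X›
    inferInstance
  have e := (asIso ((TopCat.of X).singularHomology₀ε (ModuleCat.of F F))).toLinearEquiv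
  unfold betti
  rw [e.rank_eq]
  simp

lemma isZero_homology (F : Type) [Field F] (X : Type) [TopologicalSpace X] [ContractibleSpace X]
    (k : ℕ) (hk : k ≠ 0) :
    IsZero (((singularHomologyFunctor (ModuleCat.{0} F) k).obj (ModuleCat.of F F)).obj
      (TopCat.of X)) := by
  obtain ⟨x0, ⟨H⟩⟩ := id_nullhomotopic X
  let f : TopCat.of X ⟶ TopCat.of PUnit.{1} := TopCat.ofHom (ContinuousMap.const X PUnit.unit)
  let g : TopCat.of PUnit.{1} ⟶ TopCat.of X := TopCat.ofHom (ContinuousMap.const PUnit x0)
  have hfg : f ≫ g = TopCat.ofHom (ContinuousMap.const X x0) := rfl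
  have H' : TopCat.Homotopy (𝟙 (TopCat.of X)) (f ≫ g) := H
  have h1 := H'.congr_homologyMap_singularChainComplexFunctor
    (ModuleCat.of F F) k
  have hz : IsZero (((singularHomologyFunctor (ModuleCat.{0} F) k).obj (ModuleCat.of F F)).obj
      (TopCat.of PUnit.{1})) := by
    have : TotallyDisconnectedSpace (TopCat.of PUnit.{1}) :=
      inferInstanceAs (TotallyDisconnectedSpace PUnit.{1})
    exact isZero_singularHomologyFunctor_of_totallyDisconnectedSpace _ k _ _ hk
  rw [IsZero.iff_id_eq_zero]
  have h2 : ((singularHomologyFunctor (ModuleCat.{0} F) k).obj (ModuleCat.of F F)).map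
      (𝟙 (TopCat.of X)) = ((singularHomologyFunctor (ModuleCat.{0} F) k).obj
      (ModuleCat.of F F)).map (f ≫ g) := h1
  rw [← CategoryTheory.Functor.map_id, h2, CategoryTheory.Functor.map_comp]
  rw [hz.eq_zero_of_tgt (((singularHomologyFunctor (ModuleCat.{0} F) k).obj
      (ModuleCat.of F F)).map f), zero_comp]

lemma betti_pos (F : Type) [Field F] (X : Type) [TopologicalSpace X] [ContractibleSpace X]
    (k : ℕ) (hk : k ≠ 0) : betti F X k = 0 := by
  have h := isZero_homology F X k hk
  have : Subsingleton (((singularHomologyFunctor (ModuleCat.{0} F) k).obj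
    (ModuleCat.of F F)).obj (TopCat.of X)) := ModuleCat.subsingleton_of_isZero h
  unfold betti
  rw [rank_subsingleton']
  simp

/-- The homology of a space with a homotopy equivalence to the integers. -/
lemma map_of_homotopic (F : Type) [Field F] {X : Type} [TopologicalSpace X] (k : ℕ)
    (f : C(X, ℤ)) (g : C(ℤ, X)) (H : (ContinuousMap.id X).Homotopic (g.comp f)) :
    ((singularHomologyFunctor (ModuleCat.{0} F) k).obj (ModuleCat.of F F)).map (TopCat.ofHom f) ≫
    ((singularHomologyFunctor (ModuleCat.{0} F) k).obj (ModuleCat.of F F)).map (TopCat.ofHom g) =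
      𝟙 (((singularHomologyFunctor (ModuleCat.{0} F) k).obj (ModuleCat.of F F)).obj
        (TopCat.of X)) := by
  obtain ⟨H⟩ := H
  have H' : TopCat.Homotopy (𝟙 (TopCat.of X)) (TopCat.ofHom f ≫ TopCat.ofHom g) := H
  have h1 := H'.congr_homologyMap_singularChainComplexFunctor (ModuleCat.of F F) k
  have h2 : ((singularHomologyFunctor (ModuleCat.{0} F) k).obj (ModuleCat.of F F)).map
      (𝟙 (TopCat.of X)) = ((singularHomologyFunctor (ModuleCat.{0} F) k).obj
      (ModuleCat.of F F)).map (TopCat.ofHom f ≫ TopCat.ofHom g) := h1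
  rw [← CategoryTheory.Functor.map_comp, ← h2, CategoryTheory.Functor.map_id]

lemma betti_pos_of_int (F : Type) [Field F] {X : Type} [TopologicalSpace X] (k : ℕ) (hk : k ≠ 0)
    (f : C(X, ℤ)) (g : C(ℤ, X)) (H : (ContinuousMap.id X).Homotopic (g.comp f)) :
    betti F X k = 0 := by
  have h0 := map_of_homotopic F k f g H
  have hz : IsZero (((singularHomologyFunctor (ModuleCat.{0} F) k).obj (ModuleCat.of F F)).obj
      (TopCat.of ℤ)) := by
    have : TotallyDisconnectedSpace (TopCat.of ℤ) :=
      inferInstanceAs (TotallyDisconnectedSpace ℤ)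
    exact isZero_singularHomologyFunctor_of_totallyDisconnectedSpace _ k _ _ hk
  have h : IsZero (((singularHomologyFunctor (ModuleCat.{0} F) k).obj (ModuleCat.of F F)).obj
      (TopCat.of X)) := by
    rw [IsZero.iff_id_eq_zero, ← h0]
    rw [hz.eq_zero_of_tgt (((singularHomologyFunctor (ModuleCat.{0} F) k).obj
      (ModuleCat.of F F)).map (TopCat.ofHom f)), zero_comp]
  have : Subsingleton (((singularHomologyFunctor (ModuleCat.{0} F) k).obj
    (ModuleCat.of F F)).obj (TopCat.of X)) := ModuleCat.subsingleton_of_isZero h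
  unfold betti
  rw [rank_subsingleton']
  simp

lemma betti_zero_of_int (F : Type) [Field F] {X : Type} [TopologicalSpace X]
    (f : C(X, ℤ)) (g : C(ℤ, X)) (H : (ContinuousMap.id X).Homotopic (g.comp f))
    (hfg : f.comp g = ContinuousMap.id ℤ) : betti F X 0 = ⊤ := by
  have h0 := map_of_homotopic F 0 f g H
  have h1 : ((singularHomologyFunctor (ModuleCat.{0} F) 0).obj (ModuleCat.of F F)).map
      (TopCat.ofHom g) ≫
      ((singularHomologyFunctor (ModuleCat.{0} F) 0).obj (ModuleCat.of F F)).map
      (TopCat.ofHom f) = 𝟙 (((singularHomologyFunctor (ModuleCat.{0} F) 0).obj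
        (ModuleCat.of F F)).obj (TopCat.of ℤ)) := by
    rw [← CategoryTheory.Functor.map_comp, ← TopCat.ofHom_comp, hfg, TopCat.ofHom_id,
      CategoryTheory.Functor.map_id]
  let e : (((singularHomologyFunctor (ModuleCat.{0} F) 0).obj (ModuleCat.of F F)).obj
      (TopCat.of X)) ≅ (((singularHomologyFunctor (ModuleCat.{0} F) 0).obj
      (ModuleCat.of F F)).obj (TopCat.of ℤ)) := ⟨_, _, h0, h1⟩
  have : TotallyDisconnectedSpace (TopCat.of ℤ) :=
      inferInstanceAs (TotallyDisconnectedSpace ℤ)
  let e2 := e ≪≫ singularHomologyFunctorZeroOfTotallyDisconnectedSpace (ModuleCat.{0} F)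
    (ModuleCat.of F F) (TopCat.of ℤ) ≪≫ ModuleCat.coprodIsoDirectSum _
  unfold betti
  rw [e2.toLinearEquiv.rank_eq]
  have h2 : Module.rank F (DirectSum (TopCat.of ℤ) fun _ => (ModuleCat.of F F : Type)) =
      Cardinal.sum fun _ : TopCat.of ℤ => (1 : Cardinal.{0}) := by
    have h3 := rank_directSum (R := F) (fun _ : TopCat.of ℤ => (ModuleCat.of F F : Type))
    rw [h3]
    congr 1
    funext i
    exact Module.rank_self F
  have h4 : Cardinal.sum (fun _ : TopCat.of ℤ => (1 : Cardinal.{0})) = Cardinal.aleph0 := by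
    rw [Cardinal.sum_const', mul_one]
    exact Cardinal.mk_eq_aleph0 ℤ
  rw [Cardinal.toENat_eq_top]
  refine le_of_eq ?_
  rw [← h4, ← h2]

end Pool.Agent.KS6_39.TT
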