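import Pool.Agent.KS6_39.TT.Sphere
import Pool.Agent.KS6_39.TT.Homology

open MeasureTheory Set Filter Topology
open scoped ENNReal NNReal RealInnerProductSpace ContDiff

set_option linter.unusedSectionVars false

noncomputable section

namespace Pool.Agent.KS6_39.TT

variable {E : Type} [NormedAddCommGroup E] [InnerProductSpace ℝ E] [FiniteDimensional ℝ E]

/-! ### Local minima -/

lemma energy_eq (g : L2 E) : energy g = ‖g‖ ^ 2 := by
  unfold energy
  rw [← real_inner_self_eq_norm_sq, L2.inner_def]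
  simp only [real_inner_self_eq_norm_sq]

lemma contDiff_energy : ContDiff ℝ ∞ (energy : L2 E → ℝ) := by
  have : (energy : L2 E → ℝ) = fun g => ‖g‖ ^ 2 := funext energy_eq
  rw [this]
  exact contDiff_id.norm_sq ℝ

lemma isCriticalPoint_of_min {X : Set (L2 E)} {g : L2 E} (hg : g ∈ X)
    (hmin : ∀ᶠ h in 𝓝 g, h ∈ X → energy g ≤ energy h) : IsCriticalPoint X g := by
  refine ⟨hg, fun c v hc h0 hv => ?_⟩
  have h1 : HasDerivAt (fun s => energy (c s)) (fderiv ℝ energy (c 0) v) 0 :=
    ((contDiff_energy.differentiable (by simp)) (c 0)).hasFDerivAt.comp_hasDerivAt 0 hv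
  have hloc : IsLocalMin (fun s => energy (c s)) 0 := by
    have h2 : ∀ᶠ s in 𝓝 (0 : ℝ), c s ∈ X → energy g ≤ energy (c s) := by
      have := hv.continuousAt
      rw [ContinuousAt, h0] at this
      exact this.eventually hmin
    filter_upwards [h2] with s hs
    rw [h0]
    exact hs (hc s)
  have h3 := hloc.hasDerivAt_eq_zero h1
  rwa [h3] at h1

lemma not_isNegative_of_min {X : Set (L2 E)} {g : L2 E}
    (hmin : ∀ᶠ h in 𝓝 g, h ∈ X → energy g ≤ energy h) (w : L2 E) : ¬ IsNegative X g w := by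
  rintro ⟨c, hc, hX, h0, -, hneg⟩
  set f : ℝ → ℝ := fun s => energy (c s) with hf
  have hfc : ContDiff ℝ ∞ f := contDiff_energy.comp hc
  have h2 : ∀ᶠ s in 𝓝 (0 : ℝ), f 0 ≤ f s := by
    have h3 : ContinuousAt c 0 := hc.continuous.continuousAt
    rw [ContinuousAt, h0] at h3
    filter_upwards [h3.eventually hmin] with s hs
    simp only [hf, h0]
    exact hs (hX s)
  have hloc : IsLocalMin f 0 := h2
  have hmax : IsLocalMax f 0 :=
    isLocalMax_of_deriv_deriv_neg hneg hloc.deriv_eq_zero hfc.continuous.continuousAt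
  have heq : f =ᶠ[𝓝 0] fun _ => f 0 := by
    filter_upwards [h2, hmax] with s h4 h5
    exact le_antisymm h5 h4
  have h6 : deriv f =ᶠ[𝓝 0] deriv (fun _ => f 0) := heq.deriv
  have h7 := h6.deriv_eq
  rw [h7] at hneg
  simp at hneg

lemma index_of_min {X : Set (L2 E)} {g : L2 E}
    (hmin : ∀ᶠ h in 𝓝 g, h ∈ X → energy g ≤ energy h) : index X g = 0 := by
  unfold index
  rw [ENat.iSup_eq_zero]
  rintro ⟨W, hW⟩
  have : W = ⊥ := by
    rw [Submodule.eq_bot_iff]
    intro w hw
    by_contra hne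
    exact not_isNegative_of_min hmin w (hW w hw hne)
  subst this
  simp

end Pool.Agent.KS6_39.TT
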