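import Pool.Agent.KS6_39.TT.Sard

open MeasureTheory Set Filter Topology
open scoped ENNReal NNReal RealInnerProductSpace ContDiff

set_option linter.unusedSectionVars false

noncomputable section

namespace Pool.Agent.KS6_39.TT

variable {V W : Type} [NormedAddCommGroup V] [InnerProductSpace ℝ V] [FiniteDimensional ℝ V]
  [NormedAddCommGroup W] [InnerProductSpace ℝ W] [FiniteDimensional ℝ W]

lemma sphereProd_eq : sphereProd V W =
    (pairL : V × W →L[ℝ] WithLp 2 (V × W)) '' (Metric.sphere 0 1 ×ˢ Metric.sphere 0 1) := by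
  ext x
  constructor
  · rintro ⟨h1, h2⟩
    exact ⟨(x.fst, x.snd), ⟨by simpa using h1, by simpa using h2⟩, pairL_eq x⟩
  · rintro ⟨⟨a, b⟩, ⟨h1, h2⟩, rfl⟩
    exact ⟨by simpa using h1, by simpa using h2⟩

lemma isCompact_sphereProd : IsCompact (sphereProd V W) := by
  rw [sphereProd_eq]
  exact ((isCompact_sphere _ _).prod (isCompact_sphere _ _)).image pairL.continuous

lemma isConnected_sphereProd (hV : 3 ≤ Module.finrank ℝ V) (hW : 3 ≤ Module.finrank ℝ W) :
    IsConnected (sphereProd V W) := by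
  have hs : IsConnected (Metric.sphere (0 : V) 1) := isConnected_sphere
    (by exact_mod_cast Module.lt_rank_of_lt_finrank (show 1 < Module.finrank ℝ V by omega)) _
      zero_le_one
  have hs' : IsConnected (Metric.sphere (0 : W) 1) := isConnected_sphere
    (by exact_mod_cast Module.lt_rank_of_lt_finrank (show 1 < Module.finrank ℝ W by omega)) _
      zero_le_one
  rw [sphereProd_eq]
  exact (hs.prod hs').image _ pairL.continuous.continuousOn

variable (e : Frame V) (f : Frame W) (a b : ℤ)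

lemma flatTorus_subset : flatTorus e f ⊆ sphereProd V W := by
  rintro _ ⟨z, rfl⟩
  exact ⟨e.norm_pt _, f.norm_pt _⟩

lemma isCompact_flatTorus : IsCompact (flatTorus e f) := by
  refine isCompact_sphereProd.of_isClosed_subset ?_ (flatTorus_subset e f)
  have h : flatTorus e f = {x | x.fst ∈ e.circle} ∩ {x | x.snd ∈ f.circle} := by
    ext x; rw [mem_flatTorus]; rfl
  rw [h]
  exact (e.isClosed_circle.preimage continuous_fstVW).inter
    (f.isClosed_circle.preimage continuous_sndVW)

lemma isConnected_flatTorus : IsConnected (flatTorus e f) := by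
  apply isConnected_range
  exact (pairL : V × W →L[ℝ] WithLp 2 (V × W)).continuous.comp
    ((e.continuous_pt.comp continuous_fst).prodMk (f.continuous_pt.comp continuous_snd))

lemma continuous_mm : Continuous (mm e f a b) := by
  unfold mm
  exact (pairL : V × W →L[ℝ] WithLp 2 (V × W)).continuous.comp
    ((e.continuous_pt.comp (by fun_prop)).prodMk (f.continuous_pt.comp (by fun_prop)))

lemma isConnected_torusGeodesic : IsConnected (torusGeodesic e f a b) :=
  isConnected_range (continuous_mm e f a b)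

lemma isCompact_torusGeodesic : IsCompact (torusGeodesic e f a b) := by
  have hp : Function.Periodic (mm e f a b) (2 * Real.pi) := by
    intro θ
    unfold mm
    rw [pairL_inj, Prod.mk.injEq, Frame.pt_eq_iff, Frame.pt_eq_iff]
    exact ⟨⟨a, by ring⟩, ⟨b, by ring⟩⟩
  exact hp.compact_of_continuous (by positivity) (continuous_mm e f a b)

/-! ### Symmetry -/

/-- The product of two linear isometries. -/
def prodIso (e : V ≃ₗᵢ[ℝ] V) (f : W ≃ₗᵢ[ℝ] W) : WithLp 2 (V × W) ≃ₗᵢ[ℝ] WithLp 2 (V × W) where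
  toLinearEquiv :=
    { toFun := fun x => pairL (e x.fst, f x.snd)
      invFun := fun x => pairL (e.symm x.fst, f.symm x.snd)
      map_add' := by
        intro x y
        rw [← map_add, Prod.mk_add_mk, ← map_add, ← map_add]; rfl
      map_smul' := by
        intro c x
        rw [RingHom.id_apply, ← map_smul, Prod.smul_mk, ← map_smul, ← map_smul]; rfl
      left_inv := by
        intro x
        simp only [pairL_fst, pairL_snd, LinearIsometryEquiv.symm_apply_apply]
        exact pairL_eq x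
      right_inv := by
        intro x
        simp only [pairL_fst, pairL_snd, LinearIsometryEquiv.apply_symm_apply]
        exact pairL_eq x }
  norm_map' := by
    intro x
    have h : ‖(pairL (e x.fst, f x.snd) : WithLp 2 (V × W))‖ ^ 2 = ‖x‖ ^ 2 := by
      rw [WithLp.prod_norm_sq_eq_of_L2, WithLp.prod_norm_sq_eq_of_L2, pairL_fst, pairL_snd]
      dsimp only
      rw [e.norm_map, f.norm_map]
    exact (sq_eq_sq₀ (norm_nonneg _) (norm_nonneg _)).mp h

lemma prodIso_apply (e : V ≃ₗᵢ[ℝ] V) (f : W ≃ₗᵢ[ℝ] W) (x : WithLp 2 (V × W)) :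
    prodIso e f x = pairL (e x.fst, f x.snd) := rfl

lemma isSymmetric_sphereProd : IsSymmetric (sphereProd V W) := by
  intro x hx
  have hr : ∀ {U : Type} [NormedAddCommGroup U] [InnerProductSpace ℝ U] [FiniteDimensional ℝ U]
      (y v : U), ⟪y, v⟫ = 0 → (ℝ ∙ y).reflection v = -v := by
    intro U _ _ _ y v hv
    apply Submodule.reflection_mem_subspace_orthogonalComplement_eq_neg
    rw [Submodule.mem_orthogonal_singleton_iff_inner_right]
    exact hv
  have hr' : ∀ {U : Type} [NormedAddCommGroup U] [InnerProductSpace ℝ U] [FiniteDimensional ℝ U]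
      (y : U), (ℝ ∙ y).reflection y = y := fun y =>
    Submodule.reflection_mem_subspace_eq_self (Submodule.mem_span_singleton_self y)
  refine ⟨prodIso (ℝ ∙ x.fst).reflection (ℝ ∙ x.snd).reflection, ?_, ?_, ?_⟩
  · have hsub : ∀ y ∈ sphereProd V W, prodIso (ℝ ∙ x.fst).reflection (ℝ ∙ x.snd).reflection y ∈
        sphereProd V W := by
      intro y hy
      rw [prodIso_apply]
      refine ⟨?_, ?_⟩
      · rw [pairL_fst]; dsimp only; rw [LinearIsometryEquiv.norm_map]; exact hy.1
      · rw [pairL_snd]; dsimp only; rw [LinearIsometryEquiv.norm_map]; exact hy.2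
    apply subset_antisymm
    · rintro _ ⟨y, hy, rfl⟩
      exact hsub y hy
    · intro y hy
      refine ⟨_, hsub y hy, ?_⟩
      rw [prodIso_apply, prodIso_apply, pairL_fst, pairL_snd]
      dsimp only
      rw [Submodule.reflection_reflection, Submodule.reflection_reflection]
      exact pairL_eq y
  · rw [prodIso_apply, hr', hr']
    exact pairL_eq x
  · intro v hv
    obtain ⟨h1, h2⟩ := (tangent_sphereProd hx v).mp hv
    rw [prodIso_apply, hr _ _ h1, hr _ _ h2]
    have : (-v.fst, -v.snd) = -(v.fst, v.snd) := rfl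
    rw [this, map_neg, pairL_eq]

/-! ### Totally geodesic submanifolds -/

lemma circle_accel {e : Frame V} {c : ℝ → V} (hc : ContDiff ℝ ∞ c) (hT : ∀ t, c t ∈ e.circle)
    (t : ℝ) : e.pr (deriv c t) = deriv c t ∧ e.pr (deriv (deriv c) t) = deriv (deriv c) t := by
  have hc' : ContDiff ℝ ∞ (deriv c) := ((contDiff_infty_iff_deriv).mp hc).2
  have hd : ∀ t, HasDerivAt c (deriv c t) t := fun t =>
    ((hc.differentiable (by simp)) t).hasDerivAt
  have hd' : ∀ t, HasDerivAt (deriv c) (deriv (deriv c) t) t := fun t =>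
    ((hc'.differentiable (by simp)) t).hasDerivAt
  have z1 : ∀ t, e.pr (deriv c t) = deriv c t := by
    intro t
    have h3 : HasDerivAt (fun s => e.pr (c s)) (e.pr (deriv c t)) t :=
      e.pr.hasFDerivAt.comp_hasDerivAt t (hd t)
    have h4 : (fun s => e.pr (c s)) = c := funext fun s => (hT s).2
    rw [h4] at h3
    exact h3.unique (hd t)
  refine ⟨z1 t, ?_⟩
  have h3 : HasDerivAt (fun s => e.pr (deriv c s)) (e.pr (deriv (deriv c) t)) t :=
    e.pr.hasFDerivAt.comp_hasDerivAt t (hd' t)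
  have h4 : (fun s => e.pr (deriv c s)) = deriv c := funext fun s => z1 s
  rw [h4] at h3
  exact h3.unique (hd' t)

lemma derivs_fst {c : ℝ → WithLp 2 (V × W)} (hc : ContDiff ℝ ∞ c) :
    ContDiff ℝ ∞ (fun t => (c t).fst) ∧ (deriv (fun t => (c t).fst) = fun t => (deriv c t).fst) ∧
    deriv (deriv (fun t => (c t).fst)) = fun t => (deriv (deriv c) t).fst := by
  have hc' : ContDiff ℝ ∞ (deriv c) := ((contDiff_infty_iff_deriv).mp hc).2
  have e1 : deriv (fun t => (c t).fst) = fun t => (deriv c t).fst := funext fun t =>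
    (hasDerivAt_fst ((hc.differentiable (by simp)) t).hasDerivAt).deriv
  refine ⟨(WithLp.fstL 2 ℝ V W).contDiff.comp hc, e1, ?_⟩
  rw [e1]
  exact funext fun t => (hasDerivAt_fst ((hc'.differentiable (by simp)) t).hasDerivAt).deriv

lemma derivs_snd {c : ℝ → WithLp 2 (V × W)} (hc : ContDiff ℝ ∞ c) :
    ContDiff ℝ ∞ (fun t => (c t).snd) ∧ (deriv (fun t => (c t).snd) = fun t => (deriv c t).snd) ∧
    deriv (deriv (fun t => (c t).snd)) = fun t => (deriv (deriv c) t).snd := by
  have hc' : ContDiff ℝ ∞ (deriv c) := ((contDiff_infty_iff_deriv).mp hc).2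
  have e1 : deriv (fun t => (c t).snd) = fun t => (deriv c t).snd := funext fun t =>
    (hasDerivAt_snd ((hc.differentiable (by simp)) t).hasDerivAt).deriv
  refine ⟨(WithLp.sndL 2 ℝ V W).contDiff.comp hc, e1, ?_⟩
  rw [e1]
  exact funext fun t => (hasDerivAt_snd ((hc'.differentiable (by simp)) t).hasDerivAt).deriv

lemma geod_aux {e : Frame V} {f : Frame W} {c : ℝ → WithLp 2 (V × W)} (hc : ContDiff ℝ ∞ c)
    (hT : ∀ t, c t ∈ flatTorus e f)
    (h1 : ∀ t, ⟪(deriv (deriv c) t).fst, e.J (c t).fst⟫ = 0)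
    (h2 : ∀ t, ⟪(deriv (deriv c) t).snd, f.J (c t).snd⟫ = 0) :
    IsGeodesic (sphereProd V W) c := by
  refine ⟨hc, fun t => flatTorus_subset e f (hT t), fun t v hv => ?_⟩
  obtain ⟨hv1, hv2⟩ := (tangent_sphereProd (flatTorus_subset e f (hT t)) v).mp hv
  have hT' := fun t => mem_flatTorus.mp (hT t)
  obtain ⟨c1, -, d1⟩ := derivs_fst hc
  obtain ⟨c2, -, d2⟩ := derivs_snd hc
  have z2 := (circle_accel c1 (fun t => (hT' t).1) t).2
  have y2 := (circle_accel c2 (fun t => (hT' t).2) t).2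
  rw [d1] at z2
  rw [d2] at y2
  have e1 := e.decomp (hT' t).1 (deriv (deriv c) t).fst
  have e2 := f.decomp (hT' t).2 (deriv (deriv c) t).snd
  rw [h1 t, z2, zero_smul, sub_self, add_zero, add_zero] at e1
  rw [h2 t, y2, zero_smul, sub_self, add_zero, add_zero] at e2
  rw [innerVW, e1, e2, inner_smul_left, inner_smul_left, hv1, hv2]
  simp

/-- The rotation curve. -/
lemma rot_mem_circle {x : V} (hx : x ∈ e.circle) (s : ℝ) : ell x (e.J x) s ∈ e.circle := by
  obtain ⟨θ, rfl⟩ := e.exists_pt hx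
  rw [Frame.ell_pt]
  exact e.pt_mem _

lemma hasDerivAt_rot (x : V) : HasDerivAt (fun s : ℝ => ell x (e.J x) s) (e.J x) 0 := by
  have h := hasDerivAt_ell x (e.J x) 0
  simpa using h

lemma ell_zero (x y : V) : ell x y 0 = x := by simp [ell]

lemma isTotallyGeodesic_flatTorus : IsTotallyGeodesic (flatTorus e f) (sphereProd V W) := by
  refine ⟨flatTorus_subset e f, fun c hc => ?_⟩
  obtain ⟨h1, h2, h3⟩ := hc
  have h2' := fun t => mem_flatTorus.mp (h2 t)
  refine geod_aux h1 h2 (fun t => ?_) (fun t => ?_)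
  · have h4 := h3 t (pairL (e.J (c t).fst, 0)) ⟨fun s => pairL (ell (c t).fst (e.J (c t).fst) s,
      (c t).snd), fun s => mem_flatTorus.mpr ⟨rot_mem_circle e (h2' t).1 s, (h2' t).2⟩, by
        dsimp only; rw [ell_zero]; exact pairL_eq _,
        hasDerivAt_pair (hasDerivAt_rot e _) (hasDerivAt_const _ _)⟩
    rw [innerVW, pairL_fst, pairL_snd] at h4
    simpa only [inner_zero_right, add_zero] using h4
  · have h4 := h3 t (pairL (0, f.J (c t).snd)) ⟨fun s => pairL ((c t).fst,
      ell (c t).snd (f.J (c t).snd) s), fun s => mem_flatTorus.mpr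
        ⟨(h2' t).1, rot_mem_circle f (h2' t).2 s⟩, by
        dsimp only; rw [ell_zero]; exact pairL_eq _,
        hasDerivAt_pair (hasDerivAt_const _ _) (hasDerivAt_rot f _)⟩
    rw [innerVW, pairL_fst, pairL_snd] at h4
    simpa only [inner_zero_right, zero_add] using h4

lemma hasDerivAt_mm (θ : ℝ) : HasDerivAt (mm e f a b)
    (pairL ((a : ℝ) • e.J (e.pt (a * θ)), (b : ℝ) • f.J (f.pt (b * θ)))) θ := by
  unfold mm
  have h : ∀ c : ℤ, HasDerivAt (fun s : ℝ => (c : ℝ) * s) (c : ℝ) θ := by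
    intro c
    have := (hasDerivAt_id θ).const_mul (c : ℝ)
    rwa [mul_one] at this
  have h1 : HasDerivAt (fun s : ℝ => e.pt (a * s)) ((a : ℝ) • e.J (e.pt (a * θ))) θ :=
    HasDerivAt.scomp θ (e.hasDerivAt_pt (a * θ)) (h a)
  have h1' : HasDerivAt (fun s : ℝ => f.pt (b * s)) ((b : ℝ) • f.J (f.pt (b * θ))) θ :=
    HasDerivAt.scomp θ (f.hasDerivAt_pt (b * θ)) (h b)
  exact hasDerivAt_pair h1 h1'

/-- The velocity of a curve in the closed geodesic. -/
lemma velocity_geodesic {e : Frame V} {f : Frame W} {a b : ℤ} (ha : a ≠ 0)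
    (hab : IsCoprime a b) {c : ℝ → WithLp 2 (V × W)} {v : WithLp 2 (V × W)} {t : ℝ}
    (hM : ∀ t, c t ∈ torusGeodesic e f a b) (hc : HasDerivAt c v t) :
    ∃ r₀ : ℝ, v = pairL ((r₀ * a) • e.J (c t).fst, (r₀ * b) • f.J (c t).snd) := by
  obtain ⟨θ₀, hθ₀'⟩ := hM t
  have hθ₀ : mm e f a b θ₀ = c t := hθ₀'
  set θ : ℝ → ℝ := fun s => chart e a θ₀ (c s) with hθ
  have hev : ∀ᶠ s in 𝓝 t, c s = mm e f a b (θ s) := by
    have ht : Tendsto c (𝓝 t) (𝓝 (mm e f a b θ₀)) := by
      have := hc.continuousAt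
      rwa [ContinuousAt, ← hθ₀] at this
    filter_upwards [ht.eventually (chart_spec e f ha hab θ₀)] with s hs
    exact hs (hM s)
  have hθd : DifferentiableAt ℝ θ t := by
    simp only [hθ]
    unfold chart
    have h3 : DifferentiableAt ℝ (fun s => ⟪(c s).fst, e.J (e.pt (a * θ₀))⟫) t :=
      (hasDerivAt_fst hc).differentiableAt.inner ℝ (differentiableAt_const _)
    have h4 : ⟪(c t).fst, e.J (e.pt (a * θ₀))⟫ = 0 := by
      rw [← hθ₀]
      change ⟪e.pt (a * θ₀), e.J (e.pt (a * θ₀))⟫ = 0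
      rw [Frame.inner_pt_J]; simp
    have h5 : DifferentiableAt ℝ Real.arcsin ⟪(c t).fst, e.J (e.pt (a * θ₀))⟫ := by
      rw [h4]
      exact Real.differentiableAt_arcsin.mpr ⟨by norm_num, by norm_num⟩
    have h6 := DifferentiableAt.comp (g := Real.arcsin)
      (f := fun s => ⟪(c s).fst, e.J (e.pt (a * θ₀))⟫) t h5 h3
    exact (h6.div_const (a : ℝ)).const_add θ₀
  have hθt : θ t = θ₀ := by
    simp only [hθ]
    rw [← hθ₀, chart_self]
  have k1 := HasDerivAt.scomp t (hasDerivAt_mm e f a b (θ t)) hθd.hasDerivAt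
  have k2 : HasDerivAt c _ t := k1.congr_of_eventuallyEq hev
  refine ⟨deriv θ t, ?_⟩
  rw [hc.unique k2, ← hθ₀, hθt, ← map_smul, Prod.smul_mk, smul_smul, smul_smul]
  rfl

lemma isTotallyGeodesic_torusGeodesic {a b : ℤ} (ha : a ≠ 0) (hab : IsCoprime a b) :
    IsTotallyGeodesic (torusGeodesic e f a b) (sphereProd V W) := by
  refine ⟨(torusGeodesic_subset e f a b).trans (flatTorus_subset e f), fun c hc => ?_⟩
  obtain ⟨h1, h2, h3⟩ := hc
  have hs := spd_pos (b := b) ha
  have ha' : (a : ℝ) ≠ 0 := by exact_mod_cast ha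
  have h2' := fun t => mem_flatTorus.mp (torusGeodesic_subset e f a b (h2 t))
  have hc' : ContDiff ℝ ∞ (deriv c) := ((contDiff_infty_iff_deriv).mp h1).2
  have hd : ∀ t, HasDerivAt c (deriv c t) t := fun t =>
    ((h1.differentiable (by simp)) t).hasDerivAt
  have hd' : ∀ t, HasDerivAt (deriv c) (deriv (deriv c) t) t := fun t =>
    ((hc'.differentiable (by simp)) t).hasDerivAt
  -- proportional angular velocities
  have hvel : ∀ t, b * ⟪(deriv c t).fst, e.J (c t).fst⟫ = a * ⟪(deriv c t).snd, f.J (c t).snd⟫ := by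
    intro t
    obtain ⟨r₀, hr₀⟩ := velocity_geodesic ha hab h2 (hd t)
    have k1 : (deriv c t).fst = (r₀ * a) • e.J (c t).fst := by rw [hr₀]; rfl
    have k2 : (deriv c t).snd = (r₀ * b) • f.J (c t).snd := by rw [hr₀]; rfl
    obtain ⟨θ, hθ⟩ := e.exists_pt (h2' t).1
    obtain ⟨φ, hφ⟩ := f.exists_pt (h2' t).2
    rw [k1, k2, inner_smul_left, inner_smul_left, hθ, hφ, Frame.inner_J_J_pt,
      Frame.inner_J_J_pt]
    simp; ring
  have hacc : ∀ t, b * ⟪(deriv (deriv c) t).fst, e.J (c t).fst⟫ =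
      a * ⟪(deriv (deriv c) t).snd, f.J (c t).snd⟫ := by
    intro t
    have k1 := ((hasDerivAt_fst (hd' t)).inner ℝ
      (e.J.hasFDerivAt.comp_hasDerivAt t (hasDerivAt_fst (hd t)))).const_mul (b : ℝ)
    have k2 := ((hasDerivAt_snd (hd' t)).inner ℝ
      (f.J.hasFDerivAt.comp_hasDerivAt t (hasDerivAt_snd (hd t)))).const_mul (a : ℝ)
    have k3 : (fun t => (b : ℝ) * ⟪(deriv c t).fst, e.J (c t).fst⟫) =
        fun t => (a : ℝ) * ⟪(deriv c t).snd, f.J (c t).snd⟫ := funext hvel
    have k4 : HasDerivAt (fun t => (b : ℝ) * ⟪(deriv c t).fst, e.J (c t).fst⟫) _ t := k1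
    rw [k3] at k4
    have k5 := k4.unique k2
    have j1 : ⟪(deriv c t).fst, e.J (deriv c t).fst⟫ = 0 := by
      rw [real_inner_comm]; exact e.inner_J_self _
    have j2 : ⟪(deriv c t).snd, f.J (deriv c t).snd⟫ = 0 := by
      rw [real_inner_comm]; exact f.inner_J_self _
    rw [j1, j2, zero_add, zero_add] at k5
    exact k5
  have horth : ∀ t, a * ⟪(deriv (deriv c) t).fst, e.J (c t).fst⟫ +
      b * ⟪(deriv (deriv c) t).snd, f.J (c t).snd⟫ = 0 := by
    intro t
    obtain ⟨θ, hθ'⟩ := h2 t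
    have hθ : mm e f a b θ = c t := hθ'
    have k1 := h3 t (pairL ((a : ℝ) • e.J (e.pt (a * θ)), (b : ℝ) • f.J (f.pt (b * θ))))
      (by rw [← hθ]; exact tangent_mm e f a b θ)
    rw [innerVW, pairL_fst, pairL_snd, inner_smul_right, inner_smul_right] at k1
    rw [← hθ]
    exact k1
  refine geod_aux h1 (fun t => torusGeodesic_subset e f a b (h2 t)) (fun t => ?_) (fun t => ?_)
  · have k : spd a b * ⟪(deriv (deriv c) t).fst, e.J (c t).fst⟫ = 0 := by
      unfold spd
      linear_combination (a : ℝ) * horth t + (b : ℝ) * hacc t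
    exact (mul_eq_zero.mp k).resolve_left hs.ne'
  · have k : spd a b * ⟪(deriv (deriv c) t).snd, f.J (c t).snd⟫ = 0 := by
      unfold spd
      linear_combination (b : ℝ) * horth t - (a : ℝ) * hacc t
    exact (mul_eq_zero.mp k).resolve_left hs.ne'

end Pool.Agent.KS6_39.TT
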