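import Pool.Agent.KS6_39.TT.Geod

open MeasureTheory Set Filter Topology
open scoped ENNReal NNReal RealInnerProductSpace ContDiff

set_option linter.unusedSectionVars false

noncomputable section

namespace Pool.Agent.KS6_39.TT

section general
variable {E : Type} [NormedAddCommGroup E] [NormedSpace ℝ E]

/-- The parametrisation of an ellipse. -/
def ell (p q : E) (φ : ℝ) : E := Real.cos φ • p + Real.sin φ • q

lemma contDiff_ell {n : WithTop ℕ∞} (p q : E) : ContDiff ℝ n (ell p q) := by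
  unfold ell
  exact (Real.contDiff_cos.smul contDiff_const).add (Real.contDiff_sin.smul contDiff_const)

lemma hasDerivAt_ell (p q : E) (φ : ℝ) :
    HasDerivAt (ell p q) ((-Real.sin φ) • p + Real.cos φ • q) φ :=
  ((Real.hasDerivAt_cos φ).smul_const p).add ((Real.hasDerivAt_sin φ).smul_const q)

lemma fderiv_ell (p q : E) (φ w : ℝ) :
    fderiv ℝ (ell p q) φ w = w • ((-Real.sin φ) • p + Real.cos φ • q) := by
  rw [(hasDerivAt_ell p q φ).hasFDerivAt.fderiv]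
  simp

end general

variable {V : Type} [NormedAddCommGroup V] [InnerProductSpace ℝ V]

namespace Frame
variable (e : Frame V)

@[simp] lemma i11 : ⟪e.e₁, e.e₁⟫ = 1 := by rw [real_inner_self_eq_norm_sq, e.norm₁]; norm_num
@[simp] lemma i22 : ⟪e.e₂, e.e₂⟫ = 1 := by rw [real_inner_self_eq_norm_sq, e.norm₂]; norm_num
@[simp] lemma i12 : ⟪e.e₁, e.e₂⟫ = 0 := e.orth
@[simp] lemma i21 : ⟪e.e₂, e.e₁⟫ = 0 := by rw [real_inner_comm]; exact e.orth

/-- The rotation by a right angle in the plane, composed with the projection to the plane. -/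
def J : V →L[ℝ] V := (innerSL ℝ e.e₁).smulRight e.e₂ - (innerSL ℝ e.e₂).smulRight e.e₁

lemma J_apply (x : V) : e.J x = ⟪e.e₁, x⟫ • e.e₂ - ⟪e.e₂, x⟫ • e.e₁ := rfl

/-- The projection to the plane. -/
def pr : V →L[ℝ] V := (innerSL ℝ e.e₁).smulRight e.e₁ + (innerSL ℝ e.e₂).smulRight e.e₂

lemma pr_apply (x : V) : e.pr x = ⟪e.e₁, x⟫ • e.e₁ + ⟪e.e₂, x⟫ • e.e₂ := rfl

lemma J_J (x : V) : e.J (e.J x) = -e.pr x := by
  simp only [J_apply, pr_apply, inner_sub_right, inner_smul_right, i11, i22, i12, i21]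
  module

lemma inner_J_left (x y : V) : ⟪e.J x, y⟫ = -⟪x, e.J y⟫ := by
  simp only [J_apply, inner_sub_left, inner_sub_right, inner_smul_left, inner_smul_right,
    conj_trivial]
  rw [real_inner_comm e.e₁ x, real_inner_comm e.e₂ x]
  ring

lemma inner_J_self (x : V) : ⟪e.J x, x⟫ = 0 := by
  have h := e.inner_J_left x x
  rw [real_inner_comm (e.J x) x] at h
  rw [real_inner_comm] at h ⊢
  linarith

lemma pr_J (x : V) : e.pr (e.J x) = e.J x := by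
  simp only [J_apply, pr_apply, inner_sub_right, inner_smul_right, i11, i22, i12, i21]
  module

lemma pr_pr (x : V) : e.pr (e.pr x) = e.pr x := by
  simp only [pr_apply, inner_add_right, inner_smul_right, i11, i22, i12, i21]
  module

lemma J_pr (x : V) : e.J (e.pr x) = e.J x := by
  simp only [J_apply, pr_apply, inner_add_right, inner_smul_right, i11, i22, i12, i21]
  module

lemma inner_pr_left (x y : V) : ⟪e.pr x, y⟫ = ⟪x, e.pr y⟫ := by
  simp only [pr_apply, inner_add_left, inner_add_right, inner_smul_left, inner_smul_right,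
    conj_trivial]
  rw [real_inner_comm e.e₁ x, real_inner_comm e.e₂ x]
  ring

@[simp] lemma inner_e1_pr (x : V) : ⟪e.e₁, e.pr x⟫ = ⟪e.e₁, x⟫ := by
  simp [pr_apply, inner_add_right, inner_smul_right, e.norm₁, e.norm₂]

@[simp] lemma inner_e2_pr (x : V) : ⟪e.e₂, e.pr x⟫ = ⟪e.e₂, x⟫ := by
  simp [pr_apply, inner_add_right, inner_smul_right, e.norm₁, e.norm₂]

lemma pt_eq (θ : ℝ) : e.pt θ = Real.cos θ • e.e₁ + Real.sin θ • e.e₂ := rfl

@[simp] lemma inner_e1_pt (θ : ℝ) : ⟪e.e₁, e.pt θ⟫ = Real.cos θ := by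
  simp [pt_eq, inner_add_right, inner_smul_right, e.norm₁, e.norm₂]

@[simp] lemma inner_e2_pt (θ : ℝ) : ⟪e.e₂, e.pt θ⟫ = Real.sin θ := by
  simp [pt_eq, inner_add_right, inner_smul_right, e.norm₁, e.norm₂]

lemma pr_pt (θ : ℝ) : e.pr (e.pt θ) = e.pt θ := by
  rw [pr_apply, inner_e1_pt, inner_e2_pt, pt_eq]

lemma J_pt (θ : ℝ) : e.J (e.pt θ) = (-Real.sin θ) • e.e₁ + Real.cos θ • e.e₂ := by
  rw [J_apply, inner_e1_pt, inner_e2_pt]; module

lemma inner_pt (θ φ : ℝ) : ⟪e.pt θ, e.pt φ⟫ = Real.cos (θ - φ) := by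
  rw [Real.cos_sub, e.pt_eq θ, inner_add_left, inner_smul_left, inner_smul_left, inner_e1_pt,
    inner_e2_pt]
  simp

lemma inner_J_pt (θ φ : ℝ) : ⟪e.J (e.pt θ), e.pt φ⟫ = Real.sin (φ - θ) := by
  rw [Real.sin_sub, J_pt, inner_add_left, inner_smul_left, inner_smul_left, inner_e1_pt,
    inner_e2_pt]
  simp; ring

lemma inner_pt_J (θ φ : ℝ) : ⟪e.pt φ, e.J (e.pt θ)⟫ = Real.sin (φ - θ) := by
  rw [real_inner_comm, inner_J_pt]

lemma J_J_pt (θ : ℝ) : e.J (e.J (e.pt θ)) = -e.pt θ := by rw [J_J, pr_pt]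

lemma inner_J_J_pt (θ φ : ℝ) : ⟪e.J (e.pt θ), e.J (e.pt φ)⟫ = Real.cos (θ - φ) := by
  rw [inner_J_left, J_J_pt, inner_neg_right, neg_neg, inner_pt]

@[simp] lemma norm_pt (θ : ℝ) : ‖e.pt θ‖ = 1 := by
  have h : ‖e.pt θ‖ ^ 2 = 1 ^ 2 := by
    rw [← real_inner_self_eq_norm_sq, inner_pt]; simp
  exact (sq_eq_sq₀ (norm_nonneg _) zero_le_one).mp h

@[simp] lemma norm_J_pt (θ : ℝ) : ‖e.J (e.pt θ)‖ = 1 := by
  have h : ‖e.J (e.pt θ)‖ ^ 2 = 1 ^ 2 := by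
    rw [← real_inner_self_eq_norm_sq, inner_J_J_pt]; simp
  exact (sq_eq_sq₀ (norm_nonneg _) zero_le_one).mp h

lemma ell_pt (α φ : ℝ) : ell (e.pt α) (e.J (e.pt α)) φ = e.pt (α + φ) := by
  unfold ell
  rw [J_pt, pt_eq, pt_eq, Real.cos_add, Real.sin_add]
  module

lemma J_pt_add (α φ : ℝ) : e.J (e.pt (α + φ)) = (-Real.sin φ) • e.pt α +
    Real.cos φ • e.J (e.pt α) := by
  rw [← ell_pt]
  unfold ell
  rw [map_add, map_smul, map_smul, J_J_pt]
  module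

lemma hasDerivAt_pt (θ : ℝ) : HasDerivAt e.pt (e.J (e.pt θ)) θ := by
  have h := hasDerivAt_ell e.e₁ e.e₂ θ
  rw [J_pt]
  exact h

lemma contDiff_pt {n : WithTop ℕ∞} : ContDiff ℝ n e.pt := contDiff_ell e.e₁ e.e₂

lemma continuous_pt : Continuous e.pt := (e.contDiff_pt (n := 0)).continuous

/-- The great circle. -/
def circle : Set V := {x | ‖x‖ = 1 ∧ e.pr x = x}

lemma pt_mem (θ : ℝ) : e.pt θ ∈ e.circle := ⟨e.norm_pt θ, e.pr_pt θ⟩

lemma normsq_pr (x : V) : ‖e.pr x‖ ^ 2 = ⟪e.e₁, x⟫ ^ 2 + ⟪e.e₂, x⟫ ^ 2 := by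
  rw [← real_inner_self_eq_norm_sq, inner_pr_left, pr_pr, pr_apply, inner_add_right,
    inner_smul_right, inner_smul_right, real_inner_comm e.e₁ x, real_inner_comm e.e₂ x]
  ring

lemma exists_pt {m : V} (hm : m ∈ e.circle) : ∃ θ, m = e.pt θ := by
  obtain ⟨h1, h2⟩ := hm
  have h3 := e.normsq_pr m
  rw [h2, h1] at h3
  have hz : ‖(⟨⟪e.e₁, m⟫, ⟪e.e₂, m⟫⟩ : ℂ)‖ = 1 := by
    rw [Complex.norm_def, Complex.normSq_mk]
    rw [show ⟪e.e₁, m⟫ * ⟪e.e₁, m⟫ + ⟪e.e₂, m⟫ * ⟪e.e₂, m⟫ = 1 by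
      linarith [h3, sq ⟪e.e₁, m⟫, sq ⟪e.e₂, m⟫], Real.sqrt_one]
  have hne : (⟨⟪e.e₁, m⟫, ⟪e.e₂, m⟫⟩ : ℂ) ≠ 0 := by
    intro h; rw [h] at hz; simp at hz
  refine ⟨Complex.arg ⟨⟪e.e₁, m⟫, ⟪e.e₂, m⟫⟩, ?_⟩
  rw [pt_eq, Complex.cos_arg hne, Complex.sin_arg, hz, div_one, div_one, ← pr_apply, h2]

lemma circle_iff {m : V} : m ∈ e.circle ↔ ∃ θ, m = e.pt θ :=
  ⟨e.exists_pt, by rintro ⟨θ, rfl⟩; exact e.pt_mem θ⟩

lemma isClosed_circle : IsClosed e.circle := by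
  have h1 : IsClosed {x : V | ‖x‖ = 1} := isClosed_eq continuous_norm continuous_const
  have h2 : IsClosed {x : V | e.pr x = x} := isClosed_eq e.pr.continuous continuous_id
  exact h1.inter h2

lemma decomp {x : V} (hx : x ∈ e.circle) (u : V) :
    u = ⟪u, x⟫ • x + ⟪u, e.J x⟫ • e.J x + (u - e.pr u) := by
  obtain ⟨θ, rfl⟩ := e.exists_pt hx
  have h : e.pr u = ⟪u, e.pt θ⟫ • e.pt θ + ⟪u, e.J (e.pt θ)⟫ • e.J (e.pt θ) := by
    rw [J_pt, pr_apply, pt_eq]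
    simp only [inner_add_right, inner_smul_right]
    rw [real_inner_comm e.e₁ u, real_inner_comm e.e₂ u]
    have h5 := Real.sin_sq_add_cos_sq θ
    have e1 : ∀ A B : ℝ, A • e.e₁ + B • e.e₂ =
        ((Real.sin θ ^ 2 + Real.cos θ ^ 2) * A) • e.e₁ +
          ((Real.sin θ ^ 2 + Real.cos θ ^ 2) * B) • e.e₂ := by
      intro A B; rw [h5, one_mul, one_mul]
    rw [e1]
    module
  rw [← h]; abel

lemma pt_eq_iff {a b : ℝ} : e.pt a = e.pt b ↔ ∃ k : ℤ, a - b = k * (2 * Real.pi) := by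
  constructor
  · intro h
    have h1 : Real.cos (a - b) = 1 := by
      rw [← e.inner_pt, h, inner_pt]; simp
    obtain ⟨k, hk⟩ := (Real.cos_eq_one_iff _).mp h1
    exact ⟨k, hk.symm⟩
  · rintro ⟨k, hk⟩
    have : a = b + k * (2 * Real.pi) := by linarith
    rw [this, pt_eq, pt_eq, Real.cos_add_int_mul_two_pi, Real.sin_add_int_mul_two_pi]

lemma angle_pt {θ φ : ℝ} (h : |θ - φ| ≤ Real.pi) :
    InnerProductGeometry.angle (e.pt θ) (e.pt φ) = |θ - φ| := by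
  unfold InnerProductGeometry.angle
  rw [inner_pt, norm_pt, norm_pt, mul_one, div_one, ← Real.cos_abs]
  exact Real.arccos_cos (abs_nonneg _) h

lemma angle_pt_shift {θ φ : ℝ} (k : ℤ) (h : |θ - φ + k * (2 * Real.pi)| ≤ Real.pi) :
    InnerProductGeometry.angle (e.pt θ) (e.pt φ) = |θ - φ + k * (2 * Real.pi)| := by
  have h1 : e.pt θ = e.pt (θ + k * (2 * Real.pi)) := by
    rw [pt_eq, pt_eq, Real.cos_add_int_mul_two_pi, Real.sin_add_int_mul_two_pi]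
  have h2 : θ - φ + k * (2 * Real.pi) = θ + k * (2 * Real.pi) - φ := by ring
  rw [h2] at h ⊢
  rw [h1, angle_pt e h]

end Frame

end Pool.Agent.KS6_39.TT
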