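import Pool.Agent.KS6_39.TT.Frame

open MeasureTheory Set Filter Topology
open scoped ENNReal NNReal RealInnerProductSpace ContDiff

set_option linter.unusedSectionVars false

noncomputable section

namespace Pool.Agent.KS6_39.TT

section general
variable {E : Type} [NormedAddCommGroup E] [NormedSpace ℝ E]

/-- A constant derivative. -/
def constL2 (v : E) : L2 E := ContinuousMap.toLp 2 volume ℝ (ContinuousMap.const unitInterval v)

lemma constL2_ae (v : E) : ∀ᵐ τ, constL2 v τ = v :=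
  ContinuousMap.coeFn_toLp (p := 2) (𝕜 := ℝ) (volume : Measure unitInterval)
    (ContinuousMap.const unitInterval v)

lemma continuous_constL2 : Continuous (constL2 : E → L2 E) := by
  unfold constL2
  exact (ContinuousMap.toLp 2 volume ℝ).continuous.comp ContinuousMap.continuous_const'

lemma path_constL2 [CompleteSpace E] (p v : E) (t : unitInterval) :
    path p (constL2 v) t = p - (1 - (t : ℝ)) • v := by
  unfold constL2
  rw [path_toLp]
  simp

lemma zero_of_path_const [CompleteSpace E]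
    {p q : E} {g : L2 E} (h : ∀ t, path p g t = q) : g = 0 := by
  have hz : ∀ t, path q (0 : L2 E) t = q := by
    intro t
    unfold path
    have h3 : ∫ τ in Ioc t 1, (0 : L2 E) τ = ∫ τ in Ioc t 1, (0 : E) := by
      apply integral_congr_ae
      exact ae_restrict_of_ae (Lp.coeFn_zero E 2 volume)
    rw [h3]; simp
  exact (path_injective (p := p) (p' := q) (g := g) (g' := 0) fun t => by rw [h, hz]).2

lemma path_zero [CompleteSpace E]
    (q : E) (t : unitInterval) : path q (0 : L2 E) t = q := by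
  unfold path
  have h3 : ∫ τ in Ioc t 1, (0 : L2 E) τ = ∫ τ in Ioc t 1, (0 : E) := by
    apply integral_congr_ae
    exact ae_restrict_of_ae (Lp.coeFn_zero E 2 volume)
  rw [h3]; simp

/-- Multiplication of a continuous function by a fixed vector, as a family of linear maps. -/
def famL (P : E) : C(unitInterval, ℝ) →L[ℝ] C(unitInterval, ℝ →L[ℝ] E) :=
  ContinuousLinearMap.compLeftContinuous ℝ unitInterval
    (ContinuousLinearMap.toSpanSingleton ℝ (ContinuousLinearMap.toSpanSingleton ℝ P))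

lemma famL_apply (P : E) (h : C(unitInterval, ℝ)) (t : unitInterval) (w : ℝ) :
    famL P h t w = w • h t • P := by
  have : famL P h t = (h t) • ContinuousLinearMap.toSpanSingleton ℝ P := rfl
  rw [this]
  simp [smul_smul, mul_comm]

end general

lemma quad_bound {f f' : ℝ → ℝ} (hf : ∀ x, HasDerivAt f (f' x) x)
    (hL : ∀ x y, |f' x - f' y| ≤ |x - y|) (a b : ℝ) :
    |f b - f a - f' a * (b - a)| ≤ (b - a) ^ 2 := by
  have h1 := Convex.norm_image_sub_le_of_norm_hasDerivWithin_le (s := uIcc a b)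
    (f := fun x => f x - f' a * x) (f' := fun x => f' x - f' a) (C := |b - a|) (x := a) (y := b)
    (fun x _ => by
      have h := (hf x).sub ((hasDerivAt_id x).const_mul (f' a))
      rw [mul_one] at h
      exact h.hasDerivWithinAt)
    (fun x hx => by
      rw [Real.norm_eq_abs]
      refine (hL x a).trans ?_
      have := abs_sub_left_of_mem_uIcc hx
      exact this) (convex_uIcc a b) left_mem_uIcc right_mem_uIcc
  have e : f b - f a - f' a * (b - a) = f b - f' a * b - (f a - f' a * a) := by ring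
  rw [e]
  rw [Real.norm_eq_abs, Real.norm_eq_abs, ← sq, sq_abs] at h1
  exact h1

lemma hasDerivAt_comp_line2 {f f' : ℝ → ℝ} (hf : ∀ x, HasDerivAt f (f' x) x)
    (hL : ∀ x y, |f' x - f' y| ≤ |x - y|) (hfc : Continuous f) (hfc' : Continuous f')
    (φ η : C(unitInterval, ℝ)) :
    HasDerivAt (fun s : ℝ => (⟨f, hfc⟩ : C(ℝ, ℝ)).comp (φ + s • η))
      (η * (⟨f', hfc'⟩ : C(ℝ, ℝ)).comp φ) 0 := by
  rw [hasDerivAt_iff_isLittleO]
  have h2 : (fun s : ℝ => s ^ 2 * ‖η‖ ^ 2) =o[𝓝 0] fun s : ℝ => s - 0 := by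
    have h3 : HasDerivAt (fun s : ℝ => s ^ 2 * ‖η‖ ^ 2) (((2 : ℕ) : ℝ) * 0 ^ (2 - 1) * ‖η‖ ^ 2) 0 :=
      (hasDerivAt_pow 2 (0 : ℝ)).mul_const _
    rw [hasDerivAt_iff_isLittleO] at h3
    simpa using h3
  refine Asymptotics.IsBigO.trans_isLittleO ?_ h2
  apply Asymptotics.IsBigO.of_bound 1
  filter_upwards with s
  rw [one_mul, ContinuousMap.norm_le _ (by positivity)]
  intro t
  rw [Real.norm_eq_abs (s ^ 2 * ‖η‖ ^ 2), abs_of_nonneg (by positivity)]
  have h4 := quad_bound hf hL (φ t) (φ t + s * η t)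
  have h5 : ‖η t‖ ≤ ‖η‖ := η.norm_coe_le_norm t
  have e : ‖((⟨f, hfc⟩ : C(ℝ, ℝ)).comp (φ + s • η) - (⟨f, hfc⟩ : C(ℝ, ℝ)).comp (φ + (0 : ℝ) • η) -
      (s - 0) • (η * (⟨f', hfc'⟩ : C(ℝ, ℝ)).comp φ) : C(unitInterval, ℝ)) t‖ =
      |f (φ t + s * η t) - f (φ t) - f' (φ t) * (φ t + s * η t - φ t)| := by
    rw [Real.norm_eq_abs]
    congr 1
    simp
    ring
  rw [e]
  refine h4.trans ?_
  have h6 : (φ t + s * η t - φ t) ^ 2 = s ^ 2 * ‖η t‖ ^ 2 := by
    rw [Real.norm_eq_abs, sq_abs]; ring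
  rw [h6]
  gcongr

lemma abstract_deriv2 {X Y Z W : Type} [NormedAddCommGroup X] [NormedSpace ℝ X]
    [NormedAddCommGroup Y] [NormedSpace ℝ Y] [NormedAddCommGroup Z] [NormedSpace ℝ Z]
    [NormedAddCommGroup W] [NormedSpace ℝ W] (L M : X →L[ℝ] Y) (B : Y →L[ℝ] Z →L[ℝ] W) (z w : Z)
    (x y : ℝ → X) (x' y' : X) (hx : HasDerivAt x x' 0) (hy : HasDerivAt y y' 0) :
    ∃ v, HasDerivAt (fun s : ℝ => B (L (x s) + M (y s)) (z + s • w)) v 0 := by
  have h1 := L.hasFDerivAt.comp_hasDerivAt (0 : ℝ) hx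
  have h2 := M.hasFDerivAt.comp_hasDerivAt (0 : ℝ) hy
  have h4 := B.hasFDerivAt.comp_hasDerivAt (0 : ℝ) (h1.add h2)
  have h5 := h4.clm_apply (((hasDerivAt_id (0 : ℝ)).smul_const w).const_add z)
  exact ⟨_, h5⟩

lemma hasDerivAt_ellPath2 {E : Type} [NormedAddCommGroup E] [NormedSpace ℝ E] (p q : E)
    (ψ η : L2 ℝ) :
    ∃ v, HasDerivAt (fun s : ℝ => (comp (ell p q) (contDiff_ell p q) (0, ψ + s • η)).2) v 0 := by
  set φ : C(unitInterval, ℝ) := evL (0, ψ) with hφ
  set ζ : C(unitInterval, ℝ) := evL (0, η) with hζ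
  have h1 := hasDerivAt_comp_line2 (f := Real.cos) (f' := fun x => -Real.sin x)
    Real.hasDerivAt_cos (fun x y => by
      rw [show -Real.sin x - -Real.sin y = -(Real.sin x - Real.sin y) by ring, abs_neg]
      exact Real.abs_sin_sub_sin_le x y) Real.continuous_cos Real.continuous_sin.neg φ ζ
  have h2 := hasDerivAt_comp_line2 (f := fun x => -Real.sin x) (f' := fun x => -Real.cos x)
    (fun x => (Real.hasDerivAt_sin x).neg) (fun x y => by
      rw [show -Real.cos x - -Real.cos y = -(Real.cos x - Real.cos y) by ring, abs_neg]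
      exact Real.abs_cos_sub_cos_le x y) Real.continuous_sin.neg Real.continuous_cos.neg φ ζ
  obtain ⟨v, hv⟩ := abstract_deriv2 (X := C(unitInterval, ℝ)) (Y := C(unitInterval, ℝ →L[ℝ] E))
    (famL p) (famL q) (appL (E := ℝ) (E' := E)) ψ η _ _ _ _ h2 h1
  refine ⟨v, hv.congr_of_eventuallyEq ?_⟩
  filter_upwards with s
  have e1 : (comp (ell p q) (contDiff_ell p q) (0, ψ + s • η)).2 =
      appL (dMap (ell p q) (contDiff_ell p q) (evL (0, ψ + s • η))) (ψ + s • η) := rfl
  have e2 : evL ((0 : ℝ), ψ + s • η) = φ + s • ζ := by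
    rw [hφ, hζ, ← map_smul, ← map_add, Prod.smul_mk, smul_zero, Prod.mk_add_mk, add_zero]
  rw [e1, e2]
  have e3 : dMap (ell p q) (contDiff_ell p q) (φ + s • ζ) =
      famL p ((⟨fun x => -Real.sin x, Real.continuous_sin.neg⟩ : C(ℝ, ℝ)).comp (φ + s • ζ)) +
      famL q ((⟨Real.cos, Real.continuous_cos⟩ : C(ℝ, ℝ)).comp (φ + s • ζ)) := by
    apply ContinuousMap.ext
    intro t
    ext1
    have e4 : dMap (ell p q) (contDiff_ell p q) (φ + s • ζ) t =
      fderiv ℝ (ell p q) ((φ + s • ζ) t) := rfl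
    have e5 : ∀ A B : C(unitInterval, ℝ), (famL p A + famL q B) t 1 =
        famL p A t 1 + famL q B t 1 := fun A B => rfl
    rw [e4, fderiv_ell, e5, famL_apply, famL_apply, one_smul, one_smul, one_smul]
    rfl
  rw [e3]

variable {V : Type} [NormedAddCommGroup V] [InnerProductSpace ℝ V] [FiniteDimensional ℝ V]

/-- Pairing of square integrable functions. -/
def pairR (g : L2 V) (ψ : L2 ℝ) : L2 (V × ℝ) :=
  lin (ContinuousLinearMap.inl ℝ V ℝ) g + lin (ContinuousLinearMap.inr ℝ V ℝ) ψ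

lemma pairR_ae (g : L2 V) (ψ : L2 ℝ) : ∀ᵐ τ, pairR g ψ τ = (g τ, ψ τ) := by
  filter_upwards [Lp.coeFn_add (lin (ContinuousLinearMap.inl ℝ V ℝ) g)
    (lin (ContinuousLinearMap.inr ℝ V ℝ) ψ), lin_ae (ContinuousLinearMap.inl ℝ V ℝ) g,
    lin_ae (ContinuousLinearMap.inr ℝ V ℝ) ψ] with τ h1 h2 h3
  unfold pairR
  rw [h1, Pi.add_apply, h2, h3]
  simp

lemma path_pairR (p : V) (r : ℝ) (g : L2 V) (ψ : L2 ℝ) (t : unitInterval) :
    path (p, r) (pairR g ψ) t = (path p g t, path r ψ t) := by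
  have h1 := path_lin (ContinuousLinearMap.inl ℝ V ℝ) p g t
  have h2 := path_lin (ContinuousLinearMap.inr ℝ V ℝ) r ψ t
  have h3 := path_add (ContinuousLinearMap.inl ℝ V ℝ p) (ContinuousLinearMap.inr ℝ V ℝ r)
    (lin (ContinuousLinearMap.inl ℝ V ℝ) g) (lin (ContinuousLinearMap.inr ℝ V ℝ) ψ) t
  rw [h1, h2] at h3
  simp at h3
  exact h3

namespace Frame
variable (e : Frame V)

/-- The angular form. -/
def angForm : V →L[ℝ] (V →L[ℝ] ℝ) := (innerSL ℝ).comp e.J

lemma angForm_apply (x w : V) : e.angForm x w = ⟪e.J x, w⟫ := rfl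

/-- The angular velocity of a path. -/
def ang (p : V) (g : L2 V) : L2 ℝ :=
  appL ((⟨e.angForm, e.angForm.continuous⟩ : C(V, V →L[ℝ] ℝ)).comp (evL (p, g))) g

lemma continuous_ang (p : V) : Continuous (e.ang p) := by
  unfold ang
  have h1 : Continuous fun g : L2 V =>
      (appL ((⟨e.angForm, e.angForm.continuous⟩ : C(V, V →L[ℝ] ℝ)).comp (evL (p, g))) :
        L2 V →L[ℝ] L2 ℝ) :=
    appL.continuous.comp ((ContinuousMap.continuous_postcomp _).comp
      (evL.continuous.comp (Continuous.prodMk_right p)))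
  exact h1.clm_apply continuous_id

lemma ang_ae (p : V) (g : L2 V) : ∀ᵐ τ, e.ang p g τ = e.angForm (path p g τ) (g τ) :=
  appL_ae _ _

lemma velocity_ae {p : V} {g : L2 V} (hg : ∀ t, path p g t ∈ e.circle) :
    ∀ᵐ τ, g τ = e.angForm (path p g τ) (g τ) • e.J (path p g τ) := by
  have hp : p ∈ e.circle := by simpa [path_one] using hg 1
  have h1 : lin e.pr g = g := by
    refine (path_injective (p := p) (p' := p) fun t => ?_).2
    have := path_lin e.pr p g t
    rw [hp.2, (hg t).2] at this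
    exact this
  have h2 := lin_ae e.pr g
  rw [h1] at h2
  have hF : ContDiff ℝ 1 fun x : V => ‖x‖ ^ 2 := contDiff_id.norm_sq ℝ
  have h3 : (comp (fun x : V => ‖x‖ ^ 2) hF (p, g)).2 = 0 := by
    refine zero_of_path_const (p := (comp (fun x : V => ‖x‖ ^ 2) hF (p, g)).1) (q := 1)
      fun t => ?_
    rw [path_comp, (hg t).1]; norm_num
  have h4 := comp_ae (fun x : V => ‖x‖ ^ 2) hF p g
  rw [h3] at h4
  filter_upwards [h2, h4, Lp.coeFn_zero ℝ 2 (volume : Measure unitInterval)] with τ h2 h4 h5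
  rw [h5] at h4
  have h6 : HasFDerivAt (fun x : V => ‖x‖ ^ 2) (2 • innerSL ℝ (path p g τ)) (path p g τ) :=
    (hasStrictFDerivAt_norm_sq (path p g τ)).hasFDerivAt
  rw [h6.fderiv] at h4
  have h7 : (0 : ℝ) = 2 • ⟪path p g τ, g τ⟫ := h4
  have h8 : ⟪g τ, path p g τ⟫ = 0 := by
    rw [real_inner_comm]
    rw [two_smul] at h7
    linarith
  have h10 := e.decomp (hg τ) (g τ)
  rw [h8, ← h2, sub_self, zero_smul, zero_add, add_zero] at h10
  rw [angForm_apply, real_inner_comm]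
  exact h10

/-- The inverse rotation of a point by an angle. -/
def unrot (z : V × ℝ) : V := Real.cos z.2 • z.1 - Real.sin z.2 • e.J z.1

lemma contDiff_unrot : ContDiff ℝ 1 e.unrot := by
  unfold unrot
  exact ((Real.contDiff_cos.comp contDiff_snd).smul contDiff_fst).sub
    ((Real.contDiff_sin.comp contDiff_snd).smul (e.J.contDiff.comp contDiff_fst))

lemma fderiv_unrot (z w : V × ℝ) : fderiv ℝ e.unrot z w =
    Real.cos z.2 • w.1 + (-Real.sin z.2 * w.2) • z.1 -
      (Real.sin z.2 • e.J w.1 + (Real.cos z.2 * w.2) • e.J z.1) := by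
  have h1 : HasFDerivAt (fun z : V × ℝ => z.1) (ContinuousLinearMap.fst ℝ V ℝ) z :=
    hasFDerivAt_fst
  have h2 : HasFDerivAt (fun z : V × ℝ => z.2) (ContinuousLinearMap.snd ℝ V ℝ) z :=
    hasFDerivAt_snd
  have h3 := (h2.cos.smul h1).sub (h2.sin.smul (e.J.hasFDerivAt.comp z h1))
  have h5 : HasFDerivAt e.unrot _ z := h3
  rw [h5.fderiv]
  rfl

lemma J_J_mem {x : V} (hx : x ∈ e.circle) : e.J (e.J x) = -x := by rw [J_J, hx.2]

lemma unrot_fderiv_zero {x w : V} (hx : x ∈ e.circle) (φ : ℝ)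
    (hw : w = e.angForm x w • e.J x) : fderiv ℝ e.unrot (x, φ) (w, e.angForm x w) = 0 := by
  rw [fderiv_unrot]
  set ψ := e.angForm x w
  dsimp only
  rw [hw, map_smul, e.J_J_mem hx]
  module

lemma ell_unrot {p x : V} (hx : x ∈ e.circle) {φ : ℝ} (h : e.unrot (x, φ) = p) :
    ell p (e.J p) φ = x := by
  unfold ell
  rw [← h]
  unfold unrot
  rw [map_sub, map_smul, map_smul, e.J_J_mem hx]
  have h5 := Real.sin_sq_add_cos_sq φ
  have h6 : Real.cos φ • (Real.cos φ • x - Real.sin φ • e.J x) +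
    Real.sin φ • (Real.cos φ • e.J x - Real.sin φ • -x) =
    (Real.sin φ ^ 2 + Real.cos φ ^ 2) • x := by module
  dsimp only
  rw [h6, h5, one_smul]

lemma lift {p : V} {g : L2 V} (hg : ∀ t, path p g t ∈ e.circle) (t : unitInterval) :
    ell p (e.J p) (path 0 (e.ang p g) t) = path p g t := by
  have hu : ∀ t, path (comp e.unrot e.contDiff_unrot ((p, 0), pairR g (e.ang p g))).1
      (comp e.unrot e.contDiff_unrot ((p, 0), pairR g (e.ang p g))).2 t =
      e.unrot (path p g t, path 0 (e.ang p g) t) := by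
    intro t
    rw [path_comp, path_pairR]
  have h0 : (comp e.unrot e.contDiff_unrot ((p, 0), pairR g (e.ang p g))).2 = 0 := by
    rw [Lp.eq_zero_iff_ae_eq_zero]
    filter_upwards [comp_ae e.unrot e.contDiff_unrot (p, 0) (pairR g (e.ang p g)),
      pairR_ae g (e.ang p g), e.ang_ae p g, e.velocity_ae hg] with τ h1 h2 h3 h4
    rw [h1, h2, path_pairR, h3]
    exact e.unrot_fderiv_zero (hg τ) _ h4
  apply e.ell_unrot (hg t)
  rw [← hu t, h0, path_zero]
  simp [comp, unrot]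

/-- The path in the circle ending at `pt α` with angular velocity `ψ`. -/
def cp (α : ℝ) (ψ : L2 ℝ) : L2 V :=
  (comp (ell (e.pt α) (e.J (e.pt α))) (contDiff_ell _ _) (0, ψ)).2

lemma path_cp (α : ℝ) (ψ : L2 ℝ) (t : unitInterval) :
    path (e.pt α) (e.cp α ψ) t = e.pt (α + path 0 ψ t) := by
  have h := path_comp (ell (e.pt α) (e.J (e.pt α))) (contDiff_ell _ _) 0 ψ t
  have h1 : (comp (ell (e.pt α) (e.J (e.pt α))) (contDiff_ell _ _) (0, ψ)).1 = e.pt α := by
    change ell (e.pt α) (e.J (e.pt α)) 0 = e.pt α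
    rw [ell_pt, add_zero]
  rw [h1, ell_pt] at h
  exact h

lemma continuous_cp (α : ℝ) : Continuous (e.cp α) :=
  continuous_snd.comp ((continuous_comp _ _).comp (Continuous.prodMk_right 0))

lemma cp_ang {α : ℝ} {g : L2 V} (hg : ∀ t, path (e.pt α) g t ∈ e.circle) :
    e.cp α (e.ang (e.pt α) g) = g := by
  refine (path_injective (p := e.pt α) (p' := e.pt α) fun t => ?_).2
  rw [path_cp, ← ell_pt, e.lift hg]

lemma ang_cp (α : ℝ) (ψ : L2 ℝ) : e.ang (e.pt α) (e.cp α ψ) = ψ := by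
  apply Lp.ext
  filter_upwards [e.ang_ae (e.pt α) (e.cp α ψ),
    comp_ae (ell (e.pt α) (e.J (e.pt α))) (contDiff_ell _ _) 0 ψ] with τ h1 h2
  have h3 : e.cp α ψ τ = fderiv ℝ (ell (e.pt α) (e.J (e.pt α))) (path 0 ψ τ) (ψ τ) := h2
  rw [h1, path_cp, h3, fderiv_ell, angForm_apply, ← e.J_pt_add, inner_smul_right, inner_J_J_pt]
  simp

lemma energy_cp (α : ℝ) (ψ : L2 ℝ) : energy (e.cp α ψ) = ‖ψ‖ ^ 2 := by
  rw [← energy_eq]
  unfold energy
  apply integral_congr_ae
  filter_upwards [comp_ae (ell (e.pt α) (e.J (e.pt α))) (contDiff_ell _ _) 0 ψ] with τ h2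
  have h3 : e.cp α ψ τ = fderiv ℝ (ell (e.pt α) (e.J (e.pt α))) (path 0 ψ τ) (ψ τ) := h2
  rw [h3, fderiv_ell, ← e.J_pt_add, norm_smul, norm_J_pt, mul_one]

end Frame

/-! ### The increment functional -/

/-- The increment functional. -/
def startL : L2 ℝ →L[ℝ] ℝ :=
  (ContinuousMap.evalCLM ℝ (0 : unitInterval)).comp (evL.comp (ContinuousLinearMap.inr ℝ ℝ (L2 ℝ)))

lemma startL_apply (ψ : L2 ℝ) : startL ψ = path 0 ψ 0 := rfl

lemma startL_const (v : ℝ) : startL (constL2 v) = -v := by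
  rw [startL_apply, path_constL2]; simp

lemma abs_startL_le (ψ : L2 ℝ) : |startL ψ| ≤ ‖ψ‖ := by
  rw [startL_apply]
  have := norm_path_le 0 ψ 0
  rwa [norm_zero, zero_add, Real.norm_eq_abs] at this

lemma inner_const (v : ℝ) (ψ : L2 ℝ) : ⟪constL2 v, ψ⟫ = -v * startL ψ := by
  have h0 : ∫ τ, ψ τ = ∫ τ in Ioc (0 : unitInterval) 1, ψ τ := by
    rw [← setIntegral_univ]
    apply setIntegral_congr_set
    have : ∀ᵐ τ : unitInterval, τ ≠ 0 := by
      simp [ae_iff, measure_singleton]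
    filter_upwards [this] with τ hτ
    apply propext
    constructor
    · intro _
      exact ⟨lt_of_le_of_ne τ.2.1 (fun h => hτ h.symm), τ.2.2⟩
    · intro _; trivial
  rw [L2.inner_def]
  have h1 : ∫ τ, ⟪constL2 v τ, ψ τ⟫ = ∫ τ, v * ψ τ := by
    apply integral_congr_ae
    filter_upwards [constL2_ae v] with τ h
    rw [h]
    simp [mul_comm]
  rw [h1, integral_const_mul, h0, startL_apply]
  unfold path
  ring

end Pool.Agent.KS6_39.TT
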