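import Pool.Agent.KS6_39.TT.Conn

open MeasureTheory Set Filter Topology
open scoped ENNReal NNReal RealInnerProductSpace ContDiff

set_option linter.unusedSectionVars false

noncomputable section

namespace Pool.Agent.KS6_39.TT

variable {V W : Type} [NormedAddCommGroup V] [InnerProductSpace ℝ V] [FiniteDimensional ℝ V]
  [NormedAddCommGroup W] [InnerProductSpace ℝ W] [FiniteDimensional ℝ W]

lemma arcsin_sin_of_cos_pos {t : ℝ} (h : 0 < Real.cos t) :
    ∃ i : ℤ, Real.arcsin (Real.sin t) = t - i * (2 * Real.pi) := by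
  have hπ := Real.pi_pos
  set i := round (t / (2 * Real.pi)) with hi
  set r := t - i * (2 * Real.pi) with hr
  have h1 : |t / (2 * Real.pi) - i| ≤ 1 / 2 := abs_sub_round _
  have h2 : |r| ≤ Real.pi := by
    have h3 : r = (t / (2 * Real.pi) - i) * (2 * Real.pi) := by
      rw [hr]; field_simp
    rw [h3, abs_mul, abs_of_pos (show 0 < 2 * Real.pi by positivity)]
    nlinarith
  have hc : Real.cos r = Real.cos t := by rw [hr, Real.cos_sub_int_mul_two_pi]
  have hs : Real.sin r = Real.sin t := by rw [hr, Real.sin_sub_int_mul_two_pi]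
  have h4 : |r| < Real.pi / 2 := by
    by_contra hcon
    push Not at hcon
    have h5 := Real.cos_nonpos_of_pi_div_two_le_of_le hcon (by linarith)
    rw [Real.cos_abs, hc] at h5
    linarith
  obtain ⟨h5, h6⟩ := abs_lt.mp h4
  exact ⟨i, by rw [← hs, Real.arcsin_sin h5.le h6.le]⟩

/-- A local inverse of the parametrisation of the closed geodesic. -/
def chart (e : Frame V) (a : ℤ) (θ : ℝ) (x : WithLp 2 (V × W)) : ℝ :=
  θ + Real.arcsin ⟪x.fst, e.J (e.pt (a * θ))⟫ / a

lemma chart_self (e : Frame V) (f : Frame W) (a b : ℤ) (θ : ℝ) :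
    chart e a θ (mm e f a b θ) = θ := by
  unfold chart mm
  rw [pairL_fst]
  dsimp only
  rw [Frame.inner_pt_J]
  simp

lemma continuous_chart (e : Frame V) (a : ℤ) (θ : ℝ) :
    Continuous (chart (W := W) e a θ) := by
  unfold chart
  exact continuous_const.add ((Real.continuous_arcsin.comp
    (continuous_fstVW.inner continuous_const)).div_const _)

lemma chart_spec (e : Frame V) (f : Frame W) {a b : ℤ} (ha : a ≠ 0) (hab : IsCoprime a b)
    (θ : ℝ) : ∀ᶠ x in 𝓝 (mm e f a b θ), x ∈ torusGeodesic e f a b →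
      x = mm e f a b (chart e a θ x) := by
  have hπ := Real.pi_pos
  have c1 : Continuous fun x : WithLp 2 (V × W) => ⟪x.fst, e.pt (a * θ)⟫ :=
    continuous_fstVW.inner continuous_const
  have c2 : Continuous fun x : WithLp 2 (V × W) => ⟪x.snd, f.pt (b * θ)⟫ :=
    continuous_sndVW.inner continuous_const
  have c3 : Continuous fun x : WithLp 2 (V × W) =>
      |b * Real.arcsin ⟪x.fst, e.J (e.pt (a * θ))⟫ -
        a * Real.arcsin ⟪x.snd, f.J (f.pt (b * θ))⟫| :=
    ((continuous_const.mul (Real.continuous_arcsin.comp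
      (continuous_fstVW.inner continuous_const))).sub
      (continuous_const.mul (Real.continuous_arcsin.comp
      (continuous_sndVW.inner continuous_const)))).abs
  have v1 : (0 : ℝ) < ⟪(mm e f a b θ).fst, e.pt (a * θ)⟫ := by
    change (0 : ℝ) < ⟪e.pt (a * θ), e.pt (a * θ)⟫
    rw [Frame.inner_pt]; simp
  have v2 : (0 : ℝ) < ⟪(mm e f a b θ).snd, f.pt (b * θ)⟫ := by
    change (0 : ℝ) < ⟪f.pt (b * θ), f.pt (b * θ)⟫
    rw [Frame.inner_pt]; simp
  have v3 : |b * Real.arcsin ⟪(mm e f a b θ).fst, e.J (e.pt (a * θ))⟫ -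
        a * Real.arcsin ⟪(mm e f a b θ).snd, f.J (f.pt (b * θ))⟫| < 2 * Real.pi := by
    change |b * Real.arcsin ⟪e.pt (a * θ), e.J (e.pt (a * θ))⟫ -
        a * Real.arcsin ⟪f.pt (b * θ), f.J (f.pt (b * θ))⟫| < 2 * Real.pi
    rw [Frame.inner_pt_J, Frame.inner_pt_J]
    simp
    positivity
  filter_upwards [c1.continuousAt.eventually (lt_mem_nhds v1),
    c2.continuousAt.eventually (lt_mem_nhds v2),
    c3.continuousAt.eventually (gt_mem_nhds v3)] with x h1 h2 h3 hx
  obtain ⟨φ, rfl⟩ := hx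
  change 0 < ⟪e.pt (a * φ), e.pt (a * θ)⟫ at h1
  change 0 < ⟪f.pt (b * φ), f.pt (b * θ)⟫ at h2
  change |b * Real.arcsin ⟪e.pt (a * φ), e.J (e.pt (a * θ))⟫ -
        a * Real.arcsin ⟪f.pt (b * φ), f.J (f.pt (b * θ))⟫| < 2 * Real.pi at h3
  change mm e f a b φ = mm e f a b (θ + Real.arcsin ⟪e.pt (a * φ), e.J (e.pt (a * θ))⟫ / a)
  rw [Frame.inner_pt] at h1 h2
  rw [Frame.inner_pt_J, Frame.inner_pt_J] at h3
  rw [Frame.inner_pt_J]
  obtain ⟨i, hi⟩ := arcsin_sin_of_cos_pos h1
  obtain ⟨j, hj⟩ := arcsin_sin_of_cos_pos h2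
  rw [hi, hj] at h3
  rw [hi]
  have ha' : (a : ℝ) ≠ 0 := by exact_mod_cast ha
  have h4 : (b : ℝ) * (a * φ - a * θ - i * (2 * Real.pi)) -
      a * (b * φ - b * θ - j * (2 * Real.pi)) = (a * j - b * i : ℝ) * (2 * Real.pi) := by ring
  rw [h4, abs_mul, abs_of_pos (show 0 < 2 * Real.pi by positivity)] at h3
  have h5 : |(a * j - b * i : ℝ)| < 1 := by
    by_contra hcon
    push Not at hcon
    nlinarith
  have h6 : |a * j - b * i| < 1 := by exact_mod_cast h5
  have h7 : a * j - b * i = 0 := Int.abs_lt_one_iff.mp h6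
  have h8 : a ∣ b * i := ⟨j, by linarith⟩
  obtain ⟨l, hl⟩ := hab.dvd_of_dvd_mul_left h8
  have h9 : j = b * l := by
    have : a * j = a * (b * l) := by rw [hl] at h7; linarith
    exact mul_left_cancel₀ ha this
  unfold mm
  rw [pairL_inj, Prod.mk.injEq, Frame.pt_eq_iff, Frame.pt_eq_iff]
  have h10 : (i : ℝ) = a * l := by exact_mod_cast hl
  rw [h10]
  constructor
  · refine ⟨a * l, ?_⟩
    push_cast
    field_simp
    ring
  · refine ⟨b * l, ?_⟩
    push_cast
    field_simp
    ring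

/-! ### Minimal geodesics on the sphere -/

lemma exists_frame (hV : 2 ≤ Module.finrank ℝ V) {x y : V} (hx : ‖x‖ = 1) (hy : ‖y‖ = 1) :
    ∃ e : Frame V, e.e₁ = y ∧ e.pt (InnerProductGeometry.angle x y) = x := by
  set θ := InnerProductGeometry.angle x y with hθ
  have hcos : Real.cos θ = ⟪x, y⟫ := by
    rw [hθ, InnerProductGeometry.cos_angle, hx, hy]; simp
  have hsin : 0 ≤ Real.sin θ := InnerProductGeometry.sin_angle_nonneg x y
  have h1 : ⟪y, x - Real.cos θ • y⟫ = 0 := by
    rw [inner_sub_right, inner_smul_right, real_inner_self_eq_norm_sq, hy, hcos,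
      real_inner_comm]
    ring
  have h2 : ‖x - Real.cos θ • y‖ = Real.sin θ := by
    have h3 : ‖x - Real.cos θ • y‖ ^ 2 = Real.sin θ ^ 2 := by
      rw [norm_sub_sq_real, norm_smul, inner_smul_right, hx, hy, ← hcos, Real.norm_eq_abs,
        mul_pow, sq_abs]
      have := Real.sin_sq_add_cos_sq θ
      linarith
    exact (sq_eq_sq₀ (norm_nonneg _) hsin).mp h3
  rcases eq_or_ne (Real.sin θ) 0 with h0 | h0
  · obtain ⟨w, hw1, hw2⟩ : ∃ w : V, w ≠ 0 ∧ ⟪y, w⟫ = 0 := by
      have hne : y ≠ 0 := by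
        intro h; rw [h] at hy; simp at hy
      have h4 := Submodule.finrank_add_finrank_orthogonal (𝕜 := ℝ) (ℝ ∙ y)
      rw [finrank_span_singleton hne] at h4
      have h5 : 0 < Module.finrank ℝ (ℝ ∙ y)ᗮ := by omega
      obtain ⟨w, hw⟩ := Module.finrank_pos_iff_exists_ne_zero.mp h5
      exact ⟨w, fun h => hw (Subtype.ext h),
        (Submodule.mem_orthogonal_singleton_iff_inner_right.mp w.2)⟩
    have hn : ‖w‖ ≠ 0 := norm_ne_zero_iff.mpr hw1
    refine ⟨⟨y, ‖w‖⁻¹ • w, hy, ?_, ?_⟩, rfl, ?_⟩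
    · rw [norm_smul, norm_inv, norm_norm, inv_mul_cancel₀ hn]
    · rw [inner_smul_right, hw2, mul_zero]
    · rw [Frame.pt_eq, h0, zero_smul, add_zero]
      rw [h0] at h2
      exact (sub_eq_zero.mp (norm_eq_zero.mp h2)).symm
  · refine ⟨⟨y, (Real.sin θ)⁻¹ • (x - Real.cos θ • y), hy, ?_, ?_⟩, rfl, ?_⟩
    · rw [norm_smul, h2, norm_inv, Real.norm_eq_abs, abs_of_nonneg hsin, inv_mul_cancel₀ h0]
    · rw [inner_smul_right, h1, mul_zero]
    · rw [Frame.pt_eq]
      dsimp only
      rw [smul_smul, mul_inv_cancel₀ h0, one_smul]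
      abel

lemma exists_arc (hV : 2 ≤ Module.finrank ℝ V) {x y : V} (hx : ‖x‖ = 1) (hy : ‖y‖ = 1) :
    ∃ g : L2 V, (∀ t, ‖path y g t‖ = 1) ∧ path y g 0 = x ∧
      energy g = InnerProductGeometry.angle x y ^ 2 := by
  obtain ⟨e, he1, he2⟩ := exists_frame hV hx hy
  set θ := InnerProductGeometry.angle x y with hθ
  have h0 : e.pt 0 = y := by rw [Frame.pt_eq, he1]; simp
  have hp := e.path_cp 0 (constL2 (-θ))
  rw [h0] at hp
  refine ⟨e.cp 0 (constL2 (-θ)), fun t => ?_, ?_, ?_⟩
  · rw [hp]; exact e.norm_pt _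
  · rw [hp, path_constL2]
    rw [← he2]
    congr 1
    simp
  · rw [Frame.energy_cp, ← real_inner_self_eq_norm_sq, inner_const, startL_const]
    ring

/-! ### The reduced energy -/

/-- The squared distance from the point of the closed geodesic with parameter `s` to `p`. -/
def red (e : Frame V) (f : Frame W) (a b : ℤ) (p : WithLp 2 (V × W)) (s : ℝ) : ℝ :=
  InnerProductGeometry.angle (e.pt (a * s)) p.fst ^ 2 +
    InnerProductGeometry.angle (f.pt (b * s)) p.snd ^ 2

lemma red_le (e : Frame V) (f : Frame W) (a b : ℤ) {p : WithLp 2 (V × W)}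
    {g : L2 (WithLp 2 (V × W))} (hg : g ∈ pathSpace (sphereProd V W) (torusGeodesic e f a b) p)
    {s : ℝ} (hs : path p g 0 = mm e f a b s) : red e f a b p s ≤ energy g := by
  have h1 := angle_sq_le p.fst (comp1 g) (fun t => by rw [path_comp1]; exact (hg.1 t).1)
  have h2 := angle_sq_le p.snd (comp2 g) (fun t => by rw [path_comp2]; exact (hg.1 t).2)
  rw [path_comp1, hs] at h1
  rw [path_comp2, hs] at h2
  rw [← join2_comp g, energy_join2, energy_eq, energy_eq]
  exact add_le_add h1 h2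

lemma crit_of_min (hV : 2 ≤ Module.finrank ℝ V) (hW : 2 ≤ Module.finrank ℝ W)
    (e : Frame V) (f : Frame W) {a b : ℤ} (ha : a ≠ 0) (hab : IsCoprime a b)
    {p : WithLp 2 (V × W)} (hp : p ∈ sphereProd V W) {s δ : ℝ} (hδ : 0 < δ)
    (hmin : ∀ s', |s' - s| < δ → red e f a b p s ≤ red e f a b p s') :
    ∃ g, (IsCriticalPoint (pathSpace (sphereProd V W) (torusGeodesic e f a b) p) g ∧
      index (pathSpace (sphereProd V W) (torusGeodesic e f a b) p) g = 0) ∧
      energy g = red e f a b p s := by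
  obtain ⟨g1, k1, l1, m1⟩ := exists_arc hV (e.norm_pt (a * s)) hp.1
  obtain ⟨g2, k2, l2, m2⟩ := exists_arc hW (f.norm_pt (b * s)) hp.2
  set X := pathSpace (sphereProd V W) (torusGeodesic e f a b) p with hX
  have hpe : pairL (p.fst, p.snd) = p := pairL_eq p
  have hmem : join2 g1 g2 ∈ X := by
    rw [hX, ← hpe, mem_pathSpace]
    refine ⟨fun t => ⟨k1 t, k2 t⟩, ?_⟩
    change pairL (path p.fst g1 0, path p.snd g2 0) ∈ _
    rw [l1, l2]
    exact mm_mem e f a b s
  have hen : energy (join2 g1 g2) = red e f a b p s := by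
    rw [energy_join2, m1, m2]; rfl
  have hst : path p (join2 g1 g2) 0 = mm e f a b s := by
    conv_lhs => rw [← hpe]
    rw [path_join2, l1, l2]; rfl
  have hnear : ∀ᶠ h in 𝓝 (join2 g1 g2), h ∈ X → energy (join2 g1 g2) ≤ energy h := by
    have hc : Continuous fun h : L2 (WithLp 2 (V × W)) => path p h 0 := by
      have h1 : Continuous fun h : L2 (WithLp 2 (V × W)) => evL (p, h) 0 :=
        (continuous_eval_const 0).comp (evL.continuous.comp (Continuous.prodMk_right p))
      exact h1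
    have ht : Tendsto (fun h : L2 (WithLp 2 (V × W)) => path p h 0) (𝓝 (join2 g1 g2))
        (𝓝 (mm e f a b s)) := by
      have := hc.tendsto (join2 g1 g2)
      rwa [hst] at this
    have hch : ∀ᶠ x in 𝓝 (mm e f a b s), |chart e a s x - s| < δ := by
      have h2 : Continuous fun x : WithLp 2 (V × W) => |chart e a s x - s| :=
        ((continuous_chart e a s).sub continuous_const).abs
      refine h2.continuousAt.eventually (gt_mem_nhds ?_)
      change |chart e a s (mm e f a b s) - s| < δ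
      rw [chart_self]; simpa using hδ
    filter_upwards [ht.eventually (chart_spec e f ha hab s), ht.eventually hch] with h h1 h2 hh
    have h3 := h1 hh.2
    rw [hen]
    exact (hmin _ h2).trans (red_le e f a b hh h3)
  exact ⟨join2 g1 g2, ⟨isCriticalPoint_of_min hmem hnear, index_of_min hnear⟩, hen⟩

end Pool.Agent.KS6_39.TT
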