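import Pool.Agent.KS6_39.TT.Subm

open MeasureTheory Set Filter Topology
open scoped ENNReal NNReal RealInnerProductSpace ContDiff

set_option linter.unusedSectionVars false

noncomputable section

namespace Pool.Agent.KS6_39.TT

variable {V W : Type} [NormedAddCommGroup V] [InnerProductSpace ℝ V] [FiniteDimensional ℝ V]
  [NormedAddCommGroup W] [InnerProductSpace ℝ W] [FiniteDimensional ℝ W]

lemma arctan_of_cos_pos {t : ℝ} (h : 0 < Real.cos t) :
    ∃ i : ℤ, Real.arctan (Real.sin t / Real.cos t) = t - i * (2 * Real.pi) := by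
  have hπ := Real.pi_pos
  set i := round (t / (2 * Real.pi)) with hi
  set r := t - i * (2 * Real.pi) with hr
  have h1 : |t / (2 * Real.pi) - i| ≤ 1 / 2 := abs_sub_round _
  have h2 : |r| ≤ Real.pi := by
    have h3 : r = (t / (2 * Real.pi) - i) * (2 * Real.pi) := by
      rw [hr]; field_simp
    rw [h3, abs_mul, abs_of_pos (show 0 < 2 * Real.pi by positivity)]
    nlinarith
  have hc : Real.cos r = Real.cos t := by rw [hr, Real.cos_sub_int_mul_two_pi]
  have hs : Real.sin r = Real.sin t := by rw [hr, Real.sin_sub_int_mul_two_pi]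
  have h4 : |r| < Real.pi / 2 := by
    by_contra hcon
    push Not at hcon
    have h5 := Real.cos_nonpos_of_pi_div_two_le_of_le hcon (by linarith)
    rw [Real.cos_abs, hc] at h5
    linarith
  obtain ⟨h5, h6⟩ := abs_lt.mp h4
  exact ⟨i, by rw [← hs, ← hc, ← Real.tan_eq_sin_div_cos, Real.arctan_tan h5 h6]⟩

/-- The angle function near a point of the circle. -/
def afun (e : Frame V) (θ : ℝ) (x : V) : ℝ :=
  Real.arctan (⟪x, e.J (e.pt θ)⟫ / ⟪x, e.pt θ⟫)

lemma contDiffAt_afun (e : Frame V) (θ : ℝ) {x : V} (hx : 0 < ⟪x, e.pt θ⟫) :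
    ContDiffAt ℝ ∞ (afun e θ) x := by
  unfold afun
  have h1 : ContDiffAt ℝ ∞ (fun x : V => ⟪x, e.J (e.pt θ)⟫) x :=
    contDiffAt_id.inner ℝ contDiffAt_const
  have h2 : ContDiffAt ℝ ∞ (fun x : V => ⟪x, e.pt θ⟫) x :=
    contDiffAt_id.inner ℝ contDiffAt_const
  exact (h1.div h2 hx.ne').arctan

lemma afun_pt (e : Frame V) {θ φ : ℝ} (h : 0 < Real.cos (φ - θ)) :
    ∃ i : ℤ, afun e θ (e.pt φ) = φ - θ - i * (2 * Real.pi) := by
  obtain ⟨i, hi⟩ := arctan_of_cos_pos h
  refine ⟨i, ?_⟩
  unfold afun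
  rw [Frame.inner_pt_J, Frame.inner_pt]
  exact hi

lemma afun_self (e : Frame V) (θ : ℝ) : afun e θ (e.pt θ) = 0 := by
  unfold afun
  rw [Frame.inner_pt_J, Frame.inner_pt]
  simp

lemma hasDerivAt_afun (e : Frame V) (θ : ℝ) {x : V} (hx : 0 < ⟪x, e.pt θ⟫) :
    HasDerivAt (fun t : ℝ => afun e θ (x + t • e.J x)) 1 0 := by
  set X := ⟪x, e.pt θ⟫ with hX
  set Y := ⟪x, e.J (e.pt θ)⟫ with hY
  have h1 : ∀ t : ℝ, ⟪x + t • e.J x, e.J (e.pt θ)⟫ = Y + t * X := by
    intro t
    rw [inner_add_left, inner_smul_left, Frame.inner_J_left, Frame.J_J_pt, inner_neg_right]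
    simp [hX, hY]
  have h2 : ∀ t : ℝ, ⟪x + t • e.J x, e.pt θ⟫ = X - t * Y := by
    intro t
    rw [inner_add_left, inner_smul_left, Frame.inner_J_left]
    simp only [hX, hY, conj_trivial]
    ring
  have h3 : (fun t : ℝ => afun e θ (x + t • e.J x)) =
      fun t => Real.arctan ((Y + t * X) / (X - t * Y)) := by
    funext t
    unfold afun
    rw [h1, h2]
  rw [h3]
  have k1 : HasDerivAt (fun t : ℝ => Y + t * X) X 0 := by
    have := ((hasDerivAt_id (0 : ℝ)).mul_const X).const_add Y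
    rwa [one_mul] at this
  have k2 : HasDerivAt (fun t : ℝ => X - t * Y) (-Y) 0 := by
    have := ((hasDerivAt_id (0 : ℝ)).mul_const Y).const_sub X
    rwa [one_mul] at this
  have k3 := (k1.div k2 (by simpa using hx.ne')).arctan
  have k4 : 1 / (1 + ((Y + 0 * X) / (X - 0 * Y)) ^ 2) *
      ((X * (X - 0 * Y) - (Y + 0 * X) * -Y) / (X - 0 * Y) ^ 2) = 1 := by
    have hX0 : X ≠ 0 := hx.ne'
    have : X ^ 2 + Y ^ 2 ≠ 0 := by positivity
    simp only [zero_mul, add_zero, sub_zero]
    field_simp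
    ring
  rw [← k4]
  exact k3

variable (e : Frame V) (f : Frame W) (a b : ℤ)

/-- The last defining function of the closed geodesic. -/
def hfun (θ : ℝ) (x : WithLp 2 (V × W)) : ℝ :=
  b * afun e (a * θ) x.fst - a * afun f (b * θ) x.snd

lemma contDiffAt_hfun (θ : ℝ) {x : WithLp 2 (V × W)} (h1 : 0 < ⟪x.fst, e.pt (a * θ)⟫)
    (h2 : 0 < ⟪x.snd, f.pt (b * θ)⟫) : ContDiffAt ℝ ∞ (hfun e f a b θ) x := by
  unfold hfun
  have k1 : ContDiffAt ℝ ∞ (fun x : WithLp 2 (V × W) => afun e (a * θ) x.fst) x :=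
    ContDiffAt.comp (g := afun e (a * θ)) (f := fun x : WithLp 2 (V × W) => x.fst) x
      (contDiffAt_afun e (a * θ) h1) (WithLp.fstL 2 ℝ V W).contDiff.contDiffAt
  have k2 : ContDiffAt ℝ ∞ (fun x : WithLp 2 (V × W) => afun f (b * θ) x.snd) x :=
    ContDiffAt.comp (g := afun f (b * θ)) (f := fun x : WithLp 2 (V × W) => x.snd) x
      (contDiffAt_afun f (b * θ) h2) (WithLp.sndL 2 ℝ V W).contDiff.contDiffAt
  exact (contDiffAt_const.mul k1).sub (contDiffAt_const.mul k2)

lemma isSubmanifold_torusGeodesic {a b : ℤ} (ha : a ≠ 0) (hb : b ≠ 0) (hab : IsCoprime a b) :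
    IsSubmanifold (torusGeodesic e f a b) 1 := by
  have hb' : (b : ℝ) ≠ 0 := by exact_mod_cast hb
  have hπ := Real.pi_pos
  apply isSubmanifold_of (G := ((ℝ × e.perp) × (ℝ × f.perp)) × ℝ)
  · rw [finrank_VW, Module.finrank_prod, Module.finrank_prod, Module.finrank_prod,
      Module.finrank_prod, Module.finrank_self, ← e.finrank_perp, ← f.finrank_perp]; ring
  · rintro _ ⟨θ, rfl⟩
    set U₁ : Set (WithLp 2 (V × W)) :=
      {x | 0 < ⟪x.fst, e.pt (a * θ)⟫ ∧ 0 < ⟪x.snd, f.pt (b * θ)⟫} with hU₁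
    have c1 : Continuous fun x : WithLp 2 (V × W) => ⟪x.fst, e.pt (a * θ)⟫ :=
      continuous_fstVW.inner continuous_const
    have c2 : Continuous fun x : WithLp 2 (V × W) => ⟪x.snd, f.pt (b * θ)⟫ :=
      continuous_sndVW.inner continuous_const
    have hU₁o : IsOpen U₁ := (isOpen_lt continuous_const c1).inter
      (isOpen_lt continuous_const c2)
    have hcont : ContinuousOn (hfun e f a b θ) U₁ := fun x hx =>
      (contDiffAt_hfun e f a b θ hx.1 hx.2).continuousAt.continuousWithinAt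
    refine ⟨U₁ ∩ hfun e f a b θ ⁻¹' Ioo (-(2 * Real.pi)) (2 * Real.pi),
      fun x => (tmap e f x, hfun e f a b θ x), hcont.isOpen_inter_preimage hU₁o isOpen_Ioo,
      ⟨⟨?_, ?_⟩, ?_⟩, ?_, ?_, ?_⟩
    · change 0 < ⟪e.pt (a * θ), e.pt (a * θ)⟫
      rw [Frame.inner_pt]; simp
    · change 0 < ⟪f.pt (b * θ), f.pt (b * θ)⟫
      rw [Frame.inner_pt]; simp
    · change b * afun e (a * θ) (e.pt (a * θ)) - a * afun f (b * θ) (f.pt (b * θ)) ∈
        Ioo (-(2 * Real.pi)) (2 * Real.pi)
      rw [afun_self, afun_self, mul_zero, mul_zero, sub_zero]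
      constructor <;> linarith
    · intro x hx
      exact ((contDiff_tmap e f).contDiffAt.prodMk
        (contDiffAt_hfun e f a b θ hx.1.1 hx.1.2)).contDiffWithinAt
    · rintro y ⟨⟨hy1, hy2⟩, hy3⟩
      have key : ∀ x₁ x₂ : ℝ, y = pairL (e.pt x₁, f.pt x₂) → ∃ k : ℤ,
          hfun e f a b θ y = b * x₁ - a * x₂ - k * (2 * Real.pi) := by
        rintro x₁ x₂ rfl
        rw [pairL_fst] at hy1
        rw [pairL_snd] at hy2
        dsimp only at hy1 hy2
        rw [Frame.inner_pt] at hy1 hy2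
        obtain ⟨i, hi⟩ := afun_pt e hy1
        obtain ⟨j, hj⟩ := afun_pt f hy2
        refine ⟨b * i - a * j, ?_⟩
        unfold hfun
        rw [pairL_fst, pairL_snd]
        dsimp only
        rw [hi, hj]
        push_cast
        ring
      have hint : ∀ k : ℤ, hfun e f a b θ y = k * (2 * Real.pi) → hfun e f a b θ y = 0 := by
        intro k hk
        have h1 := hy3
        rw [mem_preimage, hk, mem_Ioo] at h1
        have h2 : |(k : ℝ)| < 1 := by
          rw [abs_lt]
          constructor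
          · by_contra hcon; push Not at hcon; nlinarith [h1.1]
          · by_contra hcon; push Not at hcon; nlinarith [h1.2]
        have h3 : |k| < 1 := by exact_mod_cast h2
        rw [hk, Int.abs_lt_one_iff.mp h3]; simp
      rw [Prod.mk_eq_zero, tmap_eq_zero]
      constructor
      · intro hy
        refine ⟨torusGeodesic_subset e f a b hy, ?_⟩
        obtain ⟨φ, hφ⟩ := hy
        have hφ' : y = pairL (e.pt (a * φ), f.pt (b * φ)) := hφ.symm
        obtain ⟨k, hk⟩ := key _ _ hφ'
        apply hint (-k)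
        rw [hk]; push_cast; ring
      · rintro ⟨⟨⟨x₁, x₂⟩, hx⟩, h0⟩
        have hx' : y = pairL (e.pt x₁, f.pt x₂) := hx.symm
        obtain ⟨k, hk⟩ := key _ _ hx'
        rw [hx', mem_geodesic_iff ha hab]
        rw [h0] at hk
        exact ⟨k, by linarith⟩
    · rintro y ⟨⟨hy1, hy2⟩, hy3⟩ ⟨⟨⟨s1, k1⟩, ⟨s2, k2⟩⟩, r⟩
      have n1 : e.pr y.fst ≠ 0 := by
        intro h
        rw [← e.pr_pt, ← Frame.inner_pr_left, h, inner_zero_left] at hy1
        exact lt_irrefl _ hy1
      have n2 : f.pr y.snd ≠ 0 := by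
        intro h
        rw [← f.pr_pt, ← Frame.inner_pr_left, h, inner_zero_left] at hy2
        exact lt_irrefl _ hy2
      obtain ⟨w1, a1, b1⟩ := exists_solve e n1 s1 k1
      obtain ⟨w2, a2, b2⟩ := exists_solve f n2 s2 k2
      have hd : DifferentiableAt ℝ (hfun e f a b θ) y :=
        (contDiffAt_hfun e f a b θ hy1 hy2).differentiableAt (by simp)
      set j : WithLp 2 (V × W) := pairL (e.J y.fst, 0) with hj
      have hdj : fderiv ℝ (hfun e f a b θ) y j = b := by
        refine (hasDerivAt_comp_along hd j).unique ?_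
        have h1 : (fun t : ℝ => hfun e f a b θ (y + t • j)) =
            fun t => b * afun e (a * θ) (y.fst + t • e.J y.fst) - a * afun f (b * θ) y.snd := by
          funext t
          unfold hfun
          have e1 : (y + t • j).fst = y.fst + t • e.J y.fst := rfl
          have e2 : (y + t • j).snd = y.snd + t • (0 : W) := rfl
          rw [e1, e2, smul_zero, add_zero]
        rw [h1]
        have h2 := ((hasDerivAt_afun e (a * θ) hy1).const_mul (b : ℝ)).sub_const
          (a * afun f (b * θ) y.snd)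
        rwa [mul_one] at h2
      set w : WithLp 2 (V × W) := pairL (w1, w2) with hw
      set B : ℝ := (r - fderiv ℝ (hfun e f a b θ) y w) / b with hB
      refine ⟨w + B • j, ?_⟩
      have h1 := hasDerivAt_tmap e f y (w + B • j)
      have h2 := hasDerivAt_comp_along hd (w + B • j)
      rw [map_add, map_smul, hdj, smul_eq_mul, hB, div_mul_cancel₀ _ hb',
        add_sub_cancel] at h2
      have e1 : (w + B • j).fst = w1 + B • e.J y.fst := rfl
      have e2 : (w + B • j).snd = w2 + B • (0 : W) := rfl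
      have e3 : e.qr (e.J y.fst) = 0 := by
        apply Subtype.ext
        rw [Frame.qr_coe, Frame.pr_J, sub_self]; rfl
      rw [e1, e2, smul_zero, add_zero, map_add, map_smul, e3, smul_zero, add_zero,
        inner_add_right, inner_smul_right, real_inner_comm (e.J y.fst) y.fst,
        Frame.inner_J_self, mul_zero, add_zero, a1, b1, a2, b2] at h1
      exact h1.prodMk h2

end Pool.Agent.KS6_39.TT
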