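import Pool.Agent.KS6_39.TT.Count
import Pool.Agent.KS6_39.TT.Subm2

open MeasureTheory Set Filter Topology
open scoped ENNReal NNReal RealInnerProductSpace ContDiff

set_option linter.unusedSectionVars false

noncomputable section

namespace Pool.Agent.KS6_39.TT

variable {V W : Type} [NormedAddCommGroup V] [InnerProductSpace ℝ V] [FiniteDimensional ℝ V]
  [NormedAddCommGroup W] [InnerProductSpace ℝ W] [FiniteDimensional ℝ W]

/-- The defect of tautness. -/
lemma exists_defect (hV : 3 ≤ Module.finrank ℝ V) (hW : 3 ≤ Module.finrank ℝ W)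
    (e : Frame V) (f : Frame W) {a b : ℤ} (ha : a ≠ 0) (hb : b ≠ 0) (hab : IsCoprime a b) :
    ∃ p ∈ sphereProd V W, ¬ IsFocal (sphereProd V W) (torusGeodesic e f a b) p ∧
      (∀ (F : Type) [Field F],
        betti F (pathSpace (sphereProd V W) (torusGeodesic e f a b) p) 0 = 1) ∧
      ((max 2 (max a.natAbs b.natAbs) : ℕ) : ℕ∞) ≤
        {g | IsCriticalPoint (pathSpace (sphereProd V W) (torusGeodesic e f a b) p) g ∧
          index (pathSpace (sphereProd V W) (torusGeodesic e f a b) p) g = 0}.encard := by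
  obtain ⟨N, hN2, hNa, hNb, hN⟩ : ∃ N : ℤ, 2 ≤ N ∧ |a| ≤ N ∧ |b| ≤ N ∧
      (N = 2 ∨ N = |a| ∨ N = |b|) := by
    refine ⟨max 2 (max |a| |b|), by simp, by simp, by simp, ?_⟩
    rcases max_choice 2 (max |a| |b|) with h | h
    · left; exact h
    · rcases max_choice |a| |b| with h' | h'
      · right; left; rw [h, h']
      · right; right; rw [h, h']
  have ha1 : 1 ≤ |a| := Int.one_le_abs ha
  have hb1 : 1 ≤ |b| := Int.one_le_abs hb
  have hsq : N ^ 2 ≤ a ^ 2 + b ^ 2 ∨ (N = 2 ∧ |a| = 1 ∧ |b| = 1) := by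
    rcases hN with h | h | h
    · by_cases h1 : |a| = 1 ∧ |b| = 1
      · right; exact ⟨h, h1⟩
      · left
        rw [← sq_abs a, ← sq_abs b, h]
        by_cases h2 : |a| = 1
        · have : |b| = 2 := by
            have : |b| ≠ 1 := fun h3 => h1 ⟨h2, h3⟩
            omega
          rw [h2, this]; norm_num
        · have : |a| = 2 := by omega
          rw [this]; nlinarith
    · left; rw [h, sq_abs]; nlinarith [sq_nonneg b]
    · left; rw [h, sq_abs]; nlinarith [sq_nonneg a]
  set K : Finset ℤ := Finset.Icc (-((N - 1) / 2)) (N / 2) with hKdef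
  have hcard : (K.card : ℤ) = N := by
    rw [hKdef, Int.card_Icc, Int.toNat_of_nonneg (by omega)]
    omega
  have hK : ∀ k ∈ K, |a| * |4 * k - 1| < 2 * (a ^ 2 + b ^ 2) ∧
      |b| * |4 * k - 1| < 2 * (a ^ 2 + b ^ 2) := by
    intro k hk
    rw [hKdef, Finset.mem_Icc] at hk
    have h1 : |4 * k - 1| ≤ 2 * N - 1 := by
      rw [abs_le]; omega
    have h0 : 0 ≤ |4 * k - 1| := abs_nonneg _
    rcases hsq with h | ⟨h2, h3, h4⟩
    · constructor
      · calc |a| * |4 * k - 1| ≤ N * (2 * N - 1) := mul_le_mul hNa h1 h0 (by omega)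
          _ < 2 * (a ^ 2 + b ^ 2) := by nlinarith
      · calc |b| * |4 * k - 1| ≤ N * (2 * N - 1) := mul_le_mul hNb h1 h0 (by omega)
          _ < 2 * (a ^ 2 + b ^ 2) := by nlinarith
    · rw [← sq_abs a, ← sq_abs b, h3, h4]
      rw [h2] at h1
      constructor <;> linarith
  obtain ⟨p, hpO, hpS, hpF⟩ := exists_not_focal hV hW e f ha hab _ _
    (count_near (by omega) (by omega) e f ha hb hab K hK)
  refine ⟨p, hpS, hpF, fun F _ => ?_, ?_⟩
  · have hpc : PathConnectedSpace (pathSpace (sphereProd V W) (torusGeodesic e f a b) p) :=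
      isPathConnected_iff_pathConnectedSpace.mp (isPathConnected_pathSpace hV hW e f a b hpS)
    exact betti_zero F _
  · have h1 : max 2 (max a.natAbs b.natAbs) = K.card := by
      have h2 : (a.natAbs : ℤ) = |a| := Int.natCast_natAbs a
      have h3 : (b.natAbs : ℤ) = |b| := Int.natCast_natAbs b
      omega
    rw [h1]
    exact hpO hpS

lemma not_isTaut (hV : 3 ≤ Module.finrank ℝ V) (hW : 3 ≤ Module.finrank ℝ W)
    (e : Frame V) (f : Frame W) {a b : ℤ} (ha : a ≠ 0) (hb : b ≠ 0) (hab : IsCoprime a b) :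
    ¬ IsTaut (sphereProd V W) (torusGeodesic e f a b) := by
  rintro ⟨F, _, h⟩
  obtain ⟨p, hpS, hpF, hbetti, hcount⟩ := exists_defect hV hW e f ha hb hab
  have h1 := h p hpS hpF 0
  rw [hbetti F] at h1
  have h2 : ((max 2 (max a.natAbs b.natAbs) : ℕ) : ℕ∞) ≤ 1 := by
    rw [← h1]
    exact hcount
  have h3 : max 2 (max a.natAbs b.natAbs) ≤ 1 := by exact_mod_cast h2
  omega

end Pool.Agent.KS6_39.TT
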