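import Pool.Agent.KS6_39.TT.Lift

open MeasureTheory Set Filter Topology
open scoped ENNReal NNReal RealInnerProductSpace ContDiff

set_option linter.unusedSectionVars false

noncomputable section

namespace Pool.Agent.KS6_39.TT

variable {V W : Type} [NormedAddCommGroup V] [InnerProductSpace ℝ V] [FiniteDimensional ℝ V]
  [NormedAddCommGroup W] [InnerProductSpace ℝ W] [FiniteDimensional ℝ W]

instance instContinuousSMulVW : ContinuousSMul ℝ (WithLp 2 (V × W)) :=
  IsBoundedSMul.continuousSMul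

lemma hasDerivAt_fst {c : ℝ → WithLp 2 (V × W)} {v : WithLp 2 (V × W)} {s : ℝ}
    (h : HasDerivAt c v s) : HasDerivAt (fun s => (c s).fst) v.fst s :=
  (WithLp.fstL 2 ℝ V W).hasFDerivAt.comp_hasDerivAt s h

lemma hasDerivAt_snd {c : ℝ → WithLp 2 (V × W)} {v : WithLp 2 (V × W)} {s : ℝ}
    (h : HasDerivAt c v s) : HasDerivAt (fun s => (c s).snd) v.snd s :=
  (WithLp.sndL 2 ℝ V W).hasFDerivAt.comp_hasDerivAt s h

/-- Pairing as a continuous linear map. -/
def pairL : V × W →L[ℝ] WithLp 2 (V × W) := (WithLp.prodContinuousLinearEquiv 2 ℝ V W).symm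

@[simp] lemma pairL_fst (x : V × W) : (pairL x).fst = x.1 := rfl
@[simp] lemma pairL_snd (x : V × W) : (pairL x).snd = x.2 := rfl

lemma pairL_eq (x : WithLp 2 (V × W)) : pairL (x.fst, x.snd) = x := rfl

lemma toLp_eq (x : V × W) : WithLp.toLp 2 x = pairL x := rfl

lemma pairL_inj {x y : V × W} : (pairL x : WithLp 2 (V × W)) = pairL y ↔ x = y :=
  (WithLp.prodContinuousLinearEquiv 2 ℝ V W).symm.injective.eq_iff

lemma hasDerivAt_pair {c : ℝ → V} {d : ℝ → W} {v : V} {w : W} {s : ℝ} (hc : HasDerivAt c v s)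
    (hd : HasDerivAt d w s) : HasDerivAt (fun s => pairL (c s, d s)) (pairL (v, w)) s :=
  (pairL : V × W →L[ℝ] WithLp 2 (V × W)).hasFDerivAt.comp_hasDerivAt s (hc.prodMk hd)

lemma innerVW (x y : WithLp 2 (V × W)) : ⟪x, y⟫ = ⟪x.fst, y.fst⟫ + ⟪x.snd, y.snd⟫ :=
  WithLp.prod_inner_apply x y

lemma continuous_fstVW : Continuous fun x : WithLp 2 (V × W) => x.fst :=
  (WithLp.fstL 2 ℝ V W).continuous
lemma continuous_sndVW : Continuous fun x : WithLp 2 (V × W) => x.snd :=
  (WithLp.sndL 2 ℝ V W).continuous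

/-- Joining the two components. -/
def join2 (g : L2 V) (h : L2 W) : L2 (WithLp 2 (V × W)) :=
  lin (pairL.comp (ContinuousLinearMap.inl ℝ V W)) g +
    lin (pairL.comp (ContinuousLinearMap.inr ℝ V W)) h

lemma continuous_join2 : Continuous fun z : L2 V × L2 W => join2 z.1 z.2 :=
  ((continuous_lin _).comp continuous_fst).add ((continuous_lin _).comp continuous_snd)

lemma join2_ae (g : L2 V) (h : L2 W) : ∀ᵐ τ, join2 g h τ = pairL (g τ, h τ) := by
  filter_upwards [Lp.coeFn_add (lin (pairL.comp (ContinuousLinearMap.inl ℝ V W)) g)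
    (lin (pairL.comp (ContinuousLinearMap.inr ℝ V W)) h),
    lin_ae (pairL.comp (ContinuousLinearMap.inl ℝ V W)) g,
    lin_ae (pairL.comp (ContinuousLinearMap.inr ℝ V W)) h] with τ h1 h2 h3
  unfold join2
  rw [h1, Pi.add_apply, h2, h3, ContinuousLinearMap.comp_apply, ContinuousLinearMap.comp_apply,
    ← map_add]
  simp

lemma path_join2 (p : V) (q : W) (g : L2 V) (h : L2 W) (t : unitInterval) :
    path (pairL (p, q)) (join2 g h) t = pairL (path p g t, path q h t) := by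
  have h1 := path_lin (pairL.comp (ContinuousLinearMap.inl ℝ V W)) p g t
  have h2 := path_lin (pairL.comp (ContinuousLinearMap.inr ℝ V W)) q h t
  have h3 := path_add (pairL.comp (ContinuousLinearMap.inl ℝ V W) p)
    (pairL.comp (ContinuousLinearMap.inr ℝ V W) q)
    (lin (pairL.comp (ContinuousLinearMap.inl ℝ V W)) g)
    (lin (pairL.comp (ContinuousLinearMap.inr ℝ V W)) h) t
  rw [h1, h2] at h3
  simp only [ContinuousLinearMap.comp_apply] at h3
  rw [← map_add, ← map_add] at h3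
  unfold join2
  simpa using h3

/-- First component. -/
def comp1 (g : L2 (WithLp 2 (V × W))) : L2 V := lin (WithLp.fstL 2 ℝ V W) g
/-- Second component. -/
def comp2 (g : L2 (WithLp 2 (V × W))) : L2 W := lin (WithLp.sndL 2 ℝ V W) g

lemma path_comp1 (p : WithLp 2 (V × W)) (g : L2 (WithLp 2 (V × W))) (t : unitInterval) :
    path p.fst (comp1 g) t = (path p g t).fst := path_lin (WithLp.fstL 2 ℝ V W) p g t

lemma path_comp2 (p : WithLp 2 (V × W)) (g : L2 (WithLp 2 (V × W))) (t : unitInterval) :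
    path p.snd (comp2 g) t = (path p g t).snd := path_lin (WithLp.sndL 2 ℝ V W) p g t

lemma join2_comp (g : L2 (WithLp 2 (V × W))) : join2 (comp1 g) (comp2 g) = g := by
  apply Lp.ext
  filter_upwards [join2_ae (comp1 g) (comp2 g), lin_ae (WithLp.fstL 2 ℝ V W) g,
    lin_ae (WithLp.sndL 2 ℝ V W) g] with τ h1 h2 h3
  have h2' : comp1 g τ = (g τ).fst := h2
  have h3' : comp2 g τ = (g τ).snd := h3
  rw [h1, h2', h3']
  exact pairL_eq _

lemma comp1_join2 (g : L2 V) (h : L2 W) : comp1 (join2 g h) = g := by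
  apply Lp.ext
  filter_upwards [lin_ae (WithLp.fstL 2 ℝ V W) (join2 g h), join2_ae g h] with τ h1 h2
  have h3 : comp1 (join2 g h) τ = (join2 g h τ).fst := h1
  rw [h3, h2]; rfl

lemma comp2_join2 (g : L2 V) (h : L2 W) : comp2 (join2 g h) = h := by
  apply Lp.ext
  filter_upwards [lin_ae (WithLp.sndL 2 ℝ V W) (join2 g h), join2_ae g h] with τ h1 h2
  have h3 : comp2 (join2 g h) τ = (join2 g h τ).snd := h1
  rw [h3, h2]; rfl

lemma energy_integrable (g : L2 V) :
    Integrable (fun t => ‖g t‖ ^ 2) (volume : Measure unitInterval) :=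
  (Lp.memLp g).integrable_norm_pow (by norm_num)

lemma energy_join2 (g : L2 V) (h : L2 W) : energy (join2 g h) = energy g + energy h := by
  unfold energy
  rw [← integral_add (energy_integrable g) (energy_integrable h)]
  apply integral_congr_ae
  filter_upwards [join2_ae g h] with τ h1
  rw [h1, WithLp.prod_norm_sq_eq_of_L2]
  rfl

/-- A rational parametrisation of the curve on the sphere through `x` with velocity `v`. -/
def ratCurve (x v : V) (s : ℝ) : V :=
  (1 + s ^ 2 * (‖v‖ ^ 2 / 4))⁻¹ • ((1 - s ^ 2 * (‖v‖ ^ 2 / 4)) • x + s • v)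

lemma ratCurve_zero (x v : V) : ratCurve x v 0 = x := by simp [ratCurve]

lemma norm_ratCurve {x v : V}
    (hx : ‖x‖ = 1) (hv : ⟪x, v⟫ = 0) (s : ℝ) : ‖ratCurve x v s‖ = 1 := by
  have h : ‖(1 - s ^ 2 * (‖v‖ ^ 2 / 4)) • x + s • v‖ ^ 2 = (1 + s ^ 2 * (‖v‖ ^ 2 / 4)) ^ 2 := by
    rw [norm_add_sq_real, norm_smul, norm_smul, inner_smul_left, inner_smul_right, hv, hx]
    simp only [Real.norm_eq_abs, mul_pow, sq_abs]
    ring
  have h2 : ‖(1 - s ^ 2 * (‖v‖ ^ 2 / 4)) • x + s • v‖ = 1 + s ^ 2 * (‖v‖ ^ 2 / 4) := by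
    rw [← sq_eq_sq₀ (norm_nonneg _) (by positivity)]
    exact h
  unfold ratCurve
  rw [norm_smul, h2, norm_inv, Real.norm_eq_abs, abs_of_pos (by positivity)]
  exact inv_mul_cancel₀ (by positivity)

lemma hasDerivAt_ratCurve (x v : V) :
    HasDerivAt (ratCurve x v) v 0 := by
  have h1 : HasDerivAt (fun s : ℝ => s ^ 2 * (‖v‖ ^ 2 / 4)) 0 0 := by
    have := (hasDerivAt_pow 2 (0 : ℝ)).mul_const (‖v‖ ^ 2 / 4)
    simpa using this
  have h2 : HasDerivAt (fun s : ℝ => (1 + s ^ 2 * (‖v‖ ^ 2 / 4))⁻¹) 0 0 := by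
    have h := (h1.const_add 1).inv (by simp)
    have e : -0 / (1 + (0 : ℝ) ^ 2 * (‖v‖ ^ 2 / 4)) ^ 2 = 0 := by simp
    rw [e] at h
    exact h
  have h3 : HasDerivAt (fun s : ℝ => (1 - s ^ 2 * (‖v‖ ^ 2 / 4)) • x + s • v) v 0 := by
    have h := ((h1.const_sub 1).smul_const x).add ((hasDerivAt_id (0 : ℝ)).smul_const v)
    have e : (-(0 : ℝ)) • x + (1 : ℝ) • v = v := by simp
    rw [e] at h
    exact h
  have h := h2.smul h3
  have e : (1 + (0 : ℝ) ^ 2 * (‖v‖ ^ 2 / 4))⁻¹ • v +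
    (0 : ℝ) • ((1 - (0 : ℝ) ^ 2 * (‖v‖ ^ 2 / 4)) • x + (0 : ℝ) • v) = v := by simp
  rw [e] at h
  exact h

lemma inner_of_sphere {c : ℝ → V}
    {v : V} (hc : ∀ s, ‖c s‖ = 1) (h : HasDerivAt c v 0) : ⟪c 0, v⟫ = 0 := by
  have h3 := h.inner ℝ h
  have h4 : (fun t => ⟪c t, c t⟫) = fun _ => (1 : ℝ) := by
    funext t; rw [real_inner_self_eq_norm_sq, hc]; norm_num
  rw [h4] at h3
  have h5 := h3.unique (hasDerivAt_const 0 (1 : ℝ))
  rw [real_inner_comm (c 0) v] at h5
  linarith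

lemma tangent_sphereProd {x : WithLp 2 (V × W)} (hx : x ∈ sphereProd V W)
    (v : WithLp 2 (V × W)) :
    v ∈ tangent (sphereProd V W) x ↔ ⟪x.fst, v.fst⟫ = 0 ∧ ⟪x.snd, v.snd⟫ = 0 := by
  constructor
  · rintro ⟨c, hc, h0, hv⟩
    have h1 := inner_of_sphere (fun s => (hc s).1) (hasDerivAt_fst hv)
    have h2 := inner_of_sphere (fun s => (hc s).2) (hasDerivAt_snd hv)
    rw [h0] at h1 h2
    exact ⟨h1, h2⟩
  · rintro ⟨h1, h2⟩
    refine ⟨fun s => pairL (ratCurve x.fst v.fst s, ratCurve x.snd v.snd s), ?_, ?_, ?_⟩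
    · intro s
      exact ⟨norm_ratCurve hx.1 h1 s, norm_ratCurve hx.2 h2 s⟩
    · simp only [ratCurve_zero]; rfl
    · exact hasDerivAt_pair (hasDerivAt_ratCurve _ _) (hasDerivAt_ratCurve _ _)

lemma geodesic_fst {c : ℝ → WithLp 2 (V × W)} (hc : IsGeodesic (sphereProd V W) c) :
    (c 1).fst = Real.cos ‖(deriv c 0).fst‖ • (c 0).fst +
      Real.sinc ‖(deriv c 0).fst‖ • (deriv c 0).fst := by
  obtain ⟨h1, h2, h3⟩ := hc
  have hc' : ContDiff ℝ ∞ (deriv c) := ((contDiff_infty_iff_deriv).mp h1).2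
  have hd : ∀ t, HasDerivAt (fun t => (c t).fst) (deriv c t).fst t := fun t =>
    hasDerivAt_fst ((h1.differentiable (by simp)) t).hasDerivAt
  have hd' : ∀ t, HasDerivAt (fun t => (deriv c t).fst) (deriv (deriv c) t).fst t := fun t =>
    hasDerivAt_fst ((hc'.differentiable (by simp)) t).hasDerivAt
  have e1 : deriv (fun t => (c t).fst) = fun t => (deriv c t).fst := funext fun t => (hd t).deriv
  have e2 : deriv (fun t => (deriv c t).fst) = fun t => (deriv (deriv c) t).fst :=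
    funext fun t => (hd' t).deriv
  have hs : ContDiff ℝ ∞ (fun t => (c t).fst) := (WithLp.fstL 2 ℝ V W).contDiff.comp h1
  have key := geodesic_formula hs (fun t => (h2 t).1) (by
    intro t v hv
    rw [e1, e2]
    have h4 := h3 t (pairL (v, 0)) ((tangent_sphereProd (h2 t) _).mpr (by simpa using hv))
    rw [WithLp.prod_inner_apply] at h4
    simpa using h4)
  rw [e1] at key
  exact key

lemma geodesic_snd {c : ℝ → WithLp 2 (V × W)} (hc : IsGeodesic (sphereProd V W) c) :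
    (c 1).snd = Real.cos ‖(deriv c 0).snd‖ • (c 0).snd +
      Real.sinc ‖(deriv c 0).snd‖ • (deriv c 0).snd := by
  obtain ⟨h1, h2, h3⟩ := hc
  have hc' : ContDiff ℝ ∞ (deriv c) := ((contDiff_infty_iff_deriv).mp h1).2
  have hd : ∀ t, HasDerivAt (fun t => (c t).snd) (deriv c t).snd t := fun t =>
    hasDerivAt_snd ((h1.differentiable (by simp)) t).hasDerivAt
  have hd' : ∀ t, HasDerivAt (fun t => (deriv c t).snd) (deriv (deriv c) t).snd t := fun t =>
    hasDerivAt_snd ((hc'.differentiable (by simp)) t).hasDerivAt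
  have e1 : deriv (fun t => (c t).snd) = fun t => (deriv c t).snd := funext fun t => (hd t).deriv
  have e2 : deriv (fun t => (deriv c t).snd) = fun t => (deriv (deriv c) t).snd :=
    funext fun t => (hd' t).deriv
  have hs : ContDiff ℝ ∞ (fun t => (c t).snd) := (WithLp.sndL 2 ℝ V W).contDiff.comp h1
  have key := geodesic_formula hs (fun t => (h2 t).2) (by
    intro t v hv
    rw [e1, e2]
    have h4 := h3 t (pairL (0, v)) ((tangent_sphereProd (h2 t) _).mpr (by simpa using hv))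
    rw [WithLp.prod_inner_apply] at h4
    simpa using h4)
  rw [e1] at key
  exact key

end Pool.Agent.KS6_39.TT
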