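import Pool.Agent.KS6_39.TT.Loc

open MeasureTheory Set Filter Topology
open scoped ENNReal NNReal RealInnerProductSpace ContDiff

set_option linter.unusedSectionVars false

noncomputable section

namespace Pool.Agent.KS6_39.TT

variable {V W : Type} [NormedAddCommGroup V] [InnerProductSpace ℝ V] [FiniteDimensional ℝ V]
  [NormedAddCommGroup W] [InnerProductSpace ℝ W] [FiniteDimensional ℝ W]

lemma differentiableAt_sinc {r : ℝ} (hr : r ≠ 0) : DifferentiableAt ℝ Real.sinc r := by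
  have h1 := (Real.hasDerivAt_sin r).div (hasDerivAt_id r) hr
  have h2 : (fun z => Real.sin z / z) =ᶠ[𝓝 r] Real.sinc := by
    filter_upwards [isOpen_ne.mem_nhds hr] with z hz
    rw [Real.sinc_of_ne_zero hz]
  exact (h1.congr_of_eventuallyEq (f₁ := Real.sinc) h2.symm).differentiableAt

/-- The exponential map of the sphere. -/
def sexp (x u : V) : V := Real.cos ‖u‖ • x + Real.sinc ‖u‖ • u

lemma sexp_zero (x : V) : sexp x 0 = x := by simp [sexp]

lemma differentiableAt_sexp {F : Type} [NormedAddCommGroup F] [NormedSpace ℝ F] {x u : F → V}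
    {ξ : F} (hx : DifferentiableAt ℝ x ξ) (hu : DifferentiableAt ℝ u ξ) (h0 : u ξ ≠ 0) :
    DifferentiableAt ℝ (fun ξ => sexp (x ξ) (u ξ)) ξ := by
  unfold sexp
  have hn : DifferentiableAt ℝ (fun ξ => ‖u ξ‖) ξ := hu.norm ℝ h0
  have h1 : DifferentiableAt ℝ (fun ξ => Real.cos ‖u ξ‖) ξ := hn.cos
  have h2 : DifferentiableAt ℝ (fun ξ => Real.sinc ‖u ξ‖) ξ :=
    DifferentiableAt.comp (g := Real.sinc) (f := fun ξ => ‖u ξ‖) ξ
      (differentiableAt_sinc (norm_ne_zero_iff.mpr h0)) hn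
  exact (h1.smul hx).add (h2.smul hu)

section
variable (e : Frame V) (f : Frame W) (a b : ℤ)

/-- The first component of the normal vector with given parameters. -/
def nu1 (ξ : V × W) : V :=
  (b * ⟪ξ.2, f.e₁⟫) • e.J (e.pt (a * ⟪ξ.1, e.e₁⟫)) + (ξ.1 - e.pr ξ.1)

/-- The second component of the normal vector with given parameters. -/
def nu2 (ξ : V × W) : W :=
  (-(a * ⟪ξ.2, f.e₁⟫)) • f.J (f.pt (b * ⟪ξ.1, e.e₁⟫)) + (ξ.2 - f.pr ξ.2)

/-- The cone over the normal exponential map. -/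
def Psi (ξ : V × W) : V × W :=
  (⟪ξ.1, e.e₂⟫ • sexp (e.pt (a * ⟪ξ.1, e.e₁⟫)) (nu1 e f a b ξ),
    ⟪ξ.2, f.e₂⟫ • sexp (f.pt (b * ⟪ξ.1, e.e₁⟫)) (nu2 e f a b ξ))

lemma diff_in1 (v : V) : Differentiable ℝ fun ξ : V × W => ⟪ξ.1, v⟫ :=
  differentiable_fst.inner ℝ (differentiable_const v)

lemma diff_in2 (v : W) : Differentiable ℝ fun ξ : V × W => ⟪ξ.2, v⟫ :=
  differentiable_snd.inner ℝ (differentiable_const v)

lemma diff_pt1 (c : ℝ) : Differentiable ℝ fun ξ : V × W => e.pt (c * ⟪ξ.1, e.e₁⟫) :=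
  ((e.contDiff_pt (n := 1)).differentiable (by norm_num)).comp ((diff_in1 e.e₁).const_mul c)

lemma diff_pt2 (c : ℝ) : Differentiable ℝ fun ξ : V × W => f.pt (c * ⟪ξ.1, e.e₁⟫) :=
  ((f.contDiff_pt (n := 1)).differentiable (by norm_num)).comp ((diff_in1 e.e₁).const_mul c)

lemma diff_nu1 : Differentiable ℝ (nu1 e f a b) := by
  unfold nu1
  exact (((diff_in2 f.e₁).const_mul (b : ℝ)).smul (e.J.differentiable.comp (diff_pt1 e a))).add
    (differentiable_fst.sub (e.pr.differentiable.comp differentiable_fst))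

lemma diff_nu2 : Differentiable ℝ (nu2 e f a b) := by
  unfold nu2
  exact ((((diff_in2 f.e₁).const_mul (a : ℝ)).neg).smul
    (f.J.differentiable.comp (diff_pt2 e f b))).add
    (differentiable_snd.sub (f.pr.differentiable.comp differentiable_snd))

lemma diff_Psi {ξ : V × W} (h1 : nu1 e f a b ξ ≠ 0) (h2 : nu2 e f a b ξ ≠ 0) :
    DifferentiableAt ℝ (Psi e f a b) ξ := by
  unfold Psi
  exact (((diff_in1 e.e₂) ξ).smul (differentiableAt_sexp (diff_pt1 e a ξ)
    (diff_nu1 e f a b ξ) h1)).prodMk (((diff_in2 f.e₂) ξ).smul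
      (differentiableAt_sexp (diff_pt2 e f b ξ) (diff_nu2 e f a b ξ) h2))

/-- The parametrisation of the normal bundle. -/
def Gam (ξ : V × W) : WithLp 2 (V × W) × WithLp 2 (V × W) :=
  (pairL (e.pt (a * ⟪ξ.1, e.e₁⟫), f.pt (b * ⟪ξ.1, e.e₁⟫)),
    pairL (nu1 e f a b ξ, nu2 e f a b ξ))

lemma diff_Gam : Differentiable ℝ (Gam e f a b) := by
  unfold Gam
  exact ((pairL : V × W →L[ℝ] WithLp 2 (V × W)).differentiable.comp
    ((diff_pt1 e a).prodMk (diff_pt2 e f b))).prodMk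
    ((pairL : V × W →L[ℝ] WithLp 2 (V × W)).differentiable.comp
      ((diff_nu1 e f a b).prodMk (diff_nu2 e f a b)))

/-- The set of critical points of the cone over the normal exponential map. -/
def bad : Set (V × W) :=
  {ξ | DifferentiableAt ℝ (Psi e f a b) ξ ∧ (fderiv ℝ (Psi e f a b) ξ).det = 0}

lemma det_eq_zero {F : Type} [NormedAddCommGroup F] [NormedSpace ℝ F] [FiniteDimensional ℝ F]
    (L : F →L[ℝ] F) {x : F} (hx : x ≠ 0) (h : L x = 0) : L.det = 0 := by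
  by_contra hdet
  have hu : IsUnit (L : F →ₗ[ℝ] F) := by
    rw [LinearMap.isUnit_iff_isUnit_det]
    exact isUnit_iff_ne_zero.mpr hdet
  have hinj := ((Module.End.isUnit_iff _).mp hu).1
  exact hx (hinj (by simpa using h))

lemma tangent_mm (θ : ℝ) : (pairL ((a : ℝ) • e.J (e.pt (a * θ)), (b : ℝ) • f.J (f.pt (b * θ))) :
    WithLp 2 (V × W)) ∈ tangent (torusGeodesic e f a b) (mm e f a b θ) := by
  refine ⟨fun s => mm e f a b (θ + s), fun s => mm_mem _ _ _ _ _, by simp, ?_⟩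
  unfold mm
  have h : ∀ c : ℤ, HasDerivAt (fun s : ℝ => (c : ℝ) * (θ + s)) (c : ℝ) 0 := by
    intro c
    have := ((hasDerivAt_id (0 : ℝ)).const_add θ).const_mul (c : ℝ)
    rwa [mul_one] at this
  have h1 : HasDerivAt (fun s : ℝ => e.pt (a * (θ + s))) ((a : ℝ) • e.J (e.pt (a * θ))) 0 := by
    have h2 := e.hasDerivAt_pt (a * (θ + 0))
    have h3 := HasDerivAt.scomp (0 : ℝ) h2 (h a)
    rwa [add_zero] at h3
  have h1' : HasDerivAt (fun s : ℝ => f.pt (b * (θ + s))) ((b : ℝ) • f.J (f.pt (b * θ))) 0 := by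
    have h2 := f.hasDerivAt_pt (b * (θ + 0))
    have h3 := HasDerivAt.scomp (0 : ℝ) h2 (h b)
    rwa [add_zero] at h3
  exact hasDerivAt_pair h1 h1'

end


namespace Frame
variable (e : Frame V)

lemma pr_e1 : e.pr e.e₁ = e.e₁ := by
  rw [pr_apply, e.i11, e.i21]; simp

lemma pr_e2 : e.pr e.e₂ = e.e₂ := by
  rw [pr_apply, e.i12, e.i22]; simp

/-- A vector with given coordinates. -/
def xi (θ r : ℝ) (u : V) : V := θ • e.e₁ + r • e.e₂ + (u - e.pr u)

lemma inner_perp_e1 (u : V) : ⟪u - e.pr u, e.e₁⟫ = 0 := by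
  rw [inner_sub_left, inner_pr_left, pr_e1, sub_self]

lemma inner_perp_e2 (u : V) : ⟪u - e.pr u, e.e₂⟫ = 0 := by
  rw [inner_sub_left, inner_pr_left, pr_e2, sub_self]

lemma inner_xi_e1 (θ r : ℝ) (u : V) : ⟪e.xi θ r u, e.e₁⟫ = θ := by
  unfold xi
  rw [inner_add_left, inner_perp_e1, inner_add_left, inner_smul_left, inner_smul_left, e.i11,
    e.i21]
  simp

lemma inner_xi_e2 (θ r : ℝ) (u : V) : ⟪e.xi θ r u, e.e₂⟫ = r := by
  unfold xi
  rw [inner_add_left, inner_perp_e2, inner_add_left, inner_smul_left, inner_smul_left, e.i12,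
    e.i22]
  simp

lemma xi_sub_pr (θ r : ℝ) (u : V) : e.xi θ r u - e.pr (e.xi θ r u) = u - e.pr u := by
  unfold xi
  rw [map_add, map_add, map_smul, map_smul, pr_e1, pr_e2, map_sub, pr_pr]
  abel

end Frame

lemma focal_mem_bad {e : Frame V} {f : Frame W} {a b : ℤ} (ha : a ≠ 0) (hab : IsCoprime a b)
    {p : WithLp 2 (V × W)} (hp : IsFocal (sphereProd V W) (torusGeodesic e f a b) p)
    (h1 : e.pr p.fst ≠ p.fst) (h2 : f.pr p.snd ≠ p.snd) (r₁ r₂ : ℝ) :
    (r₁ • p.fst, r₂ • p.snd) ∈ Psi e f a b '' bad e f a b := by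
  obtain ⟨z, c, w, hz, hc, hcp, hw, hw0, he⟩ := hp
  obtain ⟨θ₀, hθ₀'⟩ := (hz 0).1
  have hθ₀ : mm e f a b θ₀ = (z 0).1 := hθ₀'
  have ha' : (a : ℝ) ≠ 0 := by exact_mod_cast ha
  have hs := spd_pos (b := b) ha
  have hz1 : HasDerivAt (fun s => (z s).1) w.1 0 := hw.fst
  have hz2 : HasDerivAt (fun s => (z s).2) w.2 0 := hw.snd
  set θ : ℝ → ℝ := fun s => chart e a θ₀ (z s).1 with hθ
  have hθ0 : θ 0 = θ₀ := by
    simp only [hθ]
    rw [← hθ₀, chart_self]
  have hev : ∀ᶠ s in 𝓝 (0 : ℝ), (z s).1 = mm e f a b (θ s) := by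
    have ht : Tendsto (fun s => (z s).1) (𝓝 0) (𝓝 (mm e f a b θ₀)) := by
      have := hz1.continuousAt
      rwa [ContinuousAt, ← hθ₀] at this
    filter_upwards [ht.eventually (chart_spec e f ha hab θ₀)] with s hs
    exact hs (hz s).1
  have hx1 : DifferentiableAt ℝ (fun s => (z s).1.fst) 0 := (hasDerivAt_fst hz1).differentiableAt
  have hθd : DifferentiableAt ℝ θ 0 := by
    simp only [hθ]
    unfold chart
    have h3 : DifferentiableAt ℝ (fun s => ⟪(z s).1.fst, e.J (e.pt (a * θ₀))⟫) 0 :=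
      hx1.inner ℝ (differentiableAt_const _)
    have h4 : ⟪(z 0).1.fst, e.J (e.pt (a * θ₀))⟫ = 0 := by
      rw [← hθ₀]
      change ⟪e.pt (a * θ₀), e.J (e.pt (a * θ₀))⟫ = 0
      rw [Frame.inner_pt_J]; simp
    have h5 : DifferentiableAt ℝ Real.arcsin ⟪(z 0).1.fst, e.J (e.pt (a * θ₀))⟫ := by
      rw [h4]
      exact Real.differentiableAt_arcsin.mpr ⟨by norm_num, by norm_num⟩
    have h6 := DifferentiableAt.comp (g := Real.arcsin)
      (f := fun s => ⟪(z s).1.fst, e.J (e.pt (a * θ₀))⟫) (0 : ℝ) h5 h3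
    exact (h6.div_const (a : ℝ)).const_add θ₀
  set u : ℝ → V := fun s => (z s).2.fst with hu
  set v : ℝ → W := fun s => (z s).2.snd with hv
  have hud : DifferentiableAt ℝ u 0 := (hasDerivAt_fst hz2).differentiableAt
  have hvd : DifferentiableAt ℝ v 0 := (hasDerivAt_snd hz2).differentiableAt
  set κ : ℝ → ℝ := fun s => (b * ⟪u s, e.J (e.pt (a * θ s))⟫ -
    a * ⟪v s, f.J (f.pt (b * θ s))⟫) / spd a b with hκ
  have hpd1 : DifferentiableAt ℝ (fun s => e.J (e.pt (a * θ s))) 0 :=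
    e.J.differentiableAt.comp (0 : ℝ) (DifferentiableAt.comp (g := e.pt) (0 : ℝ)
      ((e.contDiff_pt (n := 1)).differentiable (by norm_num) _) (hθd.const_mul (a : ℝ)))
  have hpd2 : DifferentiableAt ℝ (fun s => f.J (f.pt (b * θ s))) 0 :=
    f.J.differentiableAt.comp (0 : ℝ) (DifferentiableAt.comp (g := f.pt) (0 : ℝ)
      ((f.contDiff_pt (n := 1)).differentiable (by norm_num) _) (hθd.const_mul (b : ℝ)))
  have hκd : DifferentiableAt ℝ κ 0 :=
    ((((hud.inner ℝ hpd1).const_mul (b : ℝ)).sub ((hvd.inner ℝ hpd2).const_mul (a : ℝ)))).div_const _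
  set ξ : ℝ → V × W := fun s => (e.xi (θ s) r₁ (u s), f.xi (κ s) r₂ (v s)) with hξ
  have hξd : DifferentiableAt ℝ ξ 0 := by
    have k1 : DifferentiableAt ℝ (fun s => e.xi (θ s) r₁ (u s)) 0 :=
      ((hθd.smul_const e.e₁).add_const _).add (hud.sub (e.pr.differentiableAt.comp (0 : ℝ) hud))
    have k2 : DifferentiableAt ℝ (fun s => f.xi (κ s) r₂ (v s)) 0 :=
      ((hκd.smul_const f.e₁).add_const _).add (hvd.sub (f.pr.differentiableAt.comp (0 : ℝ) hvd))
    exact k1.prodMk k2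
  -- the parameters recover the curve
  have hrec : ∀ s, (z s).1 = mm e f a b (θ s) →
      nu1 e f a b (ξ s) = u s ∧ nu2 e f a b (ξ s) = v s := by
    intro s hzs
    have hT := hz s
    have hS : (z s).1 ∈ sphereProd V W := by
      rw [hzs]; exact ⟨e.norm_pt _, f.norm_pt _⟩
    obtain ⟨t1, t2⟩ := (tangent_sphereProd hS _).mp hT.2.1
    have t3 := hT.2.2 (pairL ((a : ℝ) • e.J (e.pt (a * θ s)), (b : ℝ) • f.J (f.pt (b * θ s))))
      (by rw [hzs]; exact tangent_mm e f a b (θ s))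
    rw [innerVW, pairL_fst, pairL_snd, inner_smul_right, inner_smul_right] at t3
    rw [hzs] at t1 t2
    change ⟪e.pt (a * θ s), u s⟫ = 0 at t1
    change ⟪f.pt (b * θ s), v s⟫ = 0 at t2
    change a * ⟪u s, e.J (e.pt (a * θ s))⟫ + b * ⟪v s, f.J (f.pt (b * θ s))⟫ = 0 at t3
    have hc1 : b * κ s = ⟪u s, e.J (e.pt (a * θ s))⟫ := by
      simp only [hκ]
      rw [mul_div_assoc', div_eq_iff hs.ne']
      unfold spd
      linear_combination (-(a : ℝ)) * t3
    have hc2 : -(a * κ s) = ⟪v s, f.J (f.pt (b * θ s))⟫ := by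
      simp only [hκ]
      rw [mul_div_assoc', ← neg_div, div_eq_iff hs.ne']
      unfold spd
      linear_combination (-(b : ℝ)) * t3
    constructor
    · unfold nu1
      simp only [hξ]
      rw [Frame.inner_xi_e1, Frame.inner_xi_e1, Frame.xi_sub_pr, hc1]
      have hd := e.decomp (e.pt_mem (a * θ s)) (u s)
      rw [real_inner_comm (e.pt (a * θ s)) (u s), t1, zero_smul, zero_add] at hd
      exact hd.symm
    · unfold nu2
      simp only [hξ]
      rw [Frame.inner_xi_e1, Frame.inner_xi_e1, Frame.xi_sub_pr, hc2]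
      have hd := f.decomp (f.pt_mem (b * θ s)) (v s)
      rw [real_inner_comm (f.pt (b * θ s)) (v s), t2, zero_smul, zero_add] at hd
      exact hd.symm
  have hgam : ∀ᶠ s in 𝓝 (0 : ℝ), Gam e f a b (ξ s) = z s := by
    filter_upwards [hev] with s hzs
    obtain ⟨k1, k2⟩ := hrec s hzs
    unfold Gam
    rw [k1, k2]
    simp only [hξ]
    rw [Frame.inner_xi_e1]
    apply Prod.ext
    · exact hzs.symm
    · exact pairL_eq (z s).2
  have hpsi : ∀ᶠ s in 𝓝 (0 : ℝ), Psi e f a b (ξ s) = (r₁ • (c s 1).fst, r₂ • (c s 1).snd) := by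
    filter_upwards [hev] with s hzs
    obtain ⟨k1, k2⟩ := hrec s hzs
    unfold Psi
    rw [k1, k2, geodesic_fst (hc s).1, geodesic_snd (hc s).1, (hc s).2.1, (hc s).2.2, hzs]
    simp only [hξ]
    rw [Frame.inner_xi_e1, Frame.inner_xi_e2, Frame.inner_xi_e2]
    rfl
  have hzs0 : (z 0).1 = mm e f a b (θ 0) := by rw [hθ0, hθ₀]
  obtain ⟨n1, n2⟩ := hrec 0 hzs0
  -- the velocity of the parameters
  obtain ⟨ξ', hξ'⟩ : ∃ ξ', HasDerivAt ξ ξ' 0 := ⟨_, hξd.hasDerivAt⟩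
  have hξ0 : ξ' ≠ 0 := by
    intro h0
    rw [h0] at hξ'
    have k1 := (diff_Gam e f a b (ξ 0)).hasFDerivAt.comp_hasDerivAt (0 : ℝ) hξ'
    rw [map_zero] at k1
    have k2 : HasDerivAt z 0 0 := k1.congr_of_eventuallyEq (by
      filter_upwards [hgam] with s hs
      exact hs.symm)
    exact hw0 (hw.unique k2)
  have hu0 : u 0 ≠ 0 := by
    intro h0
    apply h1
    have k1 : p.fst = e.pt (a * θ 0) := by
      rw [← hcp, geodesic_fst (hc 0).1, (hc 0).2.1, (hc 0).2.2, hzs0]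
      have k2 : (z 0).2.fst = 0 := h0
      rw [k2]
      simp
      rfl
    rw [k1, Frame.pr_pt]
  have hv0 : v 0 ≠ 0 := by
    intro h0
    apply h2
    have k1 : p.snd = f.pt (b * θ 0) := by
      rw [← hcp, geodesic_snd (hc 0).1, (hc 0).2.1, (hc 0).2.2, hzs0]
      have k2 : (z 0).2.snd = 0 := h0
      rw [k2]
      simp
      rfl
    rw [k1, Frame.pr_pt]
  have hdiff : DifferentiableAt ℝ (Psi e f a b) (ξ 0) :=
    diff_Psi e f a b (by rw [n1]; exact hu0) (by rw [n2]; exact hv0)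
  refine ⟨ξ 0, ⟨hdiff, ?_⟩, ?_⟩
  · refine det_eq_zero _ hξ0 ?_
    have k1 := hdiff.hasFDerivAt.comp_hasDerivAt (0 : ℝ) hξ'
    have k2 : HasDerivAt (fun s => (r₁ • (c s 1).fst, r₂ • (c s 1).snd)) (0 : V × W) 0 := by
      have k3 := (hasDerivAt_fst he).const_smul r₁
      have k4 := (hasDerivAt_snd he).const_smul r₂
      have k5 := k3.prodMk k4
      have k6 : (r₁ • (0 : WithLp 2 (V × W)).fst, r₂ • (0 : WithLp 2 (V × W)).snd) =
          (0 : V × W) := by simp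
      rw [k6] at k5
      exact k5
    have k3 : HasDerivAt (fun s => Psi e f a b (ξ s)) 0 0 := k2.congr_of_eventuallyEq hpsi
    exact HasDerivAt.unique k1 k3
  · have k1 := hpsi.self_of_nhds
    rw [k1, hcp]

/-- Points which are not focal are dense near the torus. -/
lemma exists_not_focal (hV : 3 ≤ Module.finrank ℝ V) (hW : 3 ≤ Module.finrank ℝ W)
    (e : Frame V) (f : Frame W) {a b : ℤ} (ha : a ≠ 0) (hab : IsCoprime a b) (α β : ℝ)
    {O : Set (WithLp 2 (V × W))} (hO : O ∈ 𝓝 (pairL (e.pt α, f.pt β) : WithLp 2 (V × W))) :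
    ∃ p ∈ O, p ∈ sphereProd V W ∧ ¬ IsFocal (sphereProd V W) (torusGeodesic e f a b) p := by
  have hker : ∀ {U : Type} [NormedAddCommGroup U] [InnerProductSpace ℝ U]
      [FiniteDimensional ℝ U], 3 ≤ Module.finrank ℝ U → ∀ e : Frame U,
      ∃ n : U, n ≠ 0 ∧ e.pr n = 0 := by
    intro U _ _ _ hU e
    have h1 := LinearMap.finrank_range_add_finrank_ker (e.pr : U →ₗ[ℝ] U)
    have h2 : Module.finrank ℝ (LinearMap.range (e.pr : U →ₗ[ℝ] U)) ≤ 2 := by
      have h3 : LinearMap.range (e.pr : U →ₗ[ℝ] U) ≤ Submodule.span ℝ ({e.e₁, e.e₂} : Set U) := by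
        rintro _ ⟨x, rfl⟩
        change e.pr x ∈ _
        rw [Frame.pr_apply]
        exact Submodule.add_mem _
          (Submodule.smul_mem _ _ (Submodule.subset_span (by simp)))
          (Submodule.smul_mem _ _ (Submodule.subset_span (by simp)))
      refine (Submodule.finrank_mono h3).trans ?_
      classical
      have h5 : (({e.e₁, e.e₂} : Finset U) : Set U) = {e.e₁, e.e₂} := by simp
      have h6 := finrank_span_finset_le_card (R := ℝ) (M := U) ({e.e₁, e.e₂} : Finset U)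
      rw [h5] at h6
      exact h6.trans Finset.card_le_two
    have h7 : 0 < Module.finrank ℝ (LinearMap.ker (e.pr : U →ₗ[ℝ] U)) := by omega
    obtain ⟨n, hn⟩ := Module.finrank_pos_iff_exists_ne_zero.mp h7
    exact ⟨n, fun h => hn (Subtype.ext h), n.2⟩
  obtain ⟨n1, hn1, hp1⟩ := hker hV e
  obtain ⟨n2, hn2, hp2⟩ := hker hW f
  borelize (V × W)
  have hzero : (Measure.addHaar : Measure (V × W)) (Psi e f a b '' bad e f a b) = 0 :=
    addHaar_image_eq_zero_of_det_fderivWithin_eq_zero _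
      (fun x hx => hx.1.hasFDerivAt.hasFDerivWithinAt) (fun x hx => hx.2)
  set N : V × W → WithLp 2 (V × W) := fun ξ => pairL (‖ξ.1‖⁻¹ • ξ.1, ‖ξ.2‖⁻¹ • ξ.2) with hN
  have hNc : ContinuousAt N (e.pt α, f.pt β) := by
    have k1 : ContinuousAt (fun ξ : V × W => ‖ξ.1‖⁻¹ • ξ.1) (e.pt α, f.pt β) := by
      apply ContinuousAt.smul _ continuousAt_fst
      apply ContinuousAt.inv₀ continuousAt_fst.norm
      simp
    have k2 : ContinuousAt (fun ξ : V × W => ‖ξ.2‖⁻¹ • ξ.2) (e.pt α, f.pt β) := by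
      apply ContinuousAt.smul _ continuousAt_snd
      apply ContinuousAt.inv₀ continuousAt_snd.norm
      simp
    exact (pairL : V × W →L[ℝ] WithLp 2 (V × W)).continuous.continuousAt.comp (k1.prodMk k2)
  have hN0 : N (e.pt α, f.pt β) = pairL (e.pt α, f.pt β) := by simp [hN]
  have hO' : N ⁻¹' O ∈ 𝓝 ((e.pt α, f.pt β) : V × W) := by
    apply hNc
    rw [hN0]; exact hO
  obtain ⟨O', hsub, hopen, hmem⟩ := mem_nhds_iff.mp hO'
  set D : Set (V × W) := {ξ | e.pr ξ.1 ≠ ξ.1 ∧ f.pr ξ.2 ≠ ξ.2} with hD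
  have hDo : IsOpen D :=
    (isOpen_ne_fun (e.pr.continuous.comp continuous_fst) continuous_fst).inter
      (isOpen_ne_fun (f.pr.continuous.comp continuous_snd) continuous_snd)
  have hne : (O' ∩ D).Nonempty := by
    have hcurve : Continuous fun t : ℝ => ((e.pt α + t • n1, f.pt β + t • n2) : V × W) := by
      fun_prop
    have hc0 : O' ∈ 𝓝 ((fun t : ℝ => ((e.pt α + t • n1, f.pt β + t • n2) : V × W)) 0) := by
      simp only [zero_smul, add_zero]
      exact hopen.mem_nhds hmem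
    have hev := hcurve.continuousAt.preimage_mem_nhds hc0
    obtain ⟨ε, hε, hball⟩ := Metric.mem_nhds_iff.mp hev
    have hmem2 : (ε / 2) ∈ Metric.ball (0 : ℝ) ε := by
      rw [Metric.mem_ball, dist_zero_right, Real.norm_eq_abs, abs_of_pos (by positivity)]
      linarith
    refine ⟨_, hball hmem2, ?_, ?_⟩
    · change e.pr (e.pt α + (ε / 2) • n1) ≠ e.pt α + (ε / 2) • n1
      rw [map_add, map_smul, hp1, smul_zero, add_zero, Frame.pr_pt]
      intro h
      have h3 : (ε / 2) • n1 = 0 := by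
        have := h.symm
        rwa [add_eq_left] at this
      rcases smul_eq_zero.mp h3 with h | h
      · linarith
      · exact hn1 h
    · change f.pr (f.pt β + (ε / 2) • n2) ≠ f.pt β + (ε / 2) • n2
      rw [map_add, map_smul, hp2, smul_zero, add_zero, Frame.pr_pt]
      intro h
      have h3 : (ε / 2) • n2 = 0 := by
        have := h.symm
        rwa [add_eq_left] at this
      rcases smul_eq_zero.mp h3 with h | h
      · linarith
      · exact hn2 h
  have hpos : 0 < (Measure.addHaar : Measure (V × W)) (O' ∩ D) :=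
    (hopen.inter hDo).measure_pos _ hne
  have hnsub : ¬ (O' ∩ D ⊆ Psi e f a b '' bad e f a b) := by
    intro h
    have := measure_mono (μ := (Measure.addHaar : Measure (V × W))) h
    rw [hzero] at this
    exact absurd this (not_le.mpr hpos)
  obtain ⟨ξ, ⟨hξ1, hξ2⟩, hξ3⟩ := Set.not_subset.mp hnsub
  have g1 : ξ.1 ≠ 0 := by
    intro h; apply hξ2.1; rw [h, map_zero]
  have g2 : ξ.2 ≠ 0 := by
    intro h; apply hξ2.2; rw [h, map_zero]
  have g1' : ‖ξ.1‖ ≠ 0 := norm_ne_zero_iff.mpr g1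
  have g2' : ‖ξ.2‖ ≠ 0 := norm_ne_zero_iff.mpr g2
  refine ⟨N ξ, hsub hξ1, ⟨?_, ?_⟩, fun hfoc => hξ3 ?_⟩
  · change ‖‖ξ.1‖⁻¹ • ξ.1‖ = 1
    rw [norm_smul, norm_inv, norm_norm, inv_mul_cancel₀ g1']
  · change ‖‖ξ.2‖⁻¹ • ξ.2‖ = 1
    rw [norm_smul, norm_inv, norm_norm, inv_mul_cancel₀ g2']
  · have k := focal_mem_bad ha hab hfoc (by
      change e.pr (‖ξ.1‖⁻¹ • ξ.1) ≠ ‖ξ.1‖⁻¹ • ξ.1
      rw [map_smul]
      intro h
      exact hξ2.1 (smul_right_injective V (inv_ne_zero g1') h)) (by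
      change f.pr (‖ξ.2‖⁻¹ • ξ.2) ≠ ‖ξ.2‖⁻¹ • ξ.2
      rw [map_smul]
      intro h
      exact hξ2.2 (smul_right_injective W (inv_ne_zero g2') h)) ‖ξ.1‖ ‖ξ.2‖
    have k2 : (‖ξ.1‖ • (N ξ).fst, ‖ξ.2‖ • (N ξ).snd) = ξ := by
      apply Prod.ext
      · change ‖ξ.1‖ • ‖ξ.1‖⁻¹ • ξ.1 = ξ.1
        rw [smul_smul, mul_inv_cancel₀ g1', one_smul]
      · change ‖ξ.2‖ • ‖ξ.2‖⁻¹ • ξ.2 = ξ.2
        rw [smul_smul, mul_inv_cancel₀ g2', one_smul]
    rwa [k2] at k

end Pool.Agent.KS6_39.TT
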