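import Pool.Agent.KS6_39.TT.Facts

open MeasureTheory Set Filter Topology
open scoped ENNReal NNReal RealInnerProductSpace ContDiff

set_option linter.unusedSectionVars false

noncomputable section

namespace Pool.Agent.KS6_39.TT

variable {V W : Type} [NormedAddCommGroup V] [InnerProductSpace ℝ V] [FiniteDimensional ℝ V]
  [NormedAddCommGroup W] [InnerProductSpace ℝ W] [FiniteDimensional ℝ W]

lemma hasDerivAt_line {E : Type} [NormedAddCommGroup E] [NormedSpace ℝ E] (y w : E) :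
    HasDerivAt (fun t : ℝ => y + t • w) w 0 := by
  have h := ((hasDerivAt_id (0 : ℝ)).smul_const w).const_add y
  rw [one_smul] at h
  exact h

lemma hasDerivAt_comp_along {E G : Type} [NormedAddCommGroup E] [NormedSpace ℝ E]
    [NormedAddCommGroup G] [NormedSpace ℝ G] {F : E → G} {y : E}
    (hF : DifferentiableAt ℝ F y) (w : E) :
    HasDerivAt (fun t : ℝ => F (y + t • w)) (fderiv ℝ F y w) 0 := by
  have h4 : HasFDerivAt F (fderiv ℝ F y) (y + (0 : ℝ) • w) := by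
    simpa using hF.hasFDerivAt
  exact h4.comp_hasDerivAt 0 (hasDerivAt_line y w)

lemma isSubmanifold_of {E G : Type} [NormedAddCommGroup E] [InnerProductSpace ℝ E]
    [NormedAddCommGroup G] [NormedSpace ℝ G] [FiniteDimensional ℝ G] {N : Set E} {d : ℕ}
    (hd : Module.finrank ℝ G + d = Module.finrank ℝ E)
    (h : ∀ x ∈ N, ∃ (U : Set E) (F : E → G), IsOpen U ∧ x ∈ U ∧ ContDiffOn ℝ ∞ F U ∧
      (∀ y ∈ U, y ∈ N ↔ F y = 0) ∧
      ∀ y ∈ U, ∀ v : G, ∃ w : E, HasDerivAt (fun t : ℝ => F (y + t • w)) v 0) :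
    IsSubmanifold N d := by
  intro x hx
  obtain ⟨U, F, hU, hxU, hF, h0, hs⟩ := h x hx
  let L : G ≃L[ℝ] EuclideanSpace ℝ (Fin (Module.finrank ℝ G)) :=
    ContinuousLinearEquiv.ofFinrankEq (by simp)
  refine ⟨Module.finrank ℝ G, U, fun y => L (F y), hd, hU, hxU,
    L.contDiff.comp_contDiffOn hF, fun y hy => ?_, fun y hy v => ?_⟩
  · rw [h0 y hy]
    exact (map_eq_zero_iff L L.injective).symm
  · obtain ⟨w, hw⟩ := hs y hy (L.symm v)
    have hFy : DifferentiableAt ℝ F y :=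
      (hF.contDiffAt (hU.mem_nhds hy)).differentiableAt (by simp)
    refine ⟨w, ?_⟩
    have h1 := hasDerivAt_comp_along hFy w
    have h2 := h1.unique hw
    have h3 : fderiv ℝ (fun y => L (F y)) y = (L : G →L[ℝ] _).comp (fderiv ℝ F y) :=
      ((L : G →L[ℝ] EuclideanSpace ℝ (Fin (Module.finrank ℝ G))).hasFDerivAt.comp y
        hFy.hasFDerivAt).fderiv
    rw [h3, ContinuousLinearMap.comp_apply, h2]
    simp

lemma finrank_VW : Module.finrank ℝ (WithLp 2 (V × W)) =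
    Module.finrank ℝ V + Module.finrank ℝ W := by
  rw [(WithLp.prodContinuousLinearEquiv 2 ℝ V W).toLinearEquiv.finrank_eq, Module.finrank_prod]

lemma contDiff_normsq_fst : ContDiff ℝ ∞ fun x : WithLp 2 (V × W) => ‖x.fst‖ ^ 2 :=
  (WithLp.fstL 2 ℝ V W).contDiff.norm_sq ℝ

lemma contDiff_normsq_snd : ContDiff ℝ ∞ fun x : WithLp 2 (V × W) => ‖x.snd‖ ^ 2 :=
  (WithLp.sndL 2 ℝ V W).contDiff.norm_sq ℝ

lemma norm_eq_one_iff {x : V} : ‖x‖ = 1 ↔ ‖x‖ ^ 2 - 1 = 0 := by
  constructor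
  · intro h; rw [h]; norm_num
  · intro h
    have h3 : ‖x‖ ^ 2 = 1 ^ 2 := by linarith
    exact (sq_eq_sq₀ (norm_nonneg _) zero_le_one).mp h3

lemma isSubmanifold_sphereProd (hV : 3 ≤ Module.finrank ℝ V) (hW : 3 ≤ Module.finrank ℝ W) :
    IsSubmanifold (sphereProd V W) (Module.finrank ℝ V + Module.finrank ℝ W - 2) := by
  apply isSubmanifold_of (G := ℝ × ℝ)
  · rw [finrank_VW, Module.finrank_prod, Module.finrank_self]; omega
  · intro x hx
    refine ⟨{x | x.fst ≠ 0 ∧ x.snd ≠ 0}, fun x => (‖x.fst‖ ^ 2 - 1, ‖x.snd‖ ^ 2 - 1),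
      ?_, ?_, ?_, ?_, ?_⟩
    · exact (isOpen_ne_fun continuous_fstVW continuous_const).inter
        (isOpen_ne_fun continuous_sndVW continuous_const)
    · constructor
      · intro h; have := hx.1; rw [h] at this; simp at this
      · intro h; have := hx.2; rw [h] at this; simp at this
    · exact ((contDiff_normsq_fst.sub contDiff_const).prodMk
        (contDiff_normsq_snd.sub contDiff_const)).contDiffOn
    · intro y _
      rw [Prod.mk_eq_zero, ← norm_eq_one_iff, ← norm_eq_one_iff]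
      rfl
    · rintro y ⟨h1, h2⟩ v
      have n1 : ‖y.fst‖ ≠ 0 := norm_ne_zero_iff.mpr h1
      have n2 : ‖y.snd‖ ≠ 0 := norm_ne_zero_iff.mpr h2
      refine ⟨pairL ((v.1 / (2 * ‖y.fst‖ ^ 2)) • y.fst, (v.2 / (2 * ‖y.snd‖ ^ 2)) • y.snd), ?_⟩
      have k1 := hasDerivAt_normsq y.fst ((v.1 / (2 * ‖y.fst‖ ^ 2)) • y.fst)
      have k2 := hasDerivAt_normsq y.snd ((v.2 / (2 * ‖y.snd‖ ^ 2)) • y.snd)
      rw [inner_smul_right, real_inner_self_eq_norm_sq] at k1 k2
      have m1 : 2 * (v.1 / (2 * ‖y.fst‖ ^ 2) * ‖y.fst‖ ^ 2) = v.1 := by field_simp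
      have m2 : 2 * (v.2 / (2 * ‖y.snd‖ ^ 2) * ‖y.snd‖ ^ 2) = v.2 := by field_simp
      rw [m1] at k1
      rw [m2] at k2
      exact (k1.sub_const 1).prodMk (k2.sub_const 1)

/-- The complement of the plane. -/
abbrev Frame.perp (e : Frame V) : Submodule ℝ V := LinearMap.ker (e.pr : V →ₗ[ℝ] V)

lemma Frame.finrank_perp (e : Frame V) :
    Module.finrank ℝ e.perp + 2 = Module.finrank ℝ V := by
  have h1 := LinearMap.finrank_range_add_finrank_ker (e.pr : V →ₗ[ℝ] V)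
  have hli : LinearIndependent ℝ ![e.e₁, e.e₂] := by
    rw [LinearIndependent.pair_iff]
    intro s t hst
    have k1 := congrArg (fun v => ⟪e.e₁, v⟫) hst
    have k2 := congrArg (fun v => ⟪e.e₂, v⟫) hst
    simp only [inner_add_right, inner_smul_right, Frame.i11, Frame.i12, Frame.i21, Frame.i22,
      inner_zero_right] at k1 k2
    constructor <;> linarith
  have h2 : LinearMap.range (e.pr : V →ₗ[ℝ] V) = Submodule.span ℝ (range ![e.e₁, e.e₂]) := by
    apply le_antisymm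
    · rintro _ ⟨x, rfl⟩
      change e.pr x ∈ _
      rw [Frame.pr_apply]
      exact Submodule.add_mem _
        (Submodule.smul_mem _ _ (Submodule.subset_span ⟨0, rfl⟩))
        (Submodule.smul_mem _ _ (Submodule.subset_span ⟨1, rfl⟩))
    · rw [Submodule.span_le]
      rintro _ ⟨i, rfl⟩
      fin_cases i
      · exact ⟨e.e₁, e.pr_e1⟩
      · exact ⟨e.e₂, e.pr_e2⟩
  have h3 := finrank_span_eq_card hli
  rw [← h2] at h3
  simp at h3
  rw [h3] at h1
  change Module.finrank ℝ (LinearMap.ker (e.pr : V →ₗ[ℝ] V)) + 2 = _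
  omega

/-- The projection to the complement of the plane. -/
def Frame.qr (e : Frame V) : V →L[ℝ] e.perp :=
  (ContinuousLinearMap.id ℝ V - e.pr).codRestrict e.perp (by
    intro x
    change e.pr (x - e.pr x) = 0
    rw [map_sub, Frame.pr_pr, sub_self])

lemma Frame.qr_coe (e : Frame V) (x : V) : (e.qr x : V) = x - e.pr x := rfl

lemma Frame.qr_eq_zero (e : Frame V) {x : V} : e.qr x = 0 ↔ e.pr x = x := by
  rw [← Submodule.coe_eq_zero, Frame.qr_coe, sub_eq_zero]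
  exact eq_comm

lemma Frame.mem_circle_iff (e : Frame V) {x : V} :
    x ∈ e.circle ↔ ‖x‖ ^ 2 - 1 = 0 ∧ e.qr x = 0 := by
  rw [Frame.qr_eq_zero, ← norm_eq_one_iff]; rfl

/-- The defining map of the torus. -/
def tmap (e : Frame V) (f : Frame W) (x : WithLp 2 (V × W)) : (ℝ × e.perp) × (ℝ × f.perp) :=
  ((‖x.fst‖ ^ 2 - 1, e.qr x.fst), (‖x.snd‖ ^ 2 - 1, f.qr x.snd))

lemma contDiff_tmap (e : Frame V) (f : Frame W) : ContDiff ℝ ∞ (tmap e f) :=
  ((contDiff_normsq_fst.sub contDiff_const).prodMk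
    (e.qr.contDiff.comp (WithLp.fstL 2 ℝ V W).contDiff)).prodMk
  ((contDiff_normsq_snd.sub contDiff_const).prodMk
    (f.qr.contDiff.comp (WithLp.sndL 2 ℝ V W).contDiff))

lemma tmap_eq_zero (e : Frame V) (f : Frame W) (x : WithLp 2 (V × W)) :
    tmap e f x = 0 ↔ x ∈ flatTorus e f := by
  unfold tmap
  rw [mem_flatTorus, Frame.mem_circle_iff, Frame.mem_circle_iff, Prod.mk_eq_zero,
    Prod.mk_eq_zero, Prod.mk_eq_zero]

lemma hasDerivAt_tmap (e : Frame V) (f : Frame W) (y w : WithLp 2 (V × W)) :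
    HasDerivAt (fun t : ℝ => tmap e f (y + t • w))
      ((2 * ⟪y.fst, w.fst⟫, e.qr w.fst), (2 * ⟪y.snd, w.snd⟫, f.qr w.snd)) 0 := by
  have k1 := (hasDerivAt_normsq y.fst w.fst).sub_const 1
  have k2 := (hasDerivAt_normsq y.snd w.snd).sub_const 1
  have k3 : HasDerivAt (fun t : ℝ => e.qr (y.fst + t • w.fst)) (e.qr w.fst) 0 :=
    e.qr.hasFDerivAt.comp_hasDerivAt (0 : ℝ) (hasDerivAt_line y.fst w.fst)
  have k4 : HasDerivAt (fun t : ℝ => f.qr (y.snd + t • w.snd)) (f.qr w.snd) 0 :=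
    f.qr.hasFDerivAt.comp_hasDerivAt (0 : ℝ) (hasDerivAt_line y.snd w.snd)
  exact (k1.prodMk k3).prodMk (k2.prodMk k4)

lemma exists_solve (e : Frame V) {x : V} (hx : e.pr x ≠ 0) (s : ℝ) (k : e.perp) :
    ∃ w : V, 2 * ⟪x, w⟫ = s ∧ e.qr w = k := by
  have n1 : ‖e.pr x‖ ≠ 0 := norm_ne_zero_iff.mpr hx
  refine ⟨((s - 2 * ⟪x, (k : V)⟫) / (2 * ‖e.pr x‖ ^ 2)) • e.pr x + (k : V), ?_, ?_⟩
  · have h1 : ⟪x, e.pr x⟫ = ‖e.pr x‖ ^ 2 := by
      rw [← real_inner_self_eq_norm_sq, Frame.inner_pr_left, Frame.pr_pr]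
    rw [inner_add_right, inner_smul_right, h1]
    field_simp
    ring
  · apply Subtype.ext
    have hk : e.pr (k : V) = 0 := k.2
    rw [Frame.qr_coe, map_add, map_smul, Frame.pr_pr, hk]
    abel

lemma isSubmanifold_flatTorus (e : Frame V) (f : Frame W) :
    IsSubmanifold (flatTorus e f) 2 := by
  apply isSubmanifold_of (G := (ℝ × e.perp) × (ℝ × f.perp))
  · rw [finrank_VW, Module.finrank_prod, Module.finrank_prod, Module.finrank_prod,
      Module.finrank_self, ← e.finrank_perp, ← f.finrank_perp]; ring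
  · intro x hx
    refine ⟨{x | e.pr x.fst ≠ 0 ∧ f.pr x.snd ≠ 0}, tmap e f, ?_, ?_,
      (contDiff_tmap e f).contDiffOn, fun y _ => (tmap_eq_zero e f y).symm, ?_⟩
    · exact (isOpen_ne_fun (e.pr.continuous.comp continuous_fstVW) continuous_const).inter
        (isOpen_ne_fun (f.pr.continuous.comp continuous_sndVW) continuous_const)
    · obtain ⟨h1, h2⟩ := mem_flatTorus.mp hx
      constructor
      · rw [h1.2]; intro h; have := h1.1; rw [h] at this; simp at this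
      · rw [h2.2]; intro h; have := h2.1; rw [h] at this; simp at this
    · rintro y ⟨h1, h2⟩ ⟨⟨s1, k1⟩, ⟨s2, k2⟩⟩
      obtain ⟨w1, a1, b1⟩ := exists_solve e h1 s1 k1
      obtain ⟨w2, a2, b2⟩ := exists_solve f h2 s2 k2
      have h := hasDerivAt_tmap e f y (pairL (w1, w2))
      rw [pairL_fst, pairL_snd] at h
      dsimp only at h
      rw [a1, b1, a2, b2] at h
      exact ⟨_, h⟩

end Pool.Agent.KS6_39.TT
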