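import Pool.Agent.KS6_39.TT.Pair

open MeasureTheory Set Filter Topology
open scoped ENNReal NNReal RealInnerProductSpace ContDiff

set_option linter.unusedSectionVars false

noncomputable section

namespace Pool.Agent.KS6_39.TT

variable {V W : Type} [NormedAddCommGroup V] [InnerProductSpace ℝ V] [FiniteDimensional ℝ V]
  [NormedAddCommGroup W] [InnerProductSpace ℝ W] [FiniteDimensional ℝ W]

lemma mem_flatTorus {e : Frame V} {f : Frame W} {x : WithLp 2 (V × W)} :
    x ∈ flatTorus e f ↔ x.fst ∈ e.circle ∧ x.snd ∈ f.circle := by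
  constructor
  · rintro ⟨⟨θ, φ⟩, rfl⟩
    exact ⟨e.pt_mem _, f.pt_mem _⟩
  · rintro ⟨h1, h2⟩
    obtain ⟨θ, hθ⟩ := e.exists_pt h1
    obtain ⟨φ, hφ⟩ := f.exists_pt h2
    exact ⟨(θ, φ), by dsimp only; rw [← hθ, ← hφ]; exact pairL_eq x⟩

/-- The parametrisation of the closed geodesic. -/
def mm (e : Frame V) (f : Frame W) (a b : ℤ) (θ : ℝ) : WithLp 2 (V × W) :=
  pairL (e.pt (a * θ), f.pt (b * θ))

lemma torusGeodesic_eq (e : Frame V) (f : Frame W) (a b : ℤ) :
    torusGeodesic e f a b = range (mm e f a b) := rfl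

lemma mm_mem (e : Frame V) (f : Frame W) (a b : ℤ) (θ : ℝ) :
    mm e f a b θ ∈ torusGeodesic e f a b := ⟨θ, rfl⟩

lemma torusGeodesic_subset (e : Frame V) (f : Frame W) (a b : ℤ) :
    torusGeodesic e f a b ⊆ flatTorus e f := by
  rintro _ ⟨θ, rfl⟩
  exact ⟨(a * θ, b * θ), rfl⟩

lemma mem_geodesic_iff {e : Frame V} {f : Frame W} {a b : ℤ} (ha : a ≠ 0)
    (hab : IsCoprime a b) (x y : ℝ) :
    (pairL (e.pt x, f.pt y) : WithLp 2 (V × W)) ∈ torusGeodesic e f a b ↔
      ∃ k : ℤ, (b : ℝ) * x - a * y = k * (2 * Real.pi) := by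
  constructor
  · rintro ⟨θ, hθ⟩
    dsimp only at hθ
    rw [toLp_eq, pairL_inj, Prod.mk.injEq, Frame.pt_eq_iff, Frame.pt_eq_iff] at hθ
    obtain ⟨⟨i, hi⟩, j, hj⟩ := hθ
    refine ⟨a * j - b * i, ?_⟩
    push_cast
    linear_combination (a : ℝ) * hj - (b : ℝ) * hi
  · rintro ⟨k, hk⟩
    obtain ⟨u, v, huv⟩ := hab
    have ha' : (a : ℝ) ≠ 0 := by exact_mod_cast ha
    have huv' : (u : ℝ) * a + v * b = 1 := by exact_mod_cast huv
    refine ⟨(x - k * v * (2 * Real.pi)) / a, ?_⟩
    dsimp only
    rw [toLp_eq, pairL_inj, Prod.mk.injEq, Frame.pt_eq_iff, Frame.pt_eq_iff]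
    constructor
    · refine ⟨-(k * v), ?_⟩
      push_cast
      field_simp
      ring
    · refine ⟨k * u, ?_⟩
      push_cast
      field_simp
      linear_combination hk - (k : ℝ) * (2 * Real.pi) * huv'

section torus
variable (e : Frame V) (f : Frame W) (a b : ℤ) (α β : ℝ)

/-- The space of paths in the torus from the circle to the point with angles `α`, `β`. -/
abbrev torusPaths : Set (L2 (WithLp 2 (V × W))) :=
  pathSpace (flatTorus e f) (torusGeodesic e f a b) (pairL (e.pt α, f.pt β))

/-- The path in the torus with given angular velocities. -/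
def rr (z : L2 ℝ × L2 ℝ) : L2 (WithLp 2 (V × W)) := join2 (e.cp α z.1) (f.cp β z.2)

/-- The angular velocities of a path in the torus. -/
def ii (g : L2 (WithLp 2 (V × W))) : L2 ℝ × L2 ℝ :=
  (e.ang (e.pt α) (comp1 g), f.ang (f.pt β) (comp2 g))

/-- The winding function of the angles of the starting point. -/
def dd (z : L2 ℝ × L2 ℝ) : ℝ := b * (α + startL z.1) - a * (β + startL z.2)

lemma path_rr (z : L2 ℝ × L2 ℝ) (t : unitInterval) :
    path (pairL (e.pt α, f.pt β)) (rr e f α β z) t =
      pairL (e.pt (α + path 0 z.1 t), f.pt (β + path 0 z.2 t)) := by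
  unfold rr
  rw [path_join2, Frame.path_cp, Frame.path_cp]

lemma continuous_rr : Continuous (rr e f α β) :=
  continuous_join2.comp (((e.continuous_cp α).comp continuous_fst).prodMk
    ((f.continuous_cp β).comp continuous_snd))

lemma continuous_ii : Continuous (ii e f α β) :=
  ((e.continuous_ang _).comp (continuous_lin _)).prodMk
    ((f.continuous_ang _).comp (continuous_lin _))

lemma continuous_dd : Continuous (dd a b α β) := by
  unfold dd
  exact (continuous_const.mul (continuous_const.add (startL.continuous.comp continuous_fst))).sub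
    (continuous_const.mul (continuous_const.add (startL.continuous.comp continuous_snd)))

lemma rr_mem_torus (z : L2 ℝ × L2 ℝ) (t : unitInterval) :
    path (pairL (e.pt α, f.pt β)) (rr e f α β z) t ∈ flatTorus e f := by
  rw [path_rr, mem_flatTorus]
  exact ⟨e.pt_mem _, f.pt_mem _⟩

lemma rr_ii_of {g : L2 (WithLp 2 (V × W))}
    (hg : ∀ t, path (pairL (e.pt α, f.pt β)) g t ∈ flatTorus e f) :
    rr e f α β (ii e f α β g) = g := by
  have h1 : ∀ t, path (e.pt α) (comp1 g) t ∈ e.circle := fun t => by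
    have := path_comp1 (pairL (e.pt α, f.pt β)) g t
    rw [pairL_fst] at this
    dsimp only at this
    rw [this]
    exact (mem_flatTorus.mp (hg t)).1
  have h2 : ∀ t, path (f.pt β) (comp2 g) t ∈ f.circle := fun t => by
    have := path_comp2 (pairL (e.pt α, f.pt β)) g t
    rw [pairL_snd] at this
    dsimp only at this
    rw [this]
    exact (mem_flatTorus.mp (hg t)).2
  unfold rr ii
  dsimp only
  rw [e.cp_ang h1, f.cp_ang h2, join2_comp]

lemma ii_rr (z : L2 ℝ × L2 ℝ) : ii e f α β (rr e f α β z) = z := by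
  unfold ii rr
  rw [comp1_join2, comp2_join2, Frame.ang_cp, Frame.ang_cp]

lemma energy_rr (z : L2 ℝ × L2 ℝ) : energy (rr e f α β z) = ‖z.1‖ ^ 2 + ‖z.2‖ ^ 2 := by
  unfold rr
  rw [energy_join2, Frame.energy_cp, Frame.energy_cp]

variable {a b} (ha : a ≠ 0) (hb : b ≠ 0) (hab : IsCoprime a b)

include ha hab in
lemma rr_mem {z : L2 ℝ × L2 ℝ} : rr e f α β z ∈ torusPaths e f a b α β ↔
    ∃ k : ℤ, dd a b α β z = k * (2 * Real.pi) := by
  have h : path (pairL (e.pt α, f.pt β)) (rr e f α β z) 0 =
      pairL (e.pt (α + startL z.1), f.pt (β + startL z.2)) := by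
    rw [path_rr, startL_apply, startL_apply]
  constructor
  · rintro ⟨-, h2⟩
    rw [h, mem_geodesic_iff ha hab] at h2
    exact h2
  · intro h2
    refine ⟨rr_mem_torus e f α β z, ?_⟩
    rw [h, mem_geodesic_iff ha hab]
    exact h2

lemma rr_ii {g : L2 (WithLp 2 (V × W))} (hg : g ∈ torusPaths e f a b α β) :
    rr e f α β (ii e f α β g) = g := rr_ii_of e f α β hg.1

/-- The winding number of a path. -/
def kk (g : torusPaths e f a b α β) : ℤ := round (dd a b α β (ii e f α β g.1) / (2 * Real.pi))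

include ha hab in
lemma dd_eq (g : torusPaths e f a b α β) :
    dd a b α β (ii e f α β g.1) = kk e f α β g * (2 * Real.pi) := by
  have h := g.2
  rw [← rr_ii e f α β g.2, rr_mem e f α β ha hab] at h
  obtain ⟨k, hk⟩ := h
  unfold kk
  rw [hk, mul_div_cancel_right₀ _ (by positivity), round_intCast]

include ha hab in
lemma continuous_kk : Continuous (kk (a := a) (b := b) e f α β) := by
  rw [Int.isClosedEmbedding_coe_real.isEmbedding.continuous_iff]
  have h : (fun g : torusPaths e f a b α β => ((kk e f α β g : ℤ) : ℝ)) =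
      fun g => dd a b α β (ii e f α β g.1) / (2 * Real.pi) := by
    funext g
    rw [dd_eq e f α β ha hab, mul_div_cancel_right₀ _ (by positivity)]
  have h2 : Continuous fun g : torusPaths e f a b α β =>
      dd a b α β (ii e f α β g.1) / (2 * Real.pi) :=
    ((continuous_dd a b α β).comp ((continuous_ii e f α β).comp
      continuous_subtype_val)).div_const _
  rw [← h] at h2
  exact h2

/-- The squared speed of the closed geodesic. -/
def spd (a b : ℤ) : ℝ := (a : ℝ) ^ 2 + (b : ℝ) ^ 2

include ha in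
lemma spd_pos : 0 < spd a b := by
  unfold spd
  have : (a : ℝ) ≠ 0 := by exact_mod_cast ha
  positivity

variable (a b) in
/-- The required increment. -/
def lam (k : ℤ) : ℝ := k * (2 * Real.pi) - (b * α - a * β)

variable (a b) in
/-- The velocities of the geodesic with winding number `k`. -/
def zz (k : ℤ) : L2 ℝ × L2 ℝ :=
  (constL2 (-(b * lam a b α β k / spd a b)), constL2 (a * lam a b α β k / spd a b))

include ha in
lemma dd_zz (k : ℤ) : dd a b α β (zz a b α β k) = k * (2 * Real.pi) := by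
  have h := spd_pos (b := b) ha
  unfold dd zz
  rw [startL_const, startL_const]
  have h2 : (b : ℝ) * (b * lam a b α β k / spd a b) + a * (a * lam a b α β k / spd a b) =
      lam a b α β k := by
    have h3 : (b : ℝ) * (b * lam a b α β k / spd a b) + a * (a * lam a b α β k / spd a b) =
      spd a b * lam a b α β k / spd a b := by unfold spd; ring
    rw [h3, mul_div_cancel_left₀ _ h.ne']
  unfold lam at h2 ⊢
  linear_combination h2

variable (a b) in
lemma dd_combo (z w : L2 ℝ × L2 ℝ) (u : ℝ) :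
    dd a b α β (z + u • (w - z)) = dd a b α β z + u * (dd a b α β w - dd a b α β z) := by
  unfold dd
  rw [Prod.fst_add, Prod.snd_add, Prod.smul_fst, Prod.smul_snd, Prod.fst_sub, Prod.snd_sub,
    map_add, map_add, map_smul, map_smul, map_sub, map_sub, smul_eq_mul, smul_eq_mul]
  ring

include ha hab in
lemma combo_mem (g : torusPaths e f a b α β) (u : ℝ) :
    rr e f α β (ii e f α β g.1 + u • (zz a b α β (kk e f α β g) - ii e f α β g.1)) ∈
      torusPaths e f a b α β := by
  rw [rr_mem e f α β ha hab]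
  refine ⟨kk e f α β g, ?_⟩
  rw [dd_combo, dd_zz α β ha, dd_eq e f α β ha hab]
  ring

/-- The section of the winding number. -/
def ss : C(ℤ, torusPaths e f a b α β) :=
  ⟨fun k => ⟨rr e f α β (zz a b α β k), (rr_mem e f α β ha hab).mpr ⟨k, dd_zz α β ha k⟩⟩,
    continuous_of_discreteTopology⟩

/-- The winding number as a continuous map. -/
def kkC : C(torusPaths e f a b α β, ℤ) := ⟨kk e f α β, continuous_kk e f α β ha hab⟩

lemma kk_ss : (kkC e f α β ha hab).comp (ss e f α β ha hab) = ContinuousMap.id ℤ := by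
  ext k
  have h := dd_eq e f α β ha hab (ss e f α β ha hab k)
  have h2 : dd a b α β (ii e f α β (ss e f α β ha hab k).1) = k * (2 * Real.pi) := by
    change dd a b α β (ii e f α β (rr e f α β (zz a b α β k))) = _
    rw [ii_rr, dd_zz α β ha]
  rw [h2] at h
  have h3 : (k : ℝ) = (kk e f α β (ss e f α β ha hab k) : ℝ) :=
    mul_right_cancel₀ (show 2 * Real.pi ≠ 0 by positivity) h
  exact_mod_cast h3.symm

lemma homotopic_ss : (ContinuousMap.id (torusPaths e f a b α β)).Homotopic
    ((ss e f α β ha hab).comp (kkC e f α β ha hab)) := by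
  have hz : Continuous fun g : torusPaths e f a b α β => zz a b α β (kk e f α β g) :=
    (continuous_of_discreteTopology (f := zz a b α β)).comp (continuous_kk e f α β ha hab)
  have hi : Continuous fun g : torusPaths e f a b α β => ii e f α β g.1 :=
    (continuous_ii e f α β).comp continuous_subtype_val
  refine ⟨{
    toFun := fun x => ⟨_, combo_mem e f α β ha hab x.2 x.1⟩
    continuous_toFun := ?_
    map_zero_left := ?_
    map_one_left := ?_ }⟩
  · apply Continuous.subtype_mk
    apply (continuous_rr e f α β).comp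
    have h1 : Continuous fun x : unitInterval × torusPaths e f a b α β => ((x.1 : ℝ)) :=
      continuous_subtype_val.comp continuous_fst
    exact (hi.comp continuous_snd).add (h1.smul ((hz.comp continuous_snd).sub
      (hi.comp continuous_snd)))
  · intro g
    apply Subtype.ext
    simp [rr_ii e f α β g.2]
  · intro g
    apply Subtype.ext
    simp [ss, kkC]

end torus

/-! ### Critical points on the torus -/

lemma hasDerivAt_rr (e : Frame V) (f : Frame W) (α β : ℝ) (z w : L2 ℝ × L2 ℝ) :
    ∃ v, HasDerivAt (fun s : ℝ => rr e f α β (z + s • w)) v 0 := by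
  obtain ⟨v1, h1⟩ := hasDerivAt_ellPath2 (e.pt α) (e.J (e.pt α)) z.1 w.1
  obtain ⟨v2, h2⟩ := hasDerivAt_ellPath2 (f.pt β) (f.J (f.pt β)) z.2 w.2
  have k1 := ((pairL.comp (ContinuousLinearMap.inl ℝ V W)).compLpL 2
    (volume : Measure unitInterval)).hasFDerivAt.comp_hasDerivAt (0 : ℝ) h1
  have k2 := ((pairL.comp (ContinuousLinearMap.inr ℝ V W)).compLpL 2
    (volume : Measure unitInterval)).hasFDerivAt.comp_hasDerivAt (0 : ℝ) h2
  exact ⟨_, k1.add k2⟩

lemma hasDerivAt_normsq {H : Type} [NormedAddCommGroup H] [InnerProductSpace ℝ H] (a b : H) :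
    HasDerivAt (fun s : ℝ => ‖a + s • b‖ ^ 2) (2 * ⟪a, b⟫) 0 := by
  have h3 : HasDerivAt (fun s : ℝ => a + s • b) b 0 := by
    have h := ((hasDerivAt_id (0 : ℝ)).smul_const b).const_add a
    rw [one_smul] at h
    exact h
  have h4 := h3.norm_sq
  rw [zero_smul, add_zero] at h4
  exact h4

section torus
variable (e : Frame V) (f : Frame W) {a b : ℤ} (α β : ℝ) (ha : a ≠ 0) (hab : IsCoprime a b)

include ha hab

lemma critical_eq {g : L2 (WithLp 2 (V × W))}
    (h : IsCriticalPoint (torusPaths e f a b α β) g) :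
    ∃ k : ℤ, g = rr e f α β (zz a b α β k) := by
  obtain ⟨hg, hc⟩ := h
  set G : torusPaths e f a b α β := ⟨g, hg⟩ with hG
  set k := kk e f α β G with hk
  set z := ii e f α β g with hz
  set w := zz a b α β k - z with hw
  obtain ⟨v, hv⟩ := hasDerivAt_rr e f α β z w
  have h1 := hc (fun s : ℝ => rr e f α β (z + s • w)) v
    (fun s => combo_mem e f α β ha hab G s)
    (by simp only [zero_smul, add_zero]; exact rr_ii e f α β hg) hv
  have h2 : (fun s : ℝ => energy (rr e f α β (z + s • w))) =
      fun s : ℝ => ‖z.1 + s • w.1‖ ^ 2 + ‖z.2 + s • w.2‖ ^ 2 := by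
    funext s
    rw [energy_rr]; rfl
  rw [h2] at h1
  have h5 := h1.unique ((hasDerivAt_normsq z.1 w.1).add (hasDerivAt_normsq z.2 w.2))
  have h6 : ⟪(zz a b α β k).1, w.1⟫ + ⟪(zz a b α β k).2, w.2⟫ = 0 := by
    have e1 : dd a b α β z = k * (2 * Real.pi) := dd_eq e f α β ha hab G
    have e2 := dd_zz (b := b) α β ha k
    have e3 : (zz a b α β k).1 = constL2 (-(b * lam a b α β k / spd a b)) := rfl
    have e4 : (zz a b α β k).2 = constL2 (a * lam a b α β k / spd a b) := rfl
    rw [e3, e4, inner_const, inner_const]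
    have e5 : b * startL w.1 - a * startL w.2 = 0 := by
      have e6 : w.1 = (zz a b α β k).1 - z.1 := rfl
      have e7 : w.2 = (zz a b α β k).2 - z.2 := rfl
      rw [e6, e7, map_sub, map_sub]
      unfold dd at e1 e2
      linarith
    linear_combination (lam a b α β k / spd a b) * e5
  have h7 : ‖w.1‖ ^ 2 + ‖w.2‖ ^ 2 = 0 := by
    have e1 : w.1 = (zz a b α β k).1 - z.1 := rfl
    have e2 : w.2 = (zz a b α β k).2 - z.2 := rfl
    have e3 : ⟪w.1, w.1⟫ = ⟪(zz a b α β k).1, w.1⟫ - ⟪z.1, w.1⟫ := by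
      conv_lhs => rw [e1, inner_sub_left]
      rw [← e1]
    have e4 : ⟪w.2, w.2⟫ = ⟪(zz a b α β k).2, w.2⟫ - ⟪z.2, w.2⟫ := by
      conv_lhs => rw [e2, inner_sub_left]
      rw [← e2]
    rw [← real_inner_self_eq_norm_sq, ← real_inner_self_eq_norm_sq, e3, e4]
    linarith
  have h8 : w.1 = 0 := by
    have : ‖w.1‖ ^ 2 = 0 := by nlinarith [sq_nonneg ‖w.1‖, sq_nonneg ‖w.2‖]
    exact norm_eq_zero.mp (pow_eq_zero_iff two_ne_zero |>.mp this)
  have h9 : w.2 = 0 := by
    have : ‖w.2‖ ^ 2 = 0 := by nlinarith [sq_nonneg ‖w.1‖, sq_nonneg ‖w.2‖]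
    exact norm_eq_zero.mp (pow_eq_zero_iff two_ne_zero |>.mp this)
  refine ⟨k, ?_⟩
  have h10 : w = 0 := Prod.ext h8 h9
  rw [← rr_ii e f α β hg]
  congr 1
  exact (sub_eq_zero.mp h10).symm

omit hab in
lemma energy_bound {z : L2 ℝ × L2 ℝ} {k : ℤ} (h : dd a b α β z = k * (2 * Real.pi)) :
    energy (rr e f α β (zz a b α β k)) ≤ ‖z.1‖ ^ 2 + ‖z.2‖ ^ 2 := by
  have hs := spd_pos (b := b) ha
  have e1 : energy (rr e f α β (zz a b α β k)) = lam a b α β k ^ 2 / spd a b := by
    rw [energy_rr]
    have e3 : (zz a b α β k).1 = constL2 (-(b * lam a b α β k / spd a b)) := rfl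
    have e4 : (zz a b α β k).2 = constL2 (a * lam a b α β k / spd a b) := rfl
    rw [e3, e4, ← real_inner_self_eq_norm_sq, ← real_inner_self_eq_norm_sq, inner_const,
      inner_const, startL_const, startL_const]
    have e5 : lam a b α β k ^ 2 / spd a b = spd a b * lam a b α β k ^ 2 / spd a b ^ 2 := by
      field_simp
    rw [e5]
    conv_rhs => rw [show spd a b * lam a b α β k ^ 2 =
      ((a : ℝ) ^ 2 + (b : ℝ) ^ 2) * lam a b α β k ^ 2 from rfl]
    ring
  rw [e1, div_le_iff₀ hs]
  have h1 := abs_startL_le z.1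
  have h2 := abs_startL_le z.2
  have h3 : startL z.1 ^ 2 ≤ ‖z.1‖ ^ 2 := by rw [← sq_abs]; gcongr
  have h4 : startL z.2 ^ 2 ≤ ‖z.2‖ ^ 2 := by rw [← sq_abs]; gcongr
  have h5 : lam a b α β k = b * startL z.1 - a * startL z.2 := by
    unfold lam
    unfold dd at h
    linarith
  rw [h5]
  calc (b * startL z.1 - a * startL z.2) ^ 2
      ≤ (startL z.1 ^ 2 + startL z.2 ^ 2) * spd a b := by
        unfold spd
        nlinarith [sq_nonneg ((a : ℝ) * startL z.1 + b * startL z.2)]
    _ ≤ _ := by gcongr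

lemma min_near (k : ℤ) : ∀ᶠ h in 𝓝 (rr e f α β (zz a b α β k)), h ∈ torusPaths e f a b α β →
    energy (rr e f α β (zz a b α β k)) ≤ energy h := by
  have hc : Continuous fun h : L2 (WithLp 2 (V × W)) => dd a b α β (ii e f α β h) :=
    (continuous_dd a b α β).comp (continuous_ii e f α β)
  have h0 : dd a b α β (ii e f α β (rr e f α β (zz a b α β k))) = k * (2 * Real.pi) := by
    rw [ii_rr, dd_zz α β ha]
  have hπ := Real.pi_pos
  have hopen : IsOpen {h : L2 (WithLp 2 (V × W)) |
      |dd a b α β (ii e f α β h) - k * (2 * Real.pi)| < Real.pi} :=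
    isOpen_lt ((hc.sub continuous_const).abs) continuous_const
  have hmem : rr e f α β (zz a b α β k) ∈
      {h : L2 (WithLp 2 (V × W)) |
        |dd a b α β (ii e f α β h) - k * (2 * Real.pi)| < Real.pi} := by
    rw [mem_ofPred_eq, h0]
    simpa using hπ
  filter_upwards [hopen.mem_nhds hmem] with h hh hX
  have h1 := dd_eq e f α β ha hab ⟨h, hX⟩
  set k' := kk e f α β ⟨h, hX⟩
  dsimp only at h1
  rw [h1] at hh
  have h2 : k' = k := by
    have h3 : |(k' : ℝ) - k| * (2 * Real.pi) < Real.pi := by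
      have : (k' : ℝ) * (2 * Real.pi) - k * (2 * Real.pi) = ((k' : ℝ) - k) * (2 * Real.pi) := by
        ring
      rw [this, abs_mul, abs_of_pos (show 0 < 2 * Real.pi by positivity)] at hh
      exact hh
    have h4 : |(k' : ℝ) - k| < 1 := by nlinarith [abs_nonneg ((k' : ℝ) - k)]
    have h5 : |k' - k| < 1 := by exact_mod_cast h4
    have h6 := Int.abs_lt_one_iff.mp h5
    omega
  rw [h2] at h1
  have h7 := energy_bound e f α β ha h1
  rw [← energy_rr e f α β, rr_ii e f α β hX] at h7
  exact h7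

omit hab in
lemma rr_zz_injective : Function.Injective fun k : ℤ => rr e f α β (zz a b α β k) := by
  intro k l hkl
  dsimp only at hkl
  have h1 := congrArg (fun g => dd a b α β (ii e f α β g)) hkl
  simp only [ii_rr, dd_zz α β ha] at h1
  have h2 : (k : ℝ) = l := mul_right_cancel₀ (show 2 * Real.pi ≠ 0 by positivity) h1
  exact_mod_cast h2

lemma isPerfect_torus (F : Type) [Field F] :
    IsPerfect F (flatTorus e f) (torusGeodesic e f a b) (pairL (e.pt α, f.pt β)) := by
  intro n
  have hcrit : ∀ k : ℤ, IsCriticalPoint (torusPaths e f a b α β)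
      (rr e f α β (zz a b α β k)) := fun k =>
    isCriticalPoint_of_min ((rr_mem e f α β ha hab).mpr ⟨k, dd_zz α β ha k⟩)
      (min_near e f α β ha hab k)
  have hind : ∀ k : ℤ, index (torusPaths e f a b α β) (rr e f α β (zz a b α β k)) = 0 :=
    fun k => index_of_min (min_near e f α β ha hab k)
  rcases eq_or_ne n 0 with rfl | hn
  · have h1 : {g | IsCriticalPoint (torusPaths e f a b α β) g ∧
        index (torusPaths e f a b α β) g = (0 : ℕ)} =
        range fun k : ℤ => rr e f α β (zz a b α β k) := by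
      ext g
      constructor
      · rintro ⟨h, -⟩
        obtain ⟨k, hk⟩ := critical_eq e f α β ha hab h
        exact ⟨k, hk.symm⟩
      · rintro ⟨k, rfl⟩
        exact ⟨hcrit k, hind k⟩
    rw [h1, betti_zero_of_int F (kkC e f α β ha hab) (ss e f α β ha hab)
      (homotopic_ss e f α β ha hab) (kk_ss e f α β ha hab)]
    exact (infinite_range_of_injective (rr_zz_injective e f α β ha)).encard_eq
  · have h1 : {g | IsCriticalPoint (torusPaths e f a b α β) g ∧
        index (torusPaths e f a b α β) g = n} = ∅ := by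
      ext g
      simp only [mem_ofPred_eq, mem_empty_iff_false, iff_false]
      rintro ⟨h, h'⟩
      obtain ⟨k, hk⟩ := critical_eq e f α β ha hab h
      rw [hk, hind k] at h'
      exact hn (by exact_mod_cast h'.symm)
    rw [h1, encard_empty,
      betti_pos_of_int F n hn (kkC e f α β ha hab) (ss e f α β ha hab)
        (homotopic_ss e f α β ha hab)]

/-- The closed geodesic is taut in the flat torus. -/
lemma isTaut_torus : IsTaut (flatTorus e f) (torusGeodesic e f a b) := by
  refine ⟨ℚ, inferInstance, fun p hp _ => ?_⟩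
  obtain ⟨⟨α, β⟩, rfl⟩ := hp
  exact isPerfect_torus e f α β ha hab ℚ

end torus

/-! ### The circle in itself -/

section circle
variable (e : Frame V) (f : Frame W) {a b : ℤ} (θ : ℝ) (ha : a ≠ 0) (hab : IsCoprime a b)

variable (a b) in
/-- Paths in the circle. -/
abbrev circPaths : Set (L2 (WithLp 2 (V × W))) :=
  pathSpace (torusGeodesic e f a b) (torusGeodesic e f a b) (mm e f a b θ)

variable (a b) in
/-- The path in the circle with given angular velocity. -/
def cc (χ : L2 ℝ) : L2 (WithLp 2 (V × W)) :=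
  rr e f (a * θ) (b * θ) ((a : ℝ) • χ, (b : ℝ) • χ)

variable (a b) in
lemma path_cc (χ : L2 ℝ) (t : unitInterval) :
    path (mm e f a b θ) (cc e f a b θ χ) t = mm e f a b (θ + path 0 χ t) := by
  unfold cc mm
  rw [path_rr]
  have h1 := path_smul (0 : ℝ) (a : ℝ) χ t
  have h2 := path_smul (0 : ℝ) (b : ℝ) χ t
  rw [smul_zero] at h1 h2
  dsimp only
  rw [h1, h2, smul_eq_mul, smul_eq_mul, mul_add, mul_add]

variable (a b) in
lemma cc_mem (χ : L2 ℝ) : cc e f a b θ χ ∈ circPaths e f a b θ :=
  ⟨fun t => by rw [path_cc]; exact mm_mem _ _ _ _ _, by rw [path_cc]; exact mm_mem _ _ _ _ _⟩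

include ha hab in
lemma ii_circ {g : L2 (WithLp 2 (V × W))} (hg : g ∈ circPaths e f a b θ) :
    (b : ℝ) • (ii e f (a * θ) (b * θ) g).1 = (a : ℝ) • (ii e f (a * θ) (b * θ) g).2 := by
  have hgT : ∀ t, path (pairL (e.pt (a * θ), f.pt (b * θ))) g t ∈ flatTorus e f := fun t =>
    torusGeodesic_subset _ _ _ _ (hg.1 t)
  have hr := rr_ii_of e f (a * θ) (b * θ) hgT
  set z := ii e f (a * θ) (b * θ) g with hz
  have hD : ∀ t, ∃ k : ℤ, (b : ℝ) * path 0 z.1 t - a * path 0 z.2 t = k * (2 * Real.pi) := by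
    intro t
    have h1 := hg.1 t
    rw [← hr] at h1
    unfold mm at h1
    rw [path_rr, mem_geodesic_iff ha hab] at h1
    obtain ⟨k, hk⟩ := h1
    exact ⟨k, by linarith⟩
  choose k hk using hD
  have hc : Continuous fun t => (b : ℝ) * path 0 z.1 t - a * path 0 z.2 t :=
    (continuous_const.mul (continuous_path _ _)).sub (continuous_const.mul (continuous_path _ _))
  have hkc : Continuous k := by
    rw [Int.isClosedEmbedding_coe_real.isEmbedding.continuous_iff]
    have h : (Int.cast ∘ k : unitInterval → ℝ) = fun t =>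
        ((b : ℝ) * path 0 z.1 t - a * path 0 z.2 t) / (2 * Real.pi) := by
      funext t
      rw [hk t, mul_div_cancel_right₀ _ (by positivity)]
      rfl
    rw [h]
    exact hc.div_const _
  have hk1 : k 1 = 0 := by
    have h := hk 1
    rw [path_one, path_one, mul_zero, mul_zero, sub_zero] at h
    have h2 : (k 1 : ℝ) = 0 := by
      rcases mul_eq_zero.mp h.symm with h | h
      · exact h
      · exfalso; have := Real.pi_pos; linarith
    exact_mod_cast h2
  have hk0 : ∀ t, k t = 0 := fun t => by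
    rw [← hk1]
    exact PreconnectedSpace.constant inferInstance hkc
  refine (path_injective (p := (0 : ℝ)) (p' := (0 : ℝ)) fun t => ?_).2
  have h1 := path_smul (0 : ℝ) (b : ℝ) z.1 t
  have h2 := path_smul (0 : ℝ) (a : ℝ) z.2 t
  rw [smul_zero] at h1 h2
  rw [h1, h2, smul_eq_mul, smul_eq_mul]
  have h3 := hk t
  rw [hk0 t, Int.cast_zero, zero_mul] at h3
  linarith

include ha hab in
lemma cc_ii {g : L2 (WithLp 2 (V × W))} (hg : g ∈ circPaths e f a b θ) :
    cc e f a b θ ((a : ℝ)⁻¹ • (ii e f (a * θ) (b * θ) g).1) = g := by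
  have hgT : ∀ t, path (pairL (e.pt (a * θ), f.pt (b * θ))) g t ∈ flatTorus e f := fun t =>
    torusGeodesic_subset _ _ _ _ (hg.1 t)
  have hr := rr_ii_of e f (a * θ) (b * θ) hgT
  have hi := ii_circ e f θ ha hab hg
  have ha' : (a : ℝ) ≠ 0 := by exact_mod_cast ha
  unfold cc
  have h1 : ((a : ℝ) • (a : ℝ)⁻¹ • (ii e f (a * θ) (b * θ) g).1,
      (b : ℝ) • (a : ℝ)⁻¹ • (ii e f (a * θ) (b * θ) g).1) = ii e f (a * θ) (b * θ) g := by
    apply Prod.ext
    · dsimp only
      rw [smul_smul, mul_inv_cancel₀ ha', one_smul]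
    · dsimp only
      rw [smul_comm, hi, smul_smul, inv_mul_cancel₀ ha', one_smul]
  rw [h1, hr]

variable (a b) in
lemma continuous_cc : Continuous (cc e f a b θ) := by
  unfold cc
  exact (continuous_rr e f _ _).comp ((continuous_const_smul _).prodMk (continuous_const_smul _))

include ha hab in
lemma contractible_circle : ContractibleSpace (circPaths e f a b θ) := by
  rw [contractible_iff_id_nullhomotopic]
  let r : C(L2 ℝ, circPaths e f a b θ) :=
    ⟨fun ψ => ⟨cc e f a b θ ψ, cc_mem e f a b θ ψ⟩, (continuous_cc e f a b θ).subtype_mk _⟩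
  let i : C(circPaths e f a b θ, L2 ℝ) :=
    ⟨fun g => (a : ℝ)⁻¹ • (ii e f (a * θ) (b * θ) g.1).1,
      (continuous_const_smul _).comp (continuous_fst.comp
        ((continuous_ii e f _ _).comp continuous_subtype_val))⟩
  have h1 : r.comp ((ContinuousMap.id (L2 ℝ)).comp i) = ContinuousMap.id _ := by
    ext1 g
    apply Subtype.ext
    exact cc_ii e f θ ha hab g.2
  rw [← h1]
  exact ((id_nullhomotopic (L2 ℝ)).comp_left i).comp_right r

variable (a b) in
lemma energy_cc (χ : L2 ℝ) : energy (cc e f a b θ χ) = spd a b * ‖χ‖ ^ 2 := by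
  unfold cc spd
  rw [energy_rr, norm_smul, norm_smul, mul_pow, mul_pow, Real.norm_eq_abs, Real.norm_eq_abs,
    sq_abs, sq_abs]
  ring

variable (a b) in
lemma cc_zero : cc e f a b θ 0 = 0 := by
  refine zero_of_path_const (p := mm e f a b θ) (q := mm e f a b θ) fun t => ?_
  rw [path_cc, path_zero, add_zero]

include ha hab in
lemma isCriticalPoint_circle (g : L2 (WithLp 2 (V × W))) :
    IsCriticalPoint (circPaths e f a b θ) g ↔ g = 0 := by
  have hs := spd_pos (b := b) ha
  constructor
  · rintro ⟨hg, hc⟩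
    set χ := (a : ℝ)⁻¹ • (ii e f (a * θ) (b * θ) g).1 with hχ
    obtain ⟨v, hv⟩ := hasDerivAt_rr e f (a * θ) (b * θ) ((a : ℝ) • χ, (b : ℝ) • χ)
      (-((a : ℝ) • χ, (b : ℝ) • χ))
    have e1 : ∀ s : ℝ, ((a : ℝ) • χ, (b : ℝ) • χ) + s • (-((a : ℝ) • χ, (b : ℝ) • χ)) =
        ((a : ℝ) • ((1 - s) • χ), (b : ℝ) • ((1 - s) • χ)) := by
      intro s
      apply Prod.ext
      · simp only [Prod.fst_add, Prod.smul_fst, Prod.fst_neg]; module
      · simp only [Prod.snd_add, Prod.smul_snd, Prod.snd_neg]; module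
    simp only [e1] at hv
    have hv' : HasDerivAt (fun s : ℝ => cc e f a b θ ((1 - s) • χ)) v 0 := hv
    have h0 : cc e f a b θ ((1 - (0 : ℝ)) • χ) = g := by
      rw [sub_zero, one_smul]; exact cc_ii e f θ ha hab hg
    have h1 := hc (fun s : ℝ => cc e f a b θ ((1 - s) • χ)) v (fun s => cc_mem _ _ _ _ _ _) h0 hv'
    have h2 : (fun s : ℝ => energy (cc e f a b θ ((1 - s) • χ))) =
        fun s : ℝ => (1 - s) ^ 2 * (spd a b * ‖χ‖ ^ 2) := by
      funext s
      rw [energy_cc, norm_smul, mul_pow, Real.norm_eq_abs, sq_abs]; ring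
    rw [h2] at h1
    have h3 : HasDerivAt (fun s : ℝ => (1 - s) ^ 2 * (spd a b * ‖χ‖ ^ 2))
        (((2 : ℕ) : ℝ) * (1 - 0) ^ (2 - 1) * (-1) * (spd a b * ‖χ‖ ^ 2)) 0 :=
      (((hasDerivAt_id (0 : ℝ)).const_sub 1).pow 2).mul_const _
    have h4 := h1.unique h3
    have h5 : ‖χ‖ ^ 2 = 0 := by
      have h6 : spd a b * ‖χ‖ ^ 2 = 0 := by
        norm_num at h4
        rcases h4 with h4 | h4
        · exact absurd h4 hs.ne'
        · rw [h4]; simp
      exact (mul_eq_zero.mp h6).resolve_left hs.ne'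
    have h6 : χ = 0 := norm_eq_zero.mp (pow_eq_zero_iff two_ne_zero |>.mp h5)
    rw [← h0, sub_zero, one_smul, h6, cc_zero]
  · rintro rfl
    apply isCriticalPoint_of_min
    · have := cc_mem e f a b θ 0
      rwa [cc_zero] at this
    · filter_upwards with h _
      rw [energy_eq, energy_eq, norm_zero, zero_pow two_ne_zero]
      positivity

lemma index_circle : index (circPaths e f a b θ) 0 = 0 := by
  apply index_of_min
  filter_upwards with h _
  rw [energy_eq, energy_eq, norm_zero, zero_pow two_ne_zero]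
  positivity

include ha hab in
/-- The closed geodesic is taut in itself. -/
lemma isPerfect_circle (F : Type) [Field F] :
    IsPerfect F (torusGeodesic e f a b) (torusGeodesic e f a b) (mm e f a b θ) := by
  intro k
  have hcon := contractible_circle e f θ ha hab
  rcases eq_or_ne k 0 with rfl | hk
  · have h1 : {g | IsCriticalPoint (circPaths e f a b θ) g ∧
        index (circPaths e f a b θ) g = (0 : ℕ)} = {0} := by
      ext g
      simp only [mem_ofPred_eq, mem_singleton_iff]
      constructor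
      · rintro ⟨h, -⟩
        exact (isCriticalPoint_circle e f θ ha hab g).mp h
      · rintro rfl
        exact ⟨(isCriticalPoint_circle e f θ ha hab 0).mpr rfl, index_circle e f θ⟩
    rw [h1, encard_singleton, betti_zero]
  · have h1 : {g | IsCriticalPoint (circPaths e f a b θ) g ∧
        index (circPaths e f a b θ) g = k} = ∅ := by
      ext g
      simp only [mem_ofPred_eq, mem_empty_iff_false, iff_false]
      rintro ⟨h, h'⟩
      rw [(isCriticalPoint_circle e f θ ha hab g).mp h, index_circle] at h'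
      exact hk (by exact_mod_cast h'.symm)
    rw [h1, encard_empty, betti_pos F _ k hk]

include ha hab in
omit θ in
lemma isTaut_circle : IsTaut (torusGeodesic e f a b) (torusGeodesic e f a b) := by
  refine ⟨ℚ, inferInstance, fun p hp _ => ?_⟩
  obtain ⟨θ, rfl⟩ := hp
  exact isPerfect_circle e f θ ha hab ℚ

end circle

end Pool.Agent.KS6_39.TT
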